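import Pool.Agent.H24.TorusEigenspace
import Pool.Agent.H24.Sturm

set_option autoImplicit false

/-!
# A maximum principle on half cylinders

Bounded solutions of `ΔU + V(x) U = 0` on the cylinder with `0 ≤ V ≤ Γ e^{-2|x|}` are controlled on
the half cylinder `x ≥ X`, where `Γ e^{-2X} ≤ 1/4`, by their values on the circle `x = X`.
-/

namespace Pool.Agent.H67.Cap

open Set Filter Topology Pool.Agent.H24 Pool.Agent.H24.Torus

/-- The barrier `2 - Γ e^{-2x}`. -/
noncomputable def phi (Γ x : ℝ) : ℝ := 2 - Γ * Real.exp (-(2 * x))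

/-- The growing barrier. -/
noncomputable def hb (Γ X x : ℝ) : ℝ := (x - X + 2) - 2 * Γ * Real.exp (-X) * Real.exp (-x)

lemma hasDerivAt_exp2 (x : ℝ) :
    HasDerivAt (fun x : ℝ => Real.exp (-(2 * x))) (-2 * Real.exp (-(2 * x))) x := by
  have h1 : HasDerivAt (fun x : ℝ => -(2 * x)) (-(2 * 1)) x :=
    ((hasDerivAt_id x).const_mul 2).neg
  exact h1.exp.congr_deriv (by ring)

lemma hasDerivAt_exp1 (x : ℝ) :
    HasDerivAt (fun x : ℝ => Real.exp (-x)) (-Real.exp (-x)) x := by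
  have h1 : HasDerivAt (fun x : ℝ => -x) (-1) x := hasDerivAt_neg x
  exact h1.exp.congr_deriv (by ring)

lemma hasDerivAt_phi (Γ x : ℝ) :
    HasDerivAt (phi Γ) (2 * Γ * Real.exp (-(2 * x))) x := by
  have h : HasDerivAt (fun x : ℝ => 2 - Γ * Real.exp (-(2 * x)))
      (-(Γ * (-2 * Real.exp (-(2 * x))))) x := ((hasDerivAt_exp2 x).const_mul Γ).const_sub 2
  exact h.congr_deriv (by ring)

lemma hasDerivAt_phi' (Γ x : ℝ) :
    HasDerivAt (fun x => 2 * Γ * Real.exp (-(2 * x))) (-4 * Γ * Real.exp (-(2 * x))) x :=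
  ((hasDerivAt_exp2 x).const_mul (2 * Γ)).congr_deriv (by ring)

lemma hasDerivAt_hb (Γ X x : ℝ) :
    HasDerivAt (hb Γ X) (1 + 2 * Γ * Real.exp (-X) * Real.exp (-x)) x := by
  have h1 := (hasDerivAt_exp1 x).const_mul (2 * Γ * Real.exp (-X))
  have h2 : HasDerivAt (fun x : ℝ => x - X + 2) 1 x :=
    ((hasDerivAt_id x).sub_const X).add_const 2
  have h3 : HasDerivAt (fun x : ℝ => (x - X + 2) - 2 * Γ * Real.exp (-X) * Real.exp (-x))
      (1 - 2 * Γ * Real.exp (-X) * -Real.exp (-x)) x := h2.sub h1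
  exact h3.congr_deriv (by ring)

lemma hasDerivAt_hb' (Γ X x : ℝ) :
    HasDerivAt (fun x => 1 + 2 * Γ * Real.exp (-X) * Real.exp (-x))
      (-(2 * Γ * Real.exp (-X) * Real.exp (-x))) x :=
  (((hasDerivAt_exp1 x).const_mul (2 * Γ * Real.exp (-X))).const_add 1).congr_deriv (by ring)

lemma continuous_phi (Γ : ℝ) : Continuous (phi Γ) := by
  unfold phi
  fun_prop

lemma continuous_hb (Γ X : ℝ) : Continuous (hb Γ X) := by
  unfold hb
  fun_prop

lemma exp_le_quarter {Γ X x : ℝ} (hΓ0 : 0 < Γ) (hX : Γ * Real.exp (-(2 * X)) ≤ 1 / 4)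
    (hx : X ≤ x) : Γ * Real.exp (-(2 * x)) ≤ 1 / 4 := by
  refine le_trans ?_ hX
  apply mul_le_mul_of_nonneg_left _ hΓ0.le
  apply Real.exp_le_exp.mpr
  linarith

lemma phi_bounds {Γ X x : ℝ} (hΓ0 : 0 < Γ) (hX : Γ * Real.exp (-(2 * X)) ≤ 1 / 4)
    (hx : X ≤ x) : 7 / 4 ≤ phi Γ x ∧ phi Γ x ≤ 2 := by
  have h1 := exp_le_quarter hΓ0 hX hx
  have h2 : 0 < Γ * Real.exp (-(2 * x)) := by positivity
  unfold phi
  constructor <;> linarith

lemma hb_ge {Γ X x : ℝ} (hΓ0 : 0 < Γ) (hX : Γ * Real.exp (-(2 * X)) ≤ 1 / 4)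
    (hx : X ≤ x) : x - X + 3 / 2 ≤ hb Γ X x := by
  have h1 : Γ * Real.exp (-X) * Real.exp (-x) ≤ Γ * Real.exp (-(2 * X)) := by
    rw [mul_assoc, ← Real.exp_add]
    apply mul_le_mul_of_nonneg_left _ hΓ0.le
    apply Real.exp_le_exp.mpr
    linarith
  unfold hb
  linarith

lemma phi_super {Γ X x v : ℝ} (hΓ0 : 0 < Γ) (hX : Γ * Real.exp (-(2 * X)) ≤ 1 / 4)
    (hx : X ≤ x) (hv : v ≤ Γ * Real.exp (-(2 * x))) :
    -4 * Γ * Real.exp (-(2 * x)) + v * phi Γ x < 0 := by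
  obtain ⟨h1, h2⟩ := phi_bounds hΓ0 hX hx
  have h3 : 0 < Γ * Real.exp (-(2 * x)) := by positivity
  have h4 : v * phi Γ x ≤ Γ * Real.exp (-(2 * x)) * 2 :=
    mul_le_mul hv h2 (by linarith) h3.le
  linarith

lemma hb_super {Γ X x v : ℝ} (hΓ0 : 0 < Γ) (hX : Γ * Real.exp (-(2 * X)) ≤ 1 / 4)
    (hx : X ≤ x) (hv : v ≤ Γ * Real.exp (-(2 * x))) :
    -(2 * Γ * Real.exp (-X) * Real.exp (-x)) + v * hb Γ X x ≤ 0 := by
  have h1 := hb_ge hΓ0 hX hx
  have h2 : hb Γ X x ≤ 2 * Real.exp (x - X) := by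
    have h3 : x - X + 1 ≤ Real.exp (x - X) := Real.add_one_le_exp _
    have h4 : 0 < 2 * Γ * Real.exp (-X) * Real.exp (-x) := by positivity
    unfold hb
    linarith
  have h3 : 0 < Γ * Real.exp (-(2 * x)) := by positivity
  have h4 : v * hb Γ X x ≤ Γ * Real.exp (-(2 * x)) * (2 * Real.exp (x - X)) :=
    mul_le_mul hv h2 (by linarith) h3.le
  have h5 : Γ * Real.exp (-(2 * x)) * (2 * Real.exp (x - X)) =
      2 * Γ * Real.exp (-X) * Real.exp (-x) := by
    have : Real.exp (-(2 * x)) * Real.exp (x - X) = Real.exp (-X) * Real.exp (-x) := by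
      rw [← Real.exp_add, ← Real.exp_add]
      congr 1
      ring
    linear_combination (2 * Γ) * this
  linarith

lemma exists_fract_period {U : ℝ → ℝ → ℝ} (hper : ∀ x y, U x (y + 2 * Real.pi) = U x y) (y : ℝ) :
    ∃ y' ∈ Icc (0 : ℝ) (2 * Real.pi), ∀ x, U x y' = U x y := by
  have hpi : (0 : ℝ) < 2 * Real.pi := by positivity
  refine ⟨toIcoMod hpi 0 y, ?_, ?_⟩
  · have := toIcoMod_mem_Ico hpi 0 y
    rw [zero_add] at this
    exact ⟨this.1, this.2.le⟩
  · intro x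
    have hp : Function.Periodic (U x) (2 * Real.pi) := fun y => hper x y
    have := hp.sub_zsmul_eq (x := y) (toIcoDiv hpi 0 y)
    exact this

/-- One-sided estimate with the growing barrier. -/
lemma cap_aux {U : ℝ → ℝ → ℝ} (hU : Torus.Smooth2 U) {V : ℝ → ℝ} {Γ B : ℝ}
    (hper : ∀ x y, U x (y + 2 * Real.pi) = U x y)
    (hpde : ∀ x y, Torus.dx (Torus.dx U) x y + Torus.dy (Torus.dy U) x y + V x * U x y = 0)
    (hB : ∀ x y, |U x y| ≤ B) (_hV0 : ∀ x, 0 ≤ V x) (hΓ0 : 0 < Γ)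
    (hV : ∀ x, V x ≤ Γ * Real.exp (-|x|) ^ 2) {X M : ℝ} (hX0 : 0 ≤ X)
    (hX : Γ * Real.exp (-(2 * X)) ≤ 1 / 4) (hM : ∀ y, |U X y| ≤ M) {ε : ℝ} (hε : 0 < ε)
    {x y : ℝ} (hx : X ≤ x) : 0 ≤ M * phi Γ x + U x y + ε * hb Γ X x := by
  have hM0 : 0 ≤ M := (abs_nonneg _).trans (hM 0)
  by_contra hcon
  push Not at hcon
  -- right end point
  set x1 : ℝ := max x (X + B / ε) + 1 with hx1
  have hxx1 : x < x1 := by
    have := le_max_left x (X + B / ε)
    linarith
  have hXx1 : X < x1 := lt_of_le_of_lt hx hxx1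
  -- the function
  set W : ℝ × ℝ → ℝ := fun q => M * phi Γ q.1 + U q.1 q.2 + ε * hb Γ X q.1 with hW
  have hWc : Continuous W := by
    have h1 := continuous_phi Γ
    have h2 := continuous_hb Γ X
    have h3 := hU.continuous
    fun_prop
  have hright : ∀ t, 0 < W (x1, t) := by
    intro t
    have h1 := neg_abs_le (U x1 t)
    have h2 := hB x1 t
    have h3 := hb_ge hΓ0 hX hXx1.le
    have h4 := (phi_bounds hΓ0 hX hXx1.le).1
    have h5 : B / ε + 1 ≤ x1 - X := by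
      have := le_max_right x (X + B / ε)
      linarith
    have h6 : ε * (B / ε + 1) ≤ ε * hb Γ X x1 := by
      apply mul_le_mul_of_nonneg_left _ hε.le
      linarith
    have h7 : ε * (B / ε + 1) = B + ε := by field_simp
    have h8 : 0 ≤ M * phi Γ x1 := by
      apply mul_nonneg hM0
      linarith
    simp only [hW]
    linarith
  have hleft : ∀ t, 0 < W (X, t) := by
    intro t
    have h1 := neg_abs_le (U X t)
    have h2 := hM t
    have h3 := hb_ge hΓ0 hX le_rfl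
    have h4 := (phi_bounds hΓ0 hX le_rfl).1
    have h5 : M * (7 / 4) ≤ M * phi Γ X := mul_le_mul_of_nonneg_left h4 hM0
    have h6 : 0 < ε * hb Γ X X := by
      apply mul_pos hε
      linarith
    simp only [hW]
    linarith
  -- minimum of `W / φ`
  have hφpos : ∀ t, X ≤ t → 0 < phi Γ t := by
    intro t ht
    have := (phi_bounds hΓ0 hX ht).1
    linarith
  have hcompact : IsCompact (Icc X x1 ×ˢ Icc (0 : ℝ) (2 * Real.pi)) :=
    isCompact_Icc.prod isCompact_Icc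
  have hcont : ContinuousOn (fun q : ℝ × ℝ => W q / phi Γ q.1)
      (Icc X x1 ×ˢ Icc (0 : ℝ) (2 * Real.pi)) := by
    apply ContinuousOn.div hWc.continuousOn
    · exact ((continuous_phi Γ).comp continuous_fst).continuousOn
    · intro q hq
      exact (hφpos q.1 hq.1.1).ne'
  obtain ⟨⟨x0, y0⟩, hq0, hmin⟩ := hcompact.exists_isMinOn
    ⟨(X, 0), ⟨left_mem_Icc.mpr hXx1.le, left_mem_Icc.mpr (by positivity)⟩⟩ hcont
  have hx0 : x0 ∈ Icc X x1 := hq0.1
  set m : ℝ := W (x0, y0) / phi Γ x0 with hm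
  have hmin' : ∀ s ∈ Icc X x1, ∀ t, m * phi Γ s ≤ W (s, t) := by
    intro s hs t
    obtain ⟨t', ht', hUt⟩ := exists_fract_period hper t
    have h1 := hmin (show (s, t') ∈ Icc X x1 ×ˢ Icc (0 : ℝ) (2 * Real.pi) from ⟨hs, ht'⟩)
    have h2 : m ≤ W (s, t') / phi Γ s := h1
    rw [le_div_iff₀ (hφpos s hs.1)] at h2
    have h3 : W (s, t') = W (s, t) := by
      simp only [hW]
      rw [hUt]
    rwa [h3] at h2
  have hmneg : m < 0 := by
    have h1 := hmin' x ⟨hx, hxx1.le⟩ y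
    have h2 : W (x, y) < 0 := hcon
    have h3 := hφpos x hx
    by_contra h
    push Not at h
    have := mul_nonneg h h3.le
    linarith
  have hW0 : W (x0, y0) = m * phi Γ x0 := by
    rw [hm, div_mul_cancel₀ _ (hφpos x0 hx0.1).ne']
  have hx0I : x0 ∈ Ioo X x1 := by
    refine ⟨lt_of_le_of_ne hx0.1 ?_, lt_of_le_of_ne hx0.2 ?_⟩
    · rintro rfl
      have h1 := hleft y0
      have h2 := mul_neg_of_neg_of_pos hmneg (hφpos X le_rfl)
      linarith
    · intro h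
      have h1 := hright y0
      have h2 := mul_neg_of_neg_of_pos hmneg (hφpos x0 hx0.1)
      rw [← h] at h1
      linarith
  -- local minima in both variables
  have m1 : IsLocalMin (fun s => (M - m) * phi Γ s + ε * hb Γ X s + U s y0) x0 := by
    filter_upwards [Icc_mem_nhds hx0I.1 hx0I.2] with s hs
    have h1 := hmin' s hs y0
    simp only [hW] at h1 hW0
    linarith
  have m2 : IsLocalMin (fun t => U x0 t) y0 := by
    filter_upwards with t
    have h1 := hmin' x0 hx0 t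
    simp only [hW] at h1 hW0
    linarith
  have d1 : ∀ s, HasDerivAt (fun s => (M - m) * phi Γ s + ε * hb Γ X s + U s y0)
      ((M - m) * (2 * Γ * Real.exp (-(2 * s))) +
        ε * (1 + 2 * Γ * Real.exp (-X) * Real.exp (-s)) + Torus.dx U s y0) s := fun s =>
    (((hasDerivAt_phi Γ s).const_mul (M - m)).add ((hasDerivAt_hb Γ X s).const_mul ε)).add
      (hU.diff_x y0 s).hasDerivAt
  have d1' : deriv (fun s => (M - m) * phi Γ s + ε * hb Γ X s + U s y0) =
      fun s => (M - m) * (2 * Γ * Real.exp (-(2 * s))) +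
        ε * (1 + 2 * Γ * Real.exp (-X) * Real.exp (-s)) + Torus.dx U s y0 :=
    funext fun s => (d1 s).deriv
  have d2 : HasDerivAt (fun s => (M - m) * (2 * Γ * Real.exp (-(2 * s))) +
        ε * (1 + 2 * Γ * Real.exp (-X) * Real.exp (-s)) + Torus.dx U s y0)
      ((M - m) * (-4 * Γ * Real.exp (-(2 * x0))) +
        ε * (-(2 * Γ * Real.exp (-X) * Real.exp (-x0))) + Torus.dx (Torus.dx U) x0 y0) x0 :=
    (((hasDerivAt_phi' Γ x0).const_mul (M - m)).add ((hasDerivAt_hb' Γ X x0).const_mul ε)).add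
      (hU.dx.diff_x y0 x0).hasDerivAt
  have k1 := Sturm.deriv2_nonneg_of_isLocalMin m1 (fun s => (d1 s).differentiableAt)
  rw [d1', d2.deriv] at k1
  have k2 : 0 ≤ Torus.dy (Torus.dy U) x0 y0 := Sturm.deriv2_nonneg_of_isLocalMin m2 (hU.diff_y x0)
  have hVx : V x0 ≤ Γ * Real.exp (-(2 * x0)) := by
    have h1 := hV x0
    have h2 : |x0| = x0 := abs_of_nonneg (hX0.trans hx0.1)
    have h3 : Real.exp (-|x0|) ^ 2 = Real.exp (-(2 * x0)) := by
      rw [h2, sq, ← Real.exp_add]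
      congr 1
      ring
    rwa [h3] at h1
  have s1 := phi_super hΓ0 hX hx0.1 hVx
  have s2 := hb_super hΓ0 hX hx0.1 hVx
  have hp := hpde x0 y0
  have hUx : U x0 y0 = m * phi Γ x0 - M * phi Γ x0 - ε * hb Γ X x0 := by
    simp only [hW] at hW0
    linarith
  rw [hUx] at hp
  have t1 : (M - m) * (-4 * Γ * Real.exp (-(2 * x0)) + V x0 * phi Γ x0) < 0 :=
    mul_neg_of_pos_of_neg (by linarith) s1
  have t2 : ε * (-(2 * Γ * Real.exp (-X) * Real.exp (-x0)) + V x0 * hb Γ X x0) ≤ 0 :=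
    mul_nonpos_of_nonneg_of_nonpos hε.le s2
  nlinarith

theorem cap_principle {U : ℝ → ℝ → ℝ} (hU : Torus.Smooth2 U) {V : ℝ → ℝ} {Γ B : ℝ}
    (hper : ∀ x y, U x (y + 2 * Real.pi) = U x y)
    (hpde : ∀ x y, Torus.dx (Torus.dx U) x y + Torus.dy (Torus.dy U) x y + V x * U x y = 0)
    (hB : ∀ x y, |U x y| ≤ B) (hV0 : ∀ x, 0 ≤ V x) (hΓ0 : 0 < Γ)
    (hV : ∀ x, V x ≤ Γ * Real.exp (-|x|) ^ 2) {X M : ℝ} (hX0 : 0 ≤ X)
    (hX : Γ * Real.exp (-(2 * X)) ≤ 1 / 4) (hM : ∀ y, |U X y| ≤ M) :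
    ∀ x y, X ≤ x → |U x y| ≤ 2 * M := by
  intro x y hx
  have hM0 : 0 ≤ M := (abs_nonneg _).trans (hM 0)
  have hφ := phi_bounds hΓ0 hX hx
  have hh := hb_ge hΓ0 hX hx
  have hhpos : 0 < hb Γ X x := by linarith
  -- the negative of `U`
  have hU' : Torus.Smooth2 ((-1 : ℝ) • U) := hU.smul _
  have hval : ∀ x y, ((-1 : ℝ) • U) x y = -U x y := by
    intro x y
    simp
  have hpde' : ∀ x y, Torus.dx (Torus.dx ((-1 : ℝ) • U)) x y +
      Torus.dy (Torus.dy ((-1 : ℝ) • U)) x y + V x * ((-1 : ℝ) • U) x y = 0 := by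
    intro x y
    rw [dx_smul hU, dy_smul hU, dx_smul hU.dx, dy_smul hU.dy]
    simp only [Pi.smul_apply, smul_eq_mul]
    linear_combination (-1 : ℝ) * hpde x y
  have key1 : ∀ ε > 0, 0 ≤ M * phi Γ x + U x y + ε * hb Γ X x := fun ε hε =>
    cap_aux hU hper hpde hB hV0 hΓ0 hV hX0 hX hM hε hx
  have key2 : ∀ ε > 0, 0 ≤ M * phi Γ x - U x y + ε * hb Γ X x := by
    intro ε hε
    have := cap_aux hU' (V := V) (Γ := Γ) (B := B) (X := X) (M := M)
      (by intro x y; rw [hval, hval, hper]) hpde'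
      (by intro x y; rw [hval, abs_neg]; exact hB x y) hV0 hΓ0 hV hX0 hX
      (by intro y; rw [hval, abs_neg]; exact hM y) hε (x := x) (y := y) hx
    rw [hval] at this
    linarith
  have hφM : M * phi Γ x ≤ 2 * M := by nlinarith
  rw [abs_le]
  constructor
  · by_contra hcon
    push Not at hcon
    have h1 := key1 ((-(2 * M) - U x y) / (2 * hb Γ X x)) (by
      apply div_pos _ (by positivity)
      linarith)
    have h2 : (-(2 * M) - U x y) / (2 * hb Γ X x) * hb Γ X x = (-(2 * M) - U x y) / 2 := by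
      field_simp
    rw [h2] at h1
    linarith
  · by_contra hcon
    push Not at hcon
    have h1 := key2 ((U x y - 2 * M) / (2 * hb Γ X x)) (by
      apply div_pos _ (by positivity)
      linarith)
    have h2 : (U x y - 2 * M) / (2 * hb Γ X x) * hb Γ X x = (U x y - 2 * M) / 2 := by
      field_simp
    rw [h2] at h1
    linarith

/-- The mirrored version. -/
theorem cap_principle_neg {U : ℝ → ℝ → ℝ} (hU : Torus.Smooth2 U) {V : ℝ → ℝ} {Γ B : ℝ}
    (hper : ∀ x y, U x (y + 2 * Real.pi) = U x y)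
    (hpde : ∀ x y, Torus.dx (Torus.dx U) x y + Torus.dy (Torus.dy U) x y + V x * U x y = 0)
    (hB : ∀ x y, |U x y| ≤ B) (hV0 : ∀ x, 0 ≤ V x) (hΓ0 : 0 < Γ)
    (hV : ∀ x, V x ≤ Γ * Real.exp (-|x|) ^ 2) {X M : ℝ} (hX0 : 0 ≤ X)
    (hX : Γ * Real.exp (-(2 * X)) ≤ 1 / 4) (hM : ∀ y, |U (-X) y| ≤ M) :
    ∀ x y, x ≤ -X → |U x y| ≤ 2 * M := by
  intro x y hx
  set U' : ℝ → ℝ → ℝ := fun x y => U (-x) y with hU'
  have hs : Torus.Smooth2 U' :=
    ContDiff.comp (g := fun p : ℝ × ℝ => U p.1 p.2) hU (contDiff_fst.neg.prodMk contDiff_snd)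
  have d1 : Torus.dx U' = fun x y => -Torus.dx U (-x) y := by
    funext x y
    have h1 : HasDerivAt (fun s => U (-s) y) (-Torus.dx U (-x) y) x := by
      have h2 : HasDerivAt (fun s => U s y) (Torus.dx U (-x) y) (-x) :=
        (hU.diff_x y (-x)).hasDerivAt
      have h3 : HasDerivAt (fun s : ℝ => -s) (-1) x := hasDerivAt_neg x
      have h4 : HasDerivAt (fun s => U (-s) y) (Torus.dx U (-x) y * -1) x := h2.comp x h3
      exact h4.congr_deriv (by ring)
    exact h1.deriv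
  have d2 : ∀ x y, Torus.dx (Torus.dx U') x y = Torus.dx (Torus.dx U) (-x) y := by
    intro x y
    rw [d1]
    have h1 : HasDerivAt (fun s => -Torus.dx U (-s) y) (Torus.dx (Torus.dx U) (-x) y) x := by
      have h2 : HasDerivAt (fun s => Torus.dx U s y) (Torus.dx (Torus.dx U) (-x) y) (-x) :=
        (hU.dx.diff_x y (-x)).hasDerivAt
      have h3 : HasDerivAt (fun s : ℝ => -s) (-1) x := hasDerivAt_neg x
      have h4 : HasDerivAt (fun s => Torus.dx U (-s) y) (Torus.dx (Torus.dx U) (-x) y * -1) x :=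
        h2.comp x h3
      exact h4.neg.congr_deriv (by ring)
    exact h1.deriv
  have d3 : ∀ x y, Torus.dy (Torus.dy U') x y = Torus.dy (Torus.dy U) (-x) y := by
    intro x y
    rfl
  have := cap_principle hs (V := fun x => V (-x)) (Γ := Γ) (B := B) (X := X) (M := M)
    (fun x y => hper (-x) y) (fun x y => by rw [d2, d3]; exact hpde (-x) y)
    (fun x y => hB (-x) y) (fun x => hV0 (-x)) hΓ0 (fun x => by
      have := hV (-x)
      rwa [abs_neg] at this) hX0 hX hM (-x) y (by linarith)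
  simpa [hU'] using this

end Pool.Agent.H67.Cap
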