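import Mathlib

/-!
# Strong Choquet games and `G_δ` subsets of metric spaces

The second player's winning strategies in the strong Choquet game on a space `Y`.
If a space `G` sits in `Y` as a countable intersection of sets open in `Y`, and `Y` admits such a
winning strategy, then `G` is a `G_δ` set in every metric space containing it.
-/

open Set Filter Topology TopologicalSpace

namespace Pool.Agent.H67

/-- A winning strategy for the second player in the strong Choquet game on `Y`. -/
structure Winning {Y : Type*} [TopologicalSpace Y] (σ : List (Y × Set Y) → Set Y) : Prop where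
  legal : ∀ (h : List (Y × Set Y)) (y : Y) (U : Set Y), y ∈ U → IsOpen U →
    IsOpen (σ (h ++ [(y, U)])) ∧ y ∈ σ (h ++ [(y, U)]) ∧ σ (h ++ [(y, U)]) ⊆ U
  wins : ∀ p : ℕ → Y × Set Y, (∀ n, (p n).1 ∈ (p n).2 ∧ IsOpen (p n).2) →
    (∀ n, (p (n + 1)).2 ⊆ σ (List.ofFn (fun i : Fin (n + 1) => p i.val))) →
    (⋂ n, σ (List.ofFn (fun i : Fin (n + 1) => p i.val))).Nonempty

section Step

variable {Y : Type*} [TopologicalSpace Y] {σ : List (Y × Set Y) → Set Y}
  {G : Type*} {Z : Type*} [MetricSpace Z] {j : G → Z} {e : G → Y}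

/-- The properties of the children of a node of the tree of plays. -/
structure StepData (σ : List (Y × Set Y) → Set Y) (j : G → Z) (e : G → Y)
    (V : Set Z) (S : Set Y) (h : List (Y × Set Y)) (O : Set Y) (ε : ℝ)
    (U : Set Y) (N : G → Set Z) : Prop where
  mem_U : ∀ g, j g ∈ V → e g ∈ U
  open_U : IsOpen U
  U_sub_O : U ⊆ O
  U_sub_S : U ⊆ S
  U_V : ∀ g, e g ∈ U → j g ∈ V
  open_N : ∀ g, IsOpen (N g)
  N_sub : ∀ g, N g ⊆ V
  N_ne : ∀ g, (N g).Nonempty → j g ∈ V
  fin : ∀ z, {g | z ∈ N g}.Finite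
  cover : ∀ g, j g ∈ V → ∃ g', j g ∈ N g'
  N_σ : ∀ g g', j g' ∈ N g → e g' ∈ σ (h ++ [(e g, U)])
  small : ∀ g, ∀ z ∈ N g, ∀ z' ∈ N g, dist z z' ≤ ε

theorem exists_stepData (hσ : Winning σ)
    (he : ∀ V : Set Z, IsOpen V → ∃ U : Set Y, IsOpen U ∧ e ⁻¹' U = j ⁻¹' V)
    (hj : ∀ U : Set Y, IsOpen U → ∃ V : Set Z, IsOpen V ∧ j ⁻¹' V = e ⁻¹' U)
    (V : Set Z) (hV : IsOpen V) (S : Set Y) (hS : IsOpen S) (hVS : ∀ g, j g ∈ V → e g ∈ S)
    (h : List (Y × Set Y)) (O : Set Y) (hO : IsOpen O) (heO : ∀ g, e g ∈ O)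
    (ε : ℝ) (hε : 0 < ε) :
    ∃ (U : Set Y) (N : G → Set Z), StepData σ j e V S h O ε U N := by
  classical
  obtain ⟨U0, hU0, hU0V⟩ := he V hV
  set U : Set Y := O ∩ S ∩ U0 with hU
  have hUo : IsOpen U := (hO.inter hS).inter hU0
  have hmem : ∀ g, j g ∈ V → e g ∈ U := by
    intro g hg
    refine ⟨⟨heO g, hVS g hg⟩, ?_⟩
    have : g ∈ e ⁻¹' U0 := by rw [hU0V]; exact hg
    exact this
  have hUV : ∀ g, e g ∈ U → j g ∈ V := by
    intro g hg
    have : g ∈ e ⁻¹' U0 := hg.2
    rw [hU0V] at this
    exact this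
  -- neighbourhoods
  have key : ∀ g, ∃ W : Set Z, IsOpen W ∧ (j g ∈ V → j g ∈ W) ∧ W ⊆ V ∧ (W.Nonempty → j g ∈ V) ∧
      (∀ g', j g' ∈ W → e g' ∈ σ (h ++ [(e g, U)])) ∧ (∀ z ∈ W, ∀ z' ∈ W, dist z z' ≤ ε) := by
    intro g
    by_cases hg : j g ∈ V
    · obtain ⟨h1, h2, h3⟩ := hσ.legal h (e g) U (hmem g hg) hUo
      obtain ⟨W, hW, hWe⟩ := hj _ h1
      refine ⟨W ∩ V ∩ Metric.ball (j g) (ε / 2), (hW.inter hV).inter Metric.isOpen_ball, ?_, ?_, ?_,
        ?_, ?_⟩
      · intro _
        refine ⟨⟨?_, hg⟩, Metric.mem_ball_self (by positivity)⟩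
        have : g ∈ j ⁻¹' W := by rw [hWe]; exact h2
        exact this
      · intro z hz; exact hz.1.2
      · intro _; exact hg
      · intro g' hg'
        have : g' ∈ j ⁻¹' W := hg'.1.1
        rw [hWe] at this
        exact this
      · intro z hz z' hz'
        have h1 : dist z (j g) < ε / 2 := hz.2
        have h2 : dist z' (j g) < ε / 2 := hz'.2
        have := dist_triangle_right z z' (j g)
        linarith
    · refine ⟨∅, isOpen_empty, fun h => absurd h hg, empty_subset _, ?_, ?_, ?_⟩
      · intro h; exact absurd h (by simp)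
      · intro g' hg'; exact absurd hg' (by simp)
      · intro z hz; exact absurd hz (by simp)
  choose W hWo hWg hWV hWne hWσ hWs using key
  set Ω : Set Z := ⋃ g, W g with hΩ
  have hΩo : IsOpen Ω := isOpen_iUnion hWo
  obtain ⟨v, hvo, hvc, hvf, hvs⟩ := precise_refinement (X := Ω)
    (fun g => (Subtype.val ⁻¹' W g : Set Ω)) (fun g => (hWo g).preimage continuous_subtype_val)
    (by
      ext z
      simp only [mem_iUnion, mem_preimage, mem_univ, iff_true]
      exact mem_iUnion.1 z.2)
  refine ⟨U, fun g => Subtype.val '' v g, ?_⟩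
  have hsub : ∀ g, (Subtype.val '' v g : Set Z) ⊆ W g := by
    rintro g z ⟨w, hw, rfl⟩
    exact hvs g hw
  refine ⟨hmem, hUo, fun y hy => hy.1.1, fun y hy => hy.1.2, hUV, ?_, ?_, ?_, ?_, ?_, ?_, ?_⟩
  · intro g
    exact hΩo.isOpenMap_subtype_val _ (hvo g)
  · intro g; exact (hsub g).trans (hWV g)
  · intro g hg; exact hWne g (hg.mono (hsub g))
  · intro z
    by_cases hz : z ∈ Ω
    · refine (hvf.point_finite ⟨z, hz⟩).subset ?_
      rintro g ⟨w, hw, hwz⟩
      have : w = ⟨z, hz⟩ := Subtype.ext hwz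
      rw [this] at hw
      exact hw
    · convert! Set.finite_empty
      ext g
      simp only [mem_ofPred_eq, mem_empty_iff_false, iff_false]
      rintro ⟨w, hw, hwz⟩
      exact hz (hwz ▸ w.2)
  · intro g hg
    have hz : j g ∈ Ω := mem_iUnion.2 ⟨g, hWg g hg⟩
    have : (⟨j g, hz⟩ : Ω) ∈ ⋃ i, v i := by rw [hvc]; trivial
    obtain ⟨g', hg'⟩ := mem_iUnion.1 this
    exact ⟨g', ⟨_, hg', rfl⟩⟩
  · intro g g' hg'
    exact hWσ g g' (hsub g hg')
  · intro g z hz z' hz'
    exact hWs g z (hsub g hz) z' (hsub g hz')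

end Step

section Main

variable {Y : Type*} [TopologicalSpace Y] {σ : List (Y × Set Y) → Set Y}
  {G : Type*} {Z : Type*} [MetricSpace Z] {j : G → Z} {e : G → Y}

/-- A node of the tree of plays. -/
structure Node (j : G → Z) (e : G → Y) where
  h : List (Y × Set Y)
  V : Set Z
  S : Set Y
  hV : IsOpen V
  hS : IsOpen S
  hVS : ∀ g, j g ∈ V → e g ∈ S

theorem isGδ_range_of_winning (hσ : Winning σ)
    (he : ∀ V : Set Z, IsOpen V → ∃ U : Set Y, IsOpen U ∧ e ⁻¹' U = j ⁻¹' V)
    (hj : ∀ U : Set Y, IsOpen U → ∃ V : Set Z, IsOpen V ∧ j ⁻¹' V = e ⁻¹' U)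
    (O : ℕ → Set Y) (hO : ∀ n, IsOpen (O n)) (heO : ∀ n g, e g ∈ O n)
    (hO' : ⋂ n, O n ⊆ range e) : IsGδ (range j) := by
  classical
  have hstep : ∀ (ν : Node j e) (n : ℕ), ∃ (U : Set Y) (N : G → Set Z),
      StepData σ j e ν.V ν.S ν.h (O n) ((1 / 2 : ℝ) ^ n) U N := fun ν n =>
    exists_stepData hσ he hj ν.V ν.hV ν.S ν.hS ν.hVS ν.h (O n) (hO n) (heO n) _ (by positivity)
  choose U N hUN using hstep
  -- the child; when `j g ∉ V` the set `N g` is empty and we use a trivial node
  have hchild : ∀ (ν : Node j e) (n : ℕ) (g : G), ∃ μ : Node j e,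
      μ.V = N ν n g ∧ μ.h = ν.h ++ [(e g, U ν n)] ∧
      ((N ν n g).Nonempty → μ.S = σ (ν.h ++ [(e g, U ν n)])) := by
    intro ν n g
    by_cases hne : (N ν n g).Nonempty
    · have hg : j g ∈ ν.V := (hUN ν n).N_ne g hne
      obtain ⟨h1, h2, h3⟩ := hσ.legal ν.h (e g) (U ν n) ((hUN ν n).mem_U g hg) (hUN ν n).open_U
      exact ⟨⟨ν.h ++ [(e g, U ν n)], N ν n g, σ (ν.h ++ [(e g, U ν n)]), (hUN ν n).open_N g, h1,
        (hUN ν n).N_σ g⟩, rfl, rfl, fun _ => rfl⟩
    · exact ⟨⟨ν.h ++ [(e g, U ν n)], N ν n g, univ, (hUN ν n).open_N g, isOpen_univ,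
        fun _ _ => trivial⟩, rfl, rfl, fun h => absurd h hne⟩
  choose child hcV hch hcS using hchild
  let root : Node j e := ⟨[], univ, univ, isOpen_univ, isOpen_univ, fun _ _ => trivial⟩
  let node : List G → Node j e := fun s => List.rec root (fun g s ν => child ν s.length g) s
  have node_nil : node [] = root := rfl
  have node_cons : ∀ g s, node (g :: s) = child (node s) s.length g := fun g s => rfl
  have V_cons : ∀ g s, (node (g :: s)).V = N (node s) s.length g := by
    intro g s; rw [node_cons, hcV]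
  have V_anti : ∀ g s, (node (g :: s)).V ⊆ (node s).V := by
    intro g s; rw [V_cons]; exact (hUN _ _).N_sub g
  have V_anti' : ∀ t s, (node (t ++ s)).V ⊆ (node s).V := by
    intro t s
    induction t with
    | nil => exact subset_rfl
    | cons g t ih => exact (V_anti g (t ++ s)).trans ih
  let W : ℕ → Set Z := fun n => ⋃ s : {s : List G // s.length = n}, (node s.1).V
  have hWo : ∀ n, IsOpen (W n) := fun n => isOpen_iUnion fun s => (node s.1).hV
  have hjW : ∀ n g, ∃ s : List G, s.length = n ∧ j g ∈ (node s).V := by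
    intro n g
    induction n with
    | zero => exact ⟨[], rfl, trivial⟩
    | succ n ih =>
      obtain ⟨s, hs, hgs⟩ := ih
      obtain ⟨g', hg'⟩ := (hUN (node s) s.length).cover g hgs
      exact ⟨g' :: s, by simp [hs], by rw [V_cons]; exact hg'⟩
  have hEq : range j = ⋂ n, W n := by
    apply Subset.antisymm
    · rintro _ ⟨g, rfl⟩
      refine mem_iInter.2 fun n => ?_
      obtain ⟨s, hs, hgs⟩ := hjW n g
      exact mem_iUnion.2 ⟨⟨s, hs⟩, hgs⟩
    · intro z hz
      -- Koenig's lemma
      let P : List G → Prop := fun s => ∀ m, ∃ t : List G, t.length = m ∧ z ∈ (node (t ++ s)).V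
      have P_nil : P [] := by
        intro m
        obtain ⟨s, hs⟩ := mem_iUnion.1 (mem_iInter.1 hz m)
        exact ⟨s.1, s.2, by simpa using hs⟩
      have P_step : ∀ s, P s → ∃ g, P (g :: s) := by
        intro s hs
        by_contra hcon
        push Not at hcon
        have hcon' : ∀ g, ∃ m, ∀ t : List G, t.length = m → z ∉ (node (t ++ (g :: s))).V := by
          intro g
          have := hcon g
          simp only [P] at this
          push Not at this
          exact this
        choose m hm using hcon'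
        have hF : {g | z ∈ N (node s) s.length g}.Finite := (hUN (node s) s.length).fin z
        obtain ⟨t, ht, hzt⟩ := hs (hF.toFinset.sup m + 1)
        obtain ⟨t', g, rfl⟩ : ∃ t' g, t = t' ++ [g] := by
          rcases List.eq_nil_or_concat t with h | ⟨t', g, h⟩
          · rw [h] at ht; simp at ht
          · exact ⟨t', g, by simpa using h⟩
        have hlen : t'.length = hF.toFinset.sup m := by
          simpa using ht
        have hzt' : z ∈ (node (t' ++ (g :: s))).V := by simpa using hzt
        have hgF : g ∈ hF.toFinset := by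
          rw [Finite.mem_toFinset, mem_ofPred_eq, ← V_cons]
          exact V_anti' t' (g :: s) hzt'
        have hle : m g ≤ t'.length := by
          rw [hlen]; exact Finset.le_sup (f := m) hgF
        -- drop the first elements
        have hdrop : z ∈ (node (t'.drop (t'.length - m g) ++ (g :: s))).V := by
          have : t' ++ (g :: s) =
              t'.take (t'.length - m g) ++ (t'.drop (t'.length - m g) ++ (g :: s)) := by
            rw [← List.append_assoc, List.take_append_drop]
          rw [this] at hzt'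
          exact V_anti' _ _ hzt'
        refine hm g _ ?_ hdrop
        rw [List.length_drop]; omega
      choose nxt hnxt using P_step
      let b : ℕ → {s : List G // P s} := fun n =>
        Nat.rec ⟨[], P_nil⟩ (fun _ s => ⟨nxt s.1 s.2 :: s.1, hnxt s.1 s.2⟩) n
      let x : ℕ → G := fun n => nxt (b n).1 (b n).2
      have hb : ∀ n, (b (n + 1)).1 = x n :: (b n).1 := fun n => rfl
      have hblen : ∀ n, (b n).1.length = n := by
        intro n
        induction n with
        | zero => rfl
        | succ n ih => rw [hb, List.length_cons, ih]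
      have hzb : ∀ n, z ∈ (node (b n).1).V := by
        intro n
        obtain ⟨t, ht, hzt⟩ := (b n).2 0
        have : t = [] := List.length_eq_zero_iff.1 ht
        rw [this] at hzt
        exact hzt
      let p : ℕ → Y × Set Y := fun n => (e (x n), U (node (b n).1) (b n).1.length)
      have hh : ∀ n, (node (b n).1).h = List.ofFn (fun i : Fin n => p i.val) := by
        intro n
        induction n with
        | zero => rfl
        | succ n ih =>
          rw [hb, node_cons, hch, ih, List.ofFn_succ', List.concat_eq_append]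
          rfl
      have hzN : ∀ n, z ∈ N (node (b n).1) (b n).1.length (x n) := by
        intro n
        have := hzb (n + 1)
        rw [hb, V_cons] at this
        exact this
      have hS : ∀ n, (node (b (n + 1)).1).S = σ (List.ofFn (fun i : Fin (n + 1) => p i.val)) := by
        intro n
        rw [← hh (n + 1), hb, node_cons, hch, hcS _ _ _ ⟨z, hzN n⟩]
      have hp1 : ∀ n, (p n).1 ∈ (p n).2 ∧ IsOpen (p n).2 := by
        intro n
        have hD := hUN (node (b n).1) (b n).1.length
        exact ⟨hD.mem_U _ (hD.N_ne _ ⟨z, hzN n⟩), hD.open_U⟩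
      have hp2 : ∀ n, (p (n + 1)).2 ⊆ σ (List.ofFn (fun i : Fin (n + 1) => p i.val)) := by
        intro n
        have hD := hUN (node (b (n + 1)).1) (b (n + 1)).1.length
        rw [← hS n]
        exact hD.U_sub_S
      obtain ⟨y, hy⟩ := hσ.wins p hp1 hp2
      have hyU : ∀ n, y ∈ U (node (b n).1) (b n).1.length := by
        intro n
        have h1 := mem_iInter.1 hy n
        have hD := hUN (node (b n).1) (b n).1.length
        obtain ⟨h2, h3, h4⟩ := hσ.legal (List.ofFn (fun i : Fin n => p i.val)) (p n).1 (p n).2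
          (hp1 n).1 (hp1 n).2
        have h5 : List.ofFn (fun i : Fin (n + 1) => p i.val) =
            List.ofFn (fun i : Fin n => p i.val) ++ [((p n).1, (p n).2)] := by
          rw [List.ofFn_succ', List.concat_eq_append]
          rfl
        rw [h5] at h1
        exact h4 h1
      have hyO : y ∈ ⋂ n, O n := by
        refine mem_iInter.2 fun n => ?_
        have hD := hUN (node (b n).1) (b n).1.length
        have := hD.U_sub_O (hyU n)
        rwa [hblen n] at this
      obtain ⟨g, rfl⟩ := hO' hyO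
      refine ⟨g, ?_⟩
      have hgV : ∀ n, j g ∈ (node (b n).1).V := fun n =>
        (hUN (node (b n).1) (b n).1.length).U_V g (hyU n)
      have hdist : ∀ n : ℕ, dist (j g) z ≤ (1 / 2 : ℝ) ^ n := by
        intro n
        have h1 := hgV (n + 1)
        rw [hb, V_cons] at h1
        have := (hUN (node (b n).1) (b n).1.length).small (x n) _ h1 _ (hzN n)
        rwa [hblen n] at this
      have hlim : Tendsto (fun n : ℕ => (1 / 2 : ℝ) ^ n) atTop (𝓝 0) :=
        tendsto_pow_atTop_nhds_zero_of_lt_one (by norm_num) (by norm_num)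
      have : dist (j g) z ≤ 0 := ge_of_tendsto' hlim hdist
      exact dist_le_zero.1 this
  rw [hEq]
  exact IsGδ.iInter_of_isOpen hWo

end Main

end Pool.Agent.H67
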