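import Mathlib

/-!
# The hyperspace `C(X)`, its quotient `HS(p,X)`, aposyndesis

Definitions used in the results on `HS(p,X) = C(X)/C(p,X)`.
-/

open Set Topology TopologicalSpace

namespace Pool.Agent.H67

/-- The hyperspace `C(X)` of nonempty compact connected subsets of `X` (singletons included).
Its topology is the one induced by that of Mathlib's space of nonempty compact subsets; when `X` is
a metric space this is the topology of the Hausdorff metric (see `SubC.dist_eq`). -/
abbrev SubC (X : Type*) [TopologicalSpace X] : Type _ :=
  {A : NonemptyCompacts X // IsConnected (A : Set X)}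

/-- The equivalence relation on `C(X)` collapsing `C(p,X)`, the set of all members of `C(X)`
containing `p`, to one point and nothing else. -/
def collapse {X : Type*} [TopologicalSpace X] (p : X) : Setoid (SubC X) where
  r A B := A = B ∨ (p ∈ (A.1 : Set X) ∧ p ∈ (B.1 : Set X))
  iseqv :=
    { refl := fun _ => Or.inl rfl
      symm := by
        rintro A B (h | h)
        · exact Or.inl h.symm
        · exact Or.inr ⟨h.2, h.1⟩
      trans := by
        rintro A B C (rfl | h) (rfl | h')
        · exact Or.inl rfl
        · exact Or.inr h'
        · exact Or.inr h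
        · exact Or.inr ⟨h.1, h'.2⟩ }

/-- The space `HS(p,X) = C(X)/C(p,X)`, with the quotient topology. -/
abbrev HS {X : Type*} [TopologicalSpace X] (p : X) : Type _ := Quotient (collapse p)

/-- `Y` is aposyndetic at `x` with respect to `y`: some compact connected set has `x` in its
interior and does not contain `y`. -/
def AposyndeticAt {Y : Type*} [TopologicalSpace Y] (x y : Y) : Prop :=
  ∃ M : Set Y, IsCompact M ∧ IsConnected M ∧ x ∈ interior M ∧ y ∉ M

/-- `Y` is aposyndetic. -/
def Aposyndetic (Y : Type*) [TopologicalSpace Y] : Prop :=
  ∀ x y : Y, x ≠ y → AposyndeticAt x y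

/-- `Y` is semi-aposyndetic. -/
def SemiAposyndetic (Y : Type*) [TopologicalSpace Y] : Prop :=
  ∀ x y : Y, x ≠ y → AposyndeticAt x y ∨ AposyndeticAt y x

/-- Check: in a metric space the distance of two members of `C(X)` is their Hausdorff distance. -/
theorem SubC.dist_eq {X : Type*} [MetricSpace X] (A B : SubC X) :
    dist A B = Metric.hausdorffDist (A.1 : Set X) (B.1 : Set X) := rfl

/-- Check: the topology of `C(X)` is the one of the Hausdorff metric. -/
theorem SubC.topology_eq {X : Type*} [MetricSpace X] :
    (inferInstance : MetricSpace (SubC X)).toUniformSpace.toTopologicalSpace =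
      instTopologicalSpaceSubtype := rfl

end Pool.Agent.H67
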