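import Mathlib
import Pool.Agent.H67.HSDefs

/-!
# Hyperspaces of subcontinua

Boundary bumping, connectedness of the order intervals of the hyperspace `C(X)`.
-/

open Set Filter Topology TopologicalSpace

namespace Pool.Agent.H67

section Closed

variable {X : Type*} [TopologicalSpace X] [T2Space X]

/-- Connectedness is a closed condition on nonempty compact sets. -/
theorem isClosed_isConnected :
    IsClosed {A : NonemptyCompacts X | IsConnected (A : Set X)} := by
  rw [← isOpen_compl_iff, isOpen_iff_forall_mem_open]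
  intro A hA
  have hA' : ¬ IsPreconnected (A : Set X) := fun h => hA ⟨A.nonempty, h⟩
  rw [isPreconnected_iff_subset_of_fully_disjoint_closed A.isCompact.isClosed] at hA'
  push Not at hA'
  obtain ⟨u, v, hu, hv, hAuv, huv, hAu, hAv⟩ := hA'
  have hsep : SeparatedNhds ((A : Set X) ∩ u) ((A : Set X) ∩ v) :=
    SeparatedNhds.of_isCompact_isCompact (A.isCompact.inter_right hu) (A.isCompact.inter_right hv)
      (huv.mono inter_subset_right inter_subset_right)
  obtain ⟨U, V, hU, hV, hAU, hAV, hUV⟩ := hsep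
  refine ⟨{B | (B : Set X) ⊆ U ∪ V} ∩ ({B | ((B : Set X) ∩ U).Nonempty} ∩
    {B | ((B : Set X) ∩ V).Nonempty}), ?_, ?_, ?_⟩
  · rintro B ⟨hB1, hB2, hB3⟩ hB
    obtain ⟨x, hx, hxU, hxV⟩ := hB.2 U V hU hV hB1 hB2 hB3
    exact hUV.le_bot ⟨hxU, hxV⟩
  · exact (NonemptyCompacts.isOpen_subsets_of_isOpen (hU.union hV)).inter
      ((NonemptyCompacts.isOpen_inter_nonempty_of_isOpen hU).inter
        (NonemptyCompacts.isOpen_inter_nonempty_of_isOpen hV))
  · refine ⟨?_, ?_, ?_⟩
    · intro x hx
      rcases hAuv hx with h | h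
      · exact Or.inl (hAU ⟨hx, h⟩)
      · exact Or.inr (hAV ⟨hx, h⟩)
    · obtain ⟨x, hx, hxv⟩ := not_subset.1 hAv
      exact ⟨x, hx, hAU ⟨hx, (hAuv hx).resolve_right hxv⟩⟩
    · obtain ⟨x, hx, hxu⟩ := not_subset.1 hAu
      exact ⟨x, hx, hAV ⟨hx, (hAuv hx).resolve_left hxu⟩⟩

end Closed

section Bumping

variable {X : Type*} [TopologicalSpace X] [T2Space X]

/-- In a compact Hausdorff space a component contained in an open set is contained in a clopen
set inside this open set. -/
theorem exists_isClopen_of_component {L : Type*} [TopologicalSpace L] [T2Space L] [CompactSpace L]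
    (x : L) {O : Set L} (hO : IsOpen O) (h : connectedComponent x ⊆ O) :
    ∃ Q : Set L, IsClopen Q ∧ x ∈ Q ∧ Q ⊆ O := by
  rw [connectedComponent_eq_iInter_isClopen] at h
  have H1 := hO.isClosed_compl.isCompact.inter_iInter_nonempty
      (fun s : { s : Set L // IsClopen s ∧ x ∈ s } => (s : Set L)) fun s => s.2.1.1
  rw [← not_disjoint_iff_nonempty_inter, imp_not_comm, not_forall] at H1
  obtain ⟨si, H2⟩ := H1 (disjoint_compl_left_iff_subset.2 h)
  refine ⟨⋂ U ∈ si, Subtype.val U, ?_, ?_, ?_⟩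
  · exact isClopen_biInter_finset fun s _ => s.2.1
  · exact mem_iInter₂.2 fun s _ => s.2.2
  · rwa [← disjoint_compl_left_iff_subset, disjoint_iff_inter_eq_empty,
      ← not_nonempty_iff_eq_empty]

/-- Boundary bumping: a proper subcontinuum `D` of a continuum `K` is properly contained in
subcontinua of `K` arbitrarily close to `D`. -/
theorem exists_larger_continuum {D K O : Set X} (hD : IsConnected D)
    (hDc : IsCompact D) (hK : IsConnected K) (hKc : IsCompact K) (hDK : D ⊆ K) (hne : D ≠ K)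
    (hO : IsOpen O) (hDO : D ⊆ O) :
    ∃ D' : Set X, IsCompact D' ∧ IsConnected D' ∧ D ⊆ D' ∧ D ≠ D' ∧ D' ⊆ K ∧ D' ⊆ O := by
  classical
  -- a compact neighbourhood of `D` in `K` inside `O`
  obtain ⟨U, V, hU, hV, hDU, hKV, hUV⟩ : SeparatedNhds D (K \ O) :=
    SeparatedNhds.of_isCompact_isCompact hDc (hKc.diff hO)
      (disjoint_left.2 fun x hx hx' => hx'.2 (hDO hx))
  -- `L = K \ V` is compact, contains `K ∩ U ⊇ D`, is contained in `O`
  let L : Set X := K \ V
  have hLc : IsCompact L := hKc.diff hV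
  have hLO : L ⊆ O := by
    rintro x ⟨hxK, hxV⟩
    by_contra hxO
    exact hxV (hKV ⟨hxK, hxO⟩)
  have hDL : D ⊆ L := fun x hx => ⟨hDK hx, fun hxV => hUV.le_bot ⟨hDU hx, hxV⟩⟩
  obtain ⟨x, hx⟩ := hD.nonempty
  have : CompactSpace L := isCompact_iff_compactSpace.1 hLc
  let x' : L := ⟨x, hDL hx⟩
  let E : Set X := Subtype.val '' (connectedComponent x')
  have hE : E = connectedComponentIn L x := (connectedComponentIn_eq_image (hDL hx)).symm
  have hDE : D ⊆ E := by
    rw [hE]
    exact hD.2.subset_connectedComponentIn hx hDL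
  have hEL : E ⊆ L := by rw [hE]; exact connectedComponentIn_subset _ _
  have hEconn : IsConnected E := by
    rw [hE]; exact isConnected_connectedComponentIn_iff.2 (hDL hx)
  have hEc : IsCompact E :=
    (isClosed_connectedComponent.isCompact).image continuous_subtype_val
  refine ⟨E, hEc, hEconn, hDE, ?_, hEL.trans sdiff_subset, hEL.trans hLO⟩
  intro hEq
  -- if `D` is a component of `L`, it lies in a set that is clopen in `L` and inside `U`
  obtain ⟨Q, hQ, hxQ, hQU⟩ := exists_isClopen_of_component x'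
    (O := Subtype.val ⁻¹' U) (hU.preimage continuous_subtype_val) (by
      intro z hz
      have : (z : X) ∈ E := ⟨z, hz, rfl⟩
      rw [← hEq] at this
      exact hDU this)
  obtain ⟨W, hW, hWQ⟩ := isOpen_induced_iff.1 hQ.isOpen
  have hQc : IsClosed (Subtype.val '' Q : Set X) :=
    (hQ.isClosed.isCompact.image continuous_subtype_val).isClosed
  -- `Q = K ∩ W ∩ U`
  have hQeq : (Subtype.val '' Q : Set X) = K ∩ (W ∩ U) := by
    apply Subset.antisymm
    · rintro _ ⟨z, hz, rfl⟩
      refine ⟨z.2.1, ?_, hQU hz⟩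
      rw [← hWQ] at hz
      exact hz
    · rintro z ⟨hzK, hzW, hzU⟩
      have hzL : z ∈ L := ⟨hzK, fun hzV => hUV.le_bot ⟨hzU, hzV⟩⟩
      refine ⟨⟨z, hzL⟩, ?_, rfl⟩
      rw [← hWQ]
      exact hzW
  have hKQ : K ⊆ Subtype.val '' Q := by
    have h1 := isPreconnected_iff_subset_of_disjoint.1 hK.2 (W ∩ U) (Subtype.val '' Q)ᶜ
      (hW.inter hU) hQc.isOpen_compl
      (by
        intro z hz
        by_cases hzQ : z ∈ (Subtype.val '' Q : Set X)
        · left; rw [hQeq] at hzQ; exact hzQ.2
        · right; exact hzQ)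
      (by
        rw [eq_empty_iff_forall_notMem]
        rintro z ⟨hzK, hz1, hz2⟩
        apply hz2
        rw [hQeq]
        exact ⟨hzK, hz1⟩)
    rcases h1 with h1 | h1
    · intro z hz
      rw [hQeq]
      exact ⟨hz, h1 hz⟩
    · exfalso
      exact h1 (hDK hx) ⟨x', hxQ, rfl⟩
  -- hence `K = L` and so `K` lies in the component `E`
  have hKL : K ⊆ L := by
    intro z hz
    obtain ⟨w, _, rfl⟩ := hKQ hz
    exact w.2
  have hKE : K ⊆ E := by
    rw [hE]
    exact hK.2.subset_connectedComponentIn (hDK hx) hKL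
  exact hne (Subset.antisymm hDK (hKE.trans hEq.ge))

end Bumping

namespace SubC

variable {X : Type*} [TopologicalSpace X]

/-- The subcontinuum with a given underlying set. -/
def mk' (A : Set X) (hA : IsCompact A) (hA' : IsConnected A) : SubC X :=
  ⟨⟨⟨A, hA⟩, hA'.nonempty⟩, hA'⟩

@[simp] theorem coe_mk' (A : Set X) (hA : IsCompact A) (hA' : IsConnected A) :
    ((mk' A hA hA').1 : Set X) = A := rfl

theorem ext' {A B : SubC X} (h : (A.1 : Set X) = B.1) : A = B :=
  Subtype.ext (SetLike.coe_injective h)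

theorem isOpen_subset {U : Set X} (h : IsOpen U) : IsOpen {A : SubC X | (A.1 : Set X) ⊆ U} :=
  (NonemptyCompacts.isOpen_subsets_of_isOpen h).preimage continuous_subtype_val

theorem isOpen_meets {U : Set X} (h : IsOpen U) :
    IsOpen {A : SubC X | ((A.1 : Set X) ∩ U).Nonempty} :=
  (NonemptyCompacts.isOpen_inter_nonempty_of_isOpen h).preimage continuous_subtype_val

theorem isClosed_subset {F : Set X} (h : IsClosed F) : IsClosed {A : SubC X | (A.1 : Set X) ⊆ F} :=
  (NonemptyCompacts.isClosed_subsets_of_isClosed h).preimage continuous_subtype_val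

theorem isClosed_meets {F : Set X} (h : IsClosed F) :
    IsClosed {A : SubC X | ((A.1 : Set X) ∩ F).Nonempty} :=
  (NonemptyCompacts.isClosed_inter_nonempty_of_isClosed h).preimage continuous_subtype_val

theorem isClosed_mem [T1Space X] (x : X) : IsClosed {A : SubC X | x ∈ (A.1 : Set X)} := by
  convert! isClosed_meets (isClosed_singleton (x := x)) using 2 with A
  simp

theorem isClosed_superset [T1Space X] (S : Set X) : IsClosed {A : SubC X | S ⊆ (A.1 : Set X)} := by
  have : {A : SubC X | S ⊆ (A.1 : Set X)} = ⋂ x ∈ S, {A : SubC X | x ∈ (A.1 : Set X)} := by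
    ext A
    simp [subset_def]
  rw [this]
  exact isClosed_biInter fun x _ => isClosed_mem x

variable [T2Space X]

theorem isClosedEmbedding_val :
    IsClosedEmbedding (Subtype.val : SubC X → NonemptyCompacts X) :=
  isClosed_isConnected.isClosedEmbedding_subtypeVal

instance [CompactSpace X] : CompactSpace (SubC X) := isClosedEmbedding_val.compactSpace

/-- The subcontinua between `A` and `K`. -/
def interval (A K : SubC X) : Set (SubC X) :=
  {D | (A.1 : Set X) ⊆ D.1 ∧ (D.1 : Set X) ⊆ K.1}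

theorem isClosed_interval (A K : SubC X) : IsClosed (interval A K) :=
  (isClosed_superset _).inter (isClosed_subset K.1.isCompact.isClosed)

theorem isCompact_subsets (K : SubC X) : IsCompact {D : SubC X | (D.1 : Set X) ⊆ K.1} :=
  isClosedEmbedding_val.isCompact_preimage
    (NonemptyCompacts.isCompact_subsets_of_isCompact K.1.isCompact)

theorem isCompact_interval (A K : SubC X) : IsCompact (interval A K) :=
  (isCompact_subsets K).of_isClosed_subset (isClosed_interval A K) fun _ h => h.2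

theorem interval_aux (A K : SubC X) {t t' : Set (SubC X)} (ht : IsClosed t) (ht' : IsClosed t')
    (hcov : interval A K ⊆ t ∪ t') (hK : K ∈ t') (hne : (interval A K ∩ t).Nonempty) :
    (interval A K ∩ (t ∩ t')).Nonempty := by
  obtain ⟨D₀, hD₀⟩ := hne
  have hPc : IsCompact (interval A K ∩ t) := (isCompact_interval A K).inter_right ht
  have hPcl : IsClosed (interval A K ∩ t) := (isClosed_interval A K).inter ht
  obtain ⟨D, -, hD⟩ := zorn_le_nonempty₀ (interval A K ∩ t) (by
    intro c hc hchain y hy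
    have : Nonempty c := ⟨⟨y, hy⟩⟩
    obtain ⟨E, hE⟩ := IsCompact.nonempty_iInter_of_directed_nonempty_isCompact_isClosed
      (fun z : c => (interval A K ∩ t) ∩ {E : SubC X | (z.1.1 : Set X) ⊆ E.1})
      (by
        intro z w
        rcases hchain.total z.2 w.2 with h | h
        · exact ⟨w, fun E hE => ⟨hE.1, subset_trans (show (z.1.1 : Set X) ⊆ w.1.1 from h) hE.2⟩,
            fun E hE => hE⟩
        · exact ⟨z, fun E hE => hE,
            fun E hE => ⟨hE.1, subset_trans (show (w.1.1 : Set X) ⊆ z.1.1 from h) hE.2⟩⟩)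
      (fun z => ⟨z.1, hc z.2, Subset.refl (z.1.1 : Set X)⟩)
      (fun z => hPc.inter_right (isClosed_superset _))
      (fun z => hPcl.inter (isClosed_superset _))
    rw [mem_iInter] at hE
    exact ⟨E, (hE ⟨y, hy⟩).1, fun z hz => (hE ⟨z, hz⟩).2⟩) D₀ hD₀
  refine ⟨D, hD.prop.1, hD.prop.2, ?_⟩
  by_cases hDK : (D.1 : Set X) = K.1
  · rw [ext' hDK]; exact hK
  rw [← ht'.closure_eq, mem_closure_iff]
  intro 𝒰 h𝒰 hD𝒰
  obtain ⟨𝒲, h𝒲, h𝒰𝒲⟩ := isOpen_induced_iff.1 h𝒰
  have hD𝒲 : D.1 ∈ 𝒲 := by rw [← h𝒰𝒲] at hD𝒰; exact hD𝒰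
  obtain ⟨_, ⟨u, ⟨-, -, huo⟩, rfl⟩, hDu, hu𝒲⟩ :=
    NonemptyCompacts.isTopologicalBasis.exists_subset_of_mem_open hD𝒲 h𝒲
  obtain ⟨E, hEc, hEconn, hDE, hDne, hEK, hEu⟩ := exists_larger_continuum D.2 D.1.isCompact
    K.2 K.1.isCompact hD.prop.1.2 hDK (isOpen_sUnion huo) hDu.1
  let E' : SubC X := mk' E hEc hEconn
  have hE'I : E' ∈ interval A K := ⟨hD.prop.1.1.trans hDE, hEK⟩
  refine ⟨E', ?_, ?_⟩
  · rw [← h𝒰𝒲]
    refine hu𝒲 ⟨hEu, fun U hU => ?_⟩
    exact (hDu.2 U hU).mono (inter_subset_inter_left _ hDE)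
  · refine (hcov hE'I).resolve_left fun hEt => hDne ?_
    exact Subset.antisymm hDE (hD.le_of_ge ⟨hE'I, hEt⟩ hDE)

/-- Order intervals of `C(X)` are connected. -/
theorem isPreconnected_interval (A K : SubC X) : IsPreconnected (interval A K) := by
  rw [isPreconnected_closed_iff]
  intro t t' ht ht' hcov hne hne'
  obtain ⟨D, hD⟩ := hne
  have hK : K ∈ interval A K := ⟨hD.1.1.trans hD.1.2, subset_rfl⟩
  rcases hcov hK with h | h
  · rw [inter_comm t t']
    exact interval_aux A K ht' ht (by rwa [union_comm]) h hne'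
  · exact interval_aux A K ht ht' hcov h ⟨D, hD⟩

end SubC

end Pool.Agent.H67
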