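import Mathlib
import Pool.Agent.H67.HSDefs

/-!
# The harmonic fan

A plane continuum that is not aposyndetic at an end point with respect to its vertex.
-/

open Set Filter Topology

namespace Pool.Agent.H67

/-- The set `{0} ∪ {1/(n+1)}`. -/
def slopes : Set ℝ := insert 0 (range fun n : ℕ => 1 / ((n : ℝ) + 1))

/-- The harmonic fan: the segments from the origin to the points `(1, s)`, `s ∈ slopes`. -/
def fan : Set (ℝ × ℝ) := (fun q : ℝ × ℝ => (q.1, q.1 * q.2)) '' (Icc 0 1 ×ˢ slopes)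

theorem isCompact_slopes : IsCompact slopes :=
  (tendsto_one_div_add_atTop_nhds_zero_nat (𝕜 := ℝ)).isCompact_insert_range

theorem isCompact_fan : IsCompact fan :=
  (isCompact_Icc.prod isCompact_slopes).image (by fun_prop)

theorem mem_fan {t s : ℝ} (ht : t ∈ Icc (0 : ℝ) 1) (hs : s ∈ slopes) : (t, t * s) ∈ fan :=
  ⟨(t, s), ⟨ht, hs⟩, rfl⟩

theorem zero_mem_slopes : (0 : ℝ) ∈ slopes := mem_insert _ _

theorem inv_mem_slopes (n : ℕ) : 1 / ((n : ℝ) + 1) ∈ slopes := mem_insert_of_mem _ ⟨n, rfl⟩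

theorem vertex_mem : ((0, 0) : ℝ × ℝ) ∈ fan := by
  simpa using mem_fan (t := 0) (s := 0) (by simp) zero_mem_slopes

theorem end_mem : ((1, 0) : ℝ × ℝ) ∈ fan := by
  simpa using mem_fan (t := 1) (s := 0) (by simp) zero_mem_slopes

theorem tip_mem (n : ℕ) : ((1, 1 / ((n : ℝ) + 1)) : ℝ × ℝ) ∈ fan := by
  simpa using mem_fan (t := 1) (by simp) (inv_mem_slopes n)

theorem isConnected_fan : IsConnected fan := by
  refine ⟨⟨_, vertex_mem⟩, isPreconnected_of_forall (0, 0) ?_⟩
  rintro _ ⟨⟨t, s⟩, ⟨ht, hs⟩, rfl⟩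
  refine ⟨(fun r : ℝ => (r, r * s)) '' Icc 0 1, ?_, ⟨0, by simp, by simp⟩, ⟨t, ht, rfl⟩, ?_⟩
  · rintro _ ⟨r, hr, rfl⟩
    exact mem_fan hr hs
  · exact isPreconnected_Icc.image _ (by fun_prop)

instance : CompactSpace fan := isCompact_iff_compactSpace.1 isCompact_fan

instance : ConnectedSpace fan := isConnected_iff_connectedSpace.1 isConnected_fan

/-- The vertex. -/
def vertex : fan := ⟨(0, 0), vertex_mem⟩

/-- The end point of the limit leg. -/
def endPt : fan := ⟨(1, 0), end_mem⟩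

theorem endPt_ne_vertex : endPt ≠ vertex := by
  intro h
  have : ((1, 0) : ℝ × ℝ) = (0, 0) := congrArg Subtype.val h
  simp at this

instance : Nontrivial fan := ⟨_, _, endPt_ne_vertex⟩

theorem not_mem_slopes (n : ℕ) : 1 / ((n : ℝ) + 3 / 2) ∉ slopes := by
  rintro (h | ⟨m, h⟩)
  · have : (0 : ℝ) < 1 / ((n : ℝ) + 3 / 2) := by positivity
    rw [h] at this
    exact lt_irrefl _ this
  · have h' : 1 / ((m : ℝ) + 1) = 1 / ((n : ℝ) + 3 / 2) := h
    have h1 : (0 : ℝ) < (m : ℝ) + 1 := by positivity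
    have h2 : (0 : ℝ) < (n : ℝ) + 3 / 2 := by positivity
    rw [div_eq_div_iff h1.ne' h2.ne'] at h'
    have h3 : (2 * n + 3 : ℝ) = 2 * m + 2 := by linarith
    have h4 : 2 * n + 3 = 2 * m + 2 := by exact_mod_cast h3
    omega

/-- The harmonic fan is not aposyndetic at the end point of its limit leg with respect to its
vertex. -/
theorem not_aposyndeticAt_fan : ¬ AposyndeticAt endPt vertex := by
  rintro ⟨K, -, hK, hKi, hKv⟩
  have hne : ∀ z ∈ K, (z.1.1 : ℝ) ≠ 0 := by
    rintro ⟨_, ⟨⟨t, s⟩, ⟨ht, hs⟩, rfl⟩⟩ hz h0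
    apply hKv
    have ht0 : t = 0 := h0
    convert hz using 1
    apply Subtype.ext
    simp [vertex, ht0]
  let g : fan → ℝ := fun z => z.1.2 / z.1.1
  have hg : ContinuousOn g K := by
    refine ContinuousOn.div ?_ ?_ hne
    · exact (continuous_snd.comp continuous_subtype_val).continuousOn
    · exact (continuous_fst.comp continuous_subtype_val).continuousOn
  have hgS : ∀ z ∈ K, g z ∈ slopes := by
    intro z hz
    have h0 := hne z hz
    obtain ⟨⟨t, s⟩, ⟨ht, hs⟩, h⟩ := z.2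
    have h1 : z.1.1 = t := by rw [← h]
    have h2 : z.1.2 = t * s := by rw [← h]
    rw [h1] at h0
    show z.1.2 / z.1.1 ∈ slopes
    rw [h1, h2, mul_div_cancel_left₀ s h0]
    exact hs
  have hconn : (g '' K).OrdConnected := (hK.2.image g hg).ordConnected
  have ha : (0 : ℝ) ∈ g '' K := ⟨endPt, interior_subset hKi, by simp [g, endPt]⟩
  let tip : ℕ → fan := fun n => ⟨(1, 1 / ((n : ℝ) + 1)), tip_mem n⟩
  have hlim : Tendsto tip atTop (𝓝 endPt) := by
    rw [tendsto_subtype_rng]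
    exact tendsto_const_nhds.prodMk_nhds (tendsto_one_div_add_atTop_nhds_zero_nat (𝕜 := ℝ))
  obtain ⟨n, hn⟩ := (hlim.eventually (isOpen_interior.mem_nhds hKi)).exists
  have hb : 1 / ((n : ℝ) + 1) ∈ g '' K := ⟨tip n, interior_subset hn, by simp [g, tip]⟩
  have hc : 1 / ((n : ℝ) + 3 / 2) ∈ g '' K := by
    refine hconn.out ha hb ⟨by positivity, ?_⟩
    apply one_div_le_one_div_of_le (by positivity)
    linarith
  obtain ⟨z, hz, hzc⟩ := hc
  have := hgS z hz
  rw [hzc] at this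
  exact not_mem_slopes n this

end Pool.Agent.H67
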