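import Pool.Agent.H73.GC.Good

/-!
# Growth calculus: invariance under isomorphisms
-/

set_option autoImplicit false
set_option linter.unusedSectionVars false

open Finset

namespace Pool.Agent.H67.GI

open Pool.Agent.H73.GC Pool.Agent.H4.Singer3

variable {V W : Type} [DecidableEq V] [Fintype V] [DecidableEq W] [Fintype W]

/-- chains for the two vertex sets -/
noncomputable def tr (e : V ≃ W) (P : Type) :
    (Finset W → P → F2) ≃ₗ[F2] (Finset V → P → F2) :=
  LinearEquiv.funCongrLeft F2 (P → F2) e.finsetCongr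

theorem tr_apply (e : V ≃ W) (P : Type) (f : Finset W → P → F2) (σ : Finset V) (p : P) :
    tr e P f σ p = f (σ.map e.toEmbedding) p := rfl

theorem bd_tr (e : V ≃ W) (P : Type) (f : Finset W → P → F2) : bd (tr e P f) = tr e P (bd f) := by
  funext σ p
  have h1 : ∀ {X : Type} [DecidableEq X] [Fintype X] (g : Finset X → P → F2) (τ : Finset X),
      bd g τ p = ∑ v ∈ τᶜ, g (insert v τ) p := fun g τ => rfl
  have h2 : (σ.map e.toEmbedding)ᶜ = σᶜ.map e.toEmbedding := by
    ext w
    rw [mem_compl, mem_map_equiv, mem_map_equiv, mem_compl]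
  rw [tr_apply, h1, h1, h2, sum_map]
  refine sum_congr rfl fun v _ => ?_
  rw [tr_apply, map_insert]

theorem dens_iso {G : SimpleGraph V} {H : SimpleGraph W} (φ : G ≃g H) {i : ℕ} (h : Dens H univ i) :
    Dens G univ i := by
  intro m
  obtain ⟨P, _, _, D, hP, hb⟩ := h m
  let e : V ≃ W := φ.toEquiv
  have hadj : ∀ u v, H.Adj (e u) (e v) ↔ G.Adj u v := fun u v => φ.map_adj_iff
  let D' : Gen G P :=
    { g := fun v => D.g (e v)
      sq := fun v => D.sq (e v)
      comm := fun u v huv => D.comm (e u) (e v) ((hadj u v).2 huv)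
      bit := fun p v => D.bit p (e v)
      bit_mul := fun p v => by
        funext w
        rw [D.bit_mul]
        by_cases hw : w = v
        · rw [hw, Function.update_self, Function.update_self]
        · rw [Function.update_of_ne hw, Function.update_of_ne fun h => hw (e.injective h)] }
  refine ⟨P, inferInstance, inferInstance, D', hP, ?_⟩
  have hcl : ∀ σ : Finset V, KU H univ (σ.map e.toEmbedding) ↔ KU G univ σ := by
    intro σ
    constructor
    · rintro ⟨-, h⟩
      refine ⟨subset_univ _, fun a ha b hb hab => (hadj a b).1 (h ?_ ?_ fun h => hab (e.injective h))⟩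
      · exact mem_coe.2 (mem_map_of_mem e.toEmbedding (mem_coe.1 ha))
      · exact mem_coe.2 (mem_map_of_mem e.toEmbedding (mem_coe.1 hb))
    · rintro ⟨-, h⟩
      refine ⟨subset_univ _, fun a ha b hb hab => ?_⟩
      obtain ⟨a, ha', rfl⟩ := mem_map.1 (mem_coe.1 ha)
      obtain ⟨b, hb', rfl⟩ := mem_map.1 (mem_coe.1 hb)
      exact (hadj a b).2 (h (mem_coe.2 ha') (mem_coe.2 hb') fun h => hab (congrArg _ h))
  have hCK : ∀ j, (CK D.act (KU H univ) j).map (tr e P).toLinearMap = CK D'.act (KU G univ) j := by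
    intro j
    ext f
    rw [mem_CK]
    constructor
    · rintro ⟨f, hf, rfl⟩
      obtain ⟨h1, h2⟩ := mem_CK.1 hf
      refine ⟨fun σ ω hne => ?_, fun σ v hv ω => h2 _ (e v) (mem_map_of_mem e.toEmbedding hv) ω⟩
      obtain ⟨h3, h4⟩ := h1 (σ.map e.toEmbedding) ω hne
      rw [card_map] at h4
      exact ⟨(hcl σ).1 h3, h4⟩
    · rintro ⟨h1, h2⟩
      refine ⟨(tr e P).symm f, mem_CK.2 ⟨fun σ ω hne => ?_, fun σ w hw ω => ?_⟩,
        (tr e P).apply_symm_apply f⟩
      · have h5 : (σ.map e.symm.toEmbedding).map e.toEmbedding = σ := by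
          ext w
          rw [mem_map_equiv, mem_map_equiv, Equiv.symm_symm, Equiv.apply_symm_apply]
        have h6 : f (σ.map e.symm.toEmbedding) ω ≠ 0 := hne
        obtain ⟨h3, h4⟩ := h1 _ _ h6
        rw [card_map] at h4
        have h7 := (hcl _).2 h3
        rw [h5] at h7
        exact ⟨h7, h4⟩
      · have h6 := h2 (σ.map e.symm.toEmbedding) (e.symm w)
          (mem_map_of_mem e.symm.toEmbedding hw) ω
        have h7 : D'.act.s (e.symm w) ω = D.act.s w ω := by
          show ω * D.g (e (e.symm w)) = ω * D.g w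
          rw [Equiv.apply_symm_apply]
        rw [h7] at h6
        exact h6
  have hZ : (ZK D.act (KU H univ) i).map (tr e P).toLinearMap = ZK D'.act (KU G univ) i := by
    ext f
    rw [mem_ZK, ← hCK]
    constructor
    · rintro ⟨f, hf, rfl⟩
      refine ⟨⟨f, hf.1, rfl⟩, ?_⟩
      have h3 : bd f = 0 := hf.2
      have h4 := bd_tr e P f
      rw [h3, map_zero] at h4
      exact h4
    · rintro ⟨⟨f, hf, rfl⟩, h3⟩
      refine ⟨f, ⟨hf, ?_⟩, rfl⟩
      have h4 := (bd_tr e P f).symm.trans h3
      exact (tr e P).injective (h4.trans (map_zero _).symm)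
  have hB : (BK D.act (KU H univ) i).map (tr e P).toLinearMap = BK D'.act (KU G univ) i := by
    ext f
    rw [mem_BK, ← hCK]
    constructor
    · rintro ⟨_, ⟨y, hy, rfl⟩, rfl⟩
      exact ⟨_, ⟨y, hy, rfl⟩, bd_tr e P y⟩
    · rintro ⟨_, ⟨y, hy, rfl⟩, rfl⟩
      exact ⟨_, ⟨y, hy, rfl⟩, (bd_tr e P y).symm⟩
  have h5 : bet D'.act (KU G univ) i = bet D.act (KU H univ) i := by
    unfold bet hdim
    rw [← hZ, ← hB, ← (Submodule.equivMapOfInjective _ (tr e P).injective _).finrank_eq,
      ← (Submodule.equivMapOfInjective _ (tr e P).injective _).finrank_eq]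
  rw [h5]
  exact hb

/-- The class does not depend on the names of the vertices, and the ambient complex may have more vertices. -/
theorem good_l2 {G : SimpleGraph V} {H : SimpleGraph W} {U : Finset W} {t : ℕ} (h : Good H U t)
    (φ : G ≃g H.comap (Subtype.val : {v // v ∈ U} → W)) {i : ℕ} (hi : t ≤ i) :
    Pool.Agent.H4.Singer.L2HomologyZero G i :=
  l2_of_dens _ i (dens_iso φ (dens_comap (dens_of_gz (h.gz i hi))))

end Pool.Agent.H67.GI
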