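import Mathlib

/-!
# Tools on `G_δ` sets and metrics
-/

open Set Filter Topology TopologicalSpace

namespace Pool.Agent.H67

/-- A space embedded as a `G_δ` subset of a complete metric space is completely metrizable. -/
theorem isCompletelyMetrizableSpace_of_isGδ {X Z : Type*} [TopologicalSpace X] [MetricSpace Z]
    [CompleteSpace Z] {j : X → Z} (hj : IsEmbedding j) (h : IsGδ (range j)) :
    IsCompletelyMetrizableSpace X := by
  obtain ⟨W, hWo, hW⟩ := isGδ_iff_eq_iInter_nat.1 h
  have hWc : ∀ n, IsCompletelyMetrizableSpace (W n) := by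
    intro n
    let s : Opens Z := ⟨W n, hWo n⟩
    exact inferInstanceAs (IsCompletelyMetrizableSpace s.CompleteCopy)
  have hmem : ∀ x n, j x ∈ W n := by
    intro x n
    have : j x ∈ ⋂ n, W n := by rw [← hW]; exact ⟨x, rfl⟩
    exact mem_iInter.1 this n
  let F : X → (∀ n, W n) := fun x n => ⟨j x, hmem x n⟩
  have hFc : Continuous F := by
    refine continuous_pi fun n => ?_
    exact hj.continuous.subtype_mk _
  have hF : IsEmbedding F := by
    refine IsEmbedding.of_comp (g := fun w : (∀ n, W n) => (w 0 : Z)) hFc ?_ ?_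
    · exact continuous_subtype_val.comp (continuous_apply 0)
    · exact hj
  have hFcl : IsClosedEmbedding F := by
    refine ⟨hF, ?_⟩
    have : range F = ⋂ n, {w : (∀ n, W n) | (w n : Z) = w 0} := by
      ext w
      simp only [mem_range, mem_iInter, mem_ofPred_eq]
      constructor
      · rintro ⟨x, rfl⟩ n; rfl
      · intro hw
        have hw0 : (w 0 : Z) ∈ ⋂ n, W n := by
          refine mem_iInter.2 fun n => ?_
          rw [← hw n]; exact (w n).2
        rw [← hW] at hw0
        obtain ⟨x, hx⟩ := hw0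
        refine ⟨x, ?_⟩
        funext n
        apply Subtype.ext
        show j x = w n
        rw [hx, hw n]
    rw [this]
    refine isClosed_iInter fun n => isClosed_eq ?_ ?_
    · exact continuous_subtype_val.comp (continuous_apply n)
    · exact continuous_subtype_val.comp (continuous_apply 0)
  exact hFcl.IsCompletelyMetrizableSpace

/-- A set in a metric space that is locally `G_δ` (at its own points) is `G_δ`. -/
theorem isGδ_of_locally {Z : Type*} [MetricSpace Z] {R : Set Z} {ι : Type*} (V : ι → Set Z)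
    (hV : ∀ i, IsOpen (V i)) (hR : R ⊆ ⋃ i, V i) (hG : ∀ i, IsGδ (R ∩ V i)) : IsGδ R := by
  set W : Set Z := ⋃ i, V i with hWdef
  have hWo : IsOpen W := isOpen_iUnion hV
  obtain ⟨v, hvo, hvc, hvf, hvs⟩ := precise_refinement (X := W)
    (fun i => (Subtype.val ⁻¹' V i : Set W)) (fun i => (hV i).preimage continuous_subtype_val)
    (by
      ext z
      simp only [mem_iUnion, mem_preimage, mem_univ, iff_true]
      exact mem_iUnion.1 z.2)
  obtain ⟨u, huc, huo, hus⟩ := exists_iUnion_eq_closure_subset hvo hvf.point_finite hvc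
  have huf : LocallyFinite fun i => closure (u i) := hvf.subset hus
  choose O hOo hO using fun i => isGδ_iff_eq_iInter_nat.1 (hG i)
  let F : ℕ → Set W := fun n => ⋃ i, closure (u i) ∩ (Subtype.val ⁻¹' O i n)ᶜ
  have hF : ∀ n, IsClosed (F n) := by
    intro n
    refine LocallyFinite.isClosed_iUnion (huf.subset fun i => inter_subset_left) fun i => ?_
    exact isClosed_closure.inter ((hOo i n).preimage continuous_subtype_val).isClosed_compl
  have hEq : R = ⋂ n, (Subtype.val '' (F n)ᶜ : Set Z) := by
    ext z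
    rw [mem_iInter]
    constructor
    · intro hz n
      refine ⟨⟨z, hR hz⟩, ?_, rfl⟩
      rw [mem_compl_iff, mem_iUnion]
      rintro ⟨i, hi1, hi2⟩
      apply hi2
      have hzV : z ∈ V i := hvs i (hus i hi1)
      have : z ∈ ⋂ n, O i n := by rw [← hO i]; exact ⟨hz, hzV⟩
      exact mem_iInter.1 this n
    · intro hz
      obtain ⟨w, _, hw⟩ := hz 0
      have hz' : ∀ n, w ∉ F n := by
        intro n
        obtain ⟨w', hw', hww'⟩ := hz n
        have : w' = w := Subtype.ext (hww'.trans hw.symm)
        rw [this] at hw'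
        exact hw'
      have hwu : w ∈ ⋃ i, u i := by rw [huc]; trivial
      obtain ⟨i, hi⟩ := mem_iUnion.1 hwu
      have : (w : Z) ∈ ⋂ n, O i n := by
        refine mem_iInter.2 fun n => ?_
        by_contra hcon
        exact hz' n (mem_iUnion.2 ⟨i, subset_closure hi, hcon⟩)
      rw [← hO i] at this
      rw [← hw]
      exact this.1
  rw [hEq]
  exact IsGδ.iInter_of_isOpen fun n => hWo.isOpenMap_subtype_val _ (hF n).isOpen_compl

/-- The metric given by a bounded pointwise equicontinuous family of functions separating points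
from closed sets. -/
theorem exists_metric_of_family {X : Type*} [t : TopologicalSpace X] [T0Space X] {I : Type*}
    (F : I → X → ℝ) (C : ℝ) (hC : ∀ i x, |F i x| ≤ C)
    (h1 : ∀ x, ∀ ε : ℝ, 0 < ε → ∀ᶠ x' in 𝓝 x, ∀ i, |F i x - F i x'| ≤ ε)
    (h2 : ∀ x, ∀ U ∈ 𝓝 x, ∃ δ : ℝ, 0 < δ ∧ ∀ x', (∀ i, |F i x - F i x'| ≤ δ) → x' ∈ U) :
    ∃ m : MetricSpace X, m.toUniformSpace.toTopologicalSpace = t ∧
      ∀ x y (r : ℝ), 0 ≤ r → (@dist X m.toDist x y ≤ r ↔ ∀ i, |F i x - F i y| ≤ r) := by
  let D : X → X → ℝ := fun x y => ⨆ i, |F i x - F i y|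
  have hbdd : ∀ x y, BddAbove (range fun i => |F i x - F i y|) := by
    intro x y
    refine ⟨C + C, ?_⟩
    rintro _ ⟨i, rfl⟩
    exact (abs_sub _ _).trans (add_le_add (hC i x) (hC i y))
  have hle : ∀ x y (r : ℝ), 0 ≤ r → (D x y ≤ r ↔ ∀ i, |F i x - F i y| ≤ r) := by
    intro x y r hr
    constructor
    · intro h i
      exact (le_ciSup (hbdd x y) i).trans h
    · intro h
      exact Real.iSup_le h hr
  have hnn : ∀ x y, 0 ≤ D x y := fun x y => Real.iSup_nonneg fun i => abs_nonneg _
  let pm : PseudoMetricSpace X := .ofDistTopology D (fun x => by simp [D])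
    (fun x y => by simp only [D, abs_sub_comm])
    (fun x y z => by
      refine (hle x z _ (add_nonneg (hnn _ _) (hnn _ _))).2 fun i => ?_
      exact (abs_sub_le (F i x) (F i y) (F i z)).trans
        (add_le_add ((hle x y _ (hnn x y)).1 le_rfl i) ((hle y z _ (hnn y z)).1 le_rfl i)))
    (fun s => by
      rw [isOpen_iff_mem_nhds]
      constructor
      · intro hs x hx
        obtain ⟨δ, hδ, h⟩ := h2 x s (hs x hx)
        exact ⟨δ, hδ, fun y hy => h y ((hle x y δ hδ.le).1 hy.le)⟩
      · intro hs x hx
        obtain ⟨ε, hε, h⟩ := hs x hx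
        filter_upwards [h1 x (ε / 2) (by positivity)] with y hy
        refine h y ?_
        have := (hle x y (ε / 2) (by positivity)).2 hy
        linarith)
  refine ⟨@MetricSpace.ofT0PseudoMetricSpace X pm _, rfl, ?_⟩
  intro x y r hr
  exact hle x y r hr

end Pool.Agent.H67
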