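import Mathlib
import Pool.Agent.H67.Continua

/-!
# Aposyndesis of `HS(p,X)`
-/

open Set Filter Topology TopologicalSpace

namespace Pool.Agent.H67

section

variable {X : Type*} [TopologicalSpace X] [T2Space X] [CompactSpace X] [ConnectedSpace X]

/-- The whole space as a member of `C(X)`. -/
def SubC.whole (X : Type*) [TopologicalSpace X] [CompactSpace X] [ConnectedSpace X] : SubC X :=
  SubC.mk' univ isCompact_univ isConnected_univ

/-- The singleton map. -/
def SubC.single {X : Type*} [TopologicalSpace X] (x : X) : SubC X :=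
  ⟨{x}, by simpa using isConnected_singleton⟩

omit [T2Space X] [CompactSpace X] [ConnectedSpace X] in
@[simp] theorem SubC.coe_single (x : X) : ((SubC.single x).1 : Set X) = {x} := rfl

omit [T2Space X] [CompactSpace X] [ConnectedSpace X] in
theorem SubC.continuous_single : Continuous (SubC.single : X → SubC X) :=
  NonemptyCompacts.continuous_singleton.subtype_mk _

omit [CompactSpace X] [ConnectedSpace X] in
/-- The subcontinua of `K` form a connected subset of `C(X)`. -/
theorem SubC.isPreconnected_subsets (K : SubC X) :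
    IsPreconnected {D : SubC X | (D.1 : Set X) ⊆ K.1} := by
  refine isPreconnected_of_forall K fun D hD => ⟨SubC.interval D K, ?_, ?_, ?_, ?_⟩
  · intro E hE; exact hE.2
  · exact ⟨hD, Subset.refl (K.1 : Set X)⟩
  · exact ⟨Subset.refl (D.1 : Set X), hD⟩
  · exact SubC.isPreconnected_interval D K

/-- An upward closed set of subcontinua is connected. -/
theorem SubC.isPreconnected_of_upper {N : Set (SubC X)}
    (h : ∀ A ∈ N, ∀ B : SubC X, (A.1 : Set X) ⊆ B.1 → B ∈ N) : IsPreconnected N := by
  refine isPreconnected_of_forall (SubC.whole X) fun D hD =>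
    ⟨SubC.interval D (SubC.whole X), ?_, ?_, ?_, ?_⟩
  · intro E hE; exact h D hD E hE.1
  · exact ⟨subset_univ _, Subset.refl (univ : Set X)⟩
  · exact ⟨Subset.refl (D.1 : Set X), subset_univ _⟩
  · exact SubC.isPreconnected_interval D _

/-- A downward closed set of subcontinua containing all singletons is connected. -/
theorem SubC.isPreconnected_of_lower {N : Set (SubC X)}
    (h : ∀ A ∈ N, ∀ B : SubC X, (B.1 : Set X) ⊆ A.1 → B ∈ N)
    (hs : ∀ x : X, SubC.single x ∈ N) : IsPreconnected N := by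
  obtain ⟨x₀⟩ : Nonempty X := inferInstance
  have hr : IsPreconnected (range (SubC.single : X → SubC X)) :=
    isPreconnected_range SubC.continuous_single
  refine isPreconnected_of_forall (SubC.single x₀) fun D hD => ?_
  obtain ⟨a, ha⟩ := D.1.nonempty
  have ha' : ((SubC.single a).1 : Set X) ⊆ D.1 := by
    rw [SubC.coe_single]; exact singleton_subset_iff.2 ha
  refine ⟨range SubC.single ∪ SubC.interval (SubC.single a) D, ?_, ?_, ?_, ?_⟩
  · rintro E (⟨y, rfl⟩ | hE)
    · exact hs y
    · exact h D hD E hE.2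
  · exact Or.inl ⟨x₀, rfl⟩
  · exact Or.inr ⟨ha', Subset.refl (D.1 : Set X)⟩
  · exact IsPreconnected.union (SubC.single a) ⟨a, rfl⟩
      ⟨Subset.refl ((SubC.single a).1 : Set X), ha'⟩ hr (SubC.isPreconnected_interval _ _)

instance : ConnectedSpace (SubC X) where
  isPreconnected_univ := SubC.isPreconnected_of_upper fun _ _ _ _ => trivial
  toNonempty := ⟨SubC.whole X⟩

end

section Quot

variable {X : Type*} [TopologicalSpace X]

/-- The quotient map `C(X) → HS(p,X)`. -/
def HS.mk (p : X) (A : SubC X) : HS p := Quotient.mk (collapse p) A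

theorem HS.continuous_mk (p : X) : Continuous (HS.mk p) := continuous_quotient_mk'

theorem HS.mk_eq {p : X} {A B : SubC X} :
    HS.mk p A = HS.mk p B ↔ A = B ∨ (p ∈ (A.1 : Set X) ∧ p ∈ (B.1 : Set X)) :=
  Quotient.eq (r := collapse p)

theorem HS.isQuotientMap_mk (p : X) : IsQuotientMap (HS.mk p) := isQuotientMap_quotient_mk'

theorem HS.surj (p : X) (a : HS p) : ∃ A, HS.mk p A = a := Quotient.exists_rep a

/-- The image of a saturated open set is open. -/
theorem HS.isOpen_image {p : X} {O : Set (SubC X)} (hO : IsOpen O)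
    (hsat : ∀ C ∈ O, ∀ C', HS.mk p C = HS.mk p C' → C' ∈ O) : IsOpen (HS.mk p '' O) := by
  rw [← (HS.isQuotientMap_mk p).isOpen_preimage]
  convert! hO using 1
  ext C
  constructor
  · rintro ⟨C', hC', h⟩
    exact hsat C' hC' C h
  · intro h
    exact ⟨C, h, rfl⟩

theorem HS.aposyndeticAt_mk {p : X} {A B : SubC X} {N O : Set (SubC X)} (hN : IsCompact N)
    (hN' : IsPreconnected N) (hO : IsOpen O)
    (hsat : ∀ C ∈ O, ∀ C', HS.mk p C = HS.mk p C' → C' ∈ O) (hON : O ⊆ N) (hA : A ∈ O)
    (hB : ∀ C ∈ N, HS.mk p C ≠ HS.mk p B) : AposyndeticAt (HS.mk p A) (HS.mk p B) := by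
  refine ⟨HS.mk p '' N, hN.image (HS.continuous_mk p), ⟨⟨_, A, hON hA, rfl⟩,
    hN'.image _ (HS.continuous_mk p).continuousOn⟩, ?_, ?_⟩
  · exact mem_interior.2 ⟨HS.mk p '' O, image_mono hON, HS.isOpen_image hO hsat, A, hA, rfl⟩
  · rintro ⟨C, hC, h⟩
    exact hB C hC h

variable [T2Space X] [CompactSpace X]

/-- `HS(p,X)` is a Hausdorff space. -/
instance (p : X) : T2Space (HS p) := by
  have hcl : IsClosed {C : SubC X | p ∈ (C.1 : Set X)} := SubC.isClosed_mem p
  have key : ∀ A B : SubC X, p ∈ (A.1 : Set X) → p ∉ (B.1 : Set X) →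
      ∃ u v : Set (HS p), IsOpen u ∧ IsOpen v ∧ HS.mk p A ∈ u ∧ HS.mk p B ∈ v ∧ Disjoint u v := by
    intro A B hA hB
    obtain ⟨U, V, hU, hV, hU', hV', hUV⟩ : SeparatedNhds {C : SubC X | p ∈ (C.1 : Set X)} {B} :=
      SeparatedNhds.of_isCompact_isCompact hcl.isCompact isCompact_singleton
        (disjoint_singleton_right.2 hB)
    have hVp : ∀ C ∈ V, p ∉ (C.1 : Set X) := fun C hC hp => hUV.le_bot ⟨hU' hp, hC⟩
    refine ⟨HS.mk p '' U, HS.mk p '' V, HS.isOpen_image hU ?_, HS.isOpen_image hV ?_,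
      ⟨A, hU' hA, rfl⟩, ⟨B, hV' rfl, rfl⟩, ?_⟩
    · intro C hC C' h
      rcases HS.mk_eq.1 h with rfl | h
      · exact hC
      · exact hU' h.2
    · intro C hC C' h
      rcases HS.mk_eq.1 h with rfl | h
      · exact hC
      · exact absurd h.1 (hVp C hC)
    · rw [disjoint_left]
      rintro _ ⟨C, hC, rfl⟩ ⟨C', hC', h⟩
      rcases HS.mk_eq.1 h with rfl | h
      · exact hUV.le_bot ⟨hC, hC'⟩
      · exact hVp C' hC' h.1
  refine ⟨fun a b hab => ?_⟩
  obtain ⟨A, rfl⟩ := HS.surj p a
  obtain ⟨B, rfl⟩ := HS.surj p b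
  by_cases hA : p ∈ (A.1 : Set X)
  · by_cases hB : p ∈ (B.1 : Set X)
    · exact absurd (HS.mk_eq.2 (Or.inr ⟨hA, hB⟩)) hab
    · exact key A B hA hB
  · by_cases hB : p ∈ (B.1 : Set X)
    · obtain ⟨u, v, hu, hv, hBu, hAv, huv⟩ := key B A hB hA
      exact ⟨v, u, hv, hu, hAv, hBu, huv.symm⟩
    · have hne : A ≠ B := fun h => hab (by rw [h])
      obtain ⟨U, V, hU, hV, hAU, hBV, hUV⟩ := t2_separation hne
      have hUo : IsOpen (U ∩ {C : SubC X | p ∈ (C.1 : Set X)}ᶜ) := hU.inter hcl.isOpen_compl
      have hVo : IsOpen (V ∩ {C : SubC X | p ∈ (C.1 : Set X)}ᶜ) := hV.inter hcl.isOpen_compl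
      refine ⟨_, _, HS.isOpen_image (p := p) hUo ?_, HS.isOpen_image (p := p) hVo ?_,
        ⟨A, ⟨hAU, hA⟩, rfl⟩, ⟨B, ⟨hBV, hB⟩, rfl⟩, ?_⟩
      · intro C hC C' h
        rcases HS.mk_eq.1 h with rfl | h
        · exact hC
        · exact absurd h.1 hC.2
      · intro C hC C' h
        rcases HS.mk_eq.1 h with rfl | h
        · exact hC
        · exact absurd h.1 hC.2
      · rw [disjoint_left]
        rintro _ ⟨C, hC, rfl⟩ ⟨C', hC', h⟩
        rcases HS.mk_eq.1 h with rfl | h
        · exact hUV.le_bot ⟨hC.1, hC'.1⟩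
        · exact hC'.2 h.1

variable [ConnectedSpace X]

/-- `HS(p,X)` is aposyndetic at every point with respect to every other point different from the
collapsed point. -/
theorem HS.aposyndeticAt_of_notMem (p : X) (A B : SubC X) (hB : p ∉ (B.1 : Set X)) (hAB : A ≠ B) :
    AposyndeticAt (HS.mk p A) (HS.mk p B) := by
  have hcl : IsClosed {C : SubC X | p ∈ (C.1 : Set X)} := SubC.isClosed_mem p
  have hBcl : IsClosed (B.1 : Set X) := B.1.isCompact.isClosed
  have hNB : ∀ N : Set (SubC X), B ∉ N → ∀ C ∈ N, HS.mk p C ≠ HS.mk p B := by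
    intro N hBN C hC h
    rcases HS.mk_eq.1 h with rfl | h
    · exact hBN hC
    · exact hB h.2
  -- the sets meeting a closed set `F` disjoint from `B`
  have hmeet : ∀ F : Set X, IsClosed F → Disjoint F (B.1 : Set X) →
      IsCompact {C : SubC X | ((C.1 : Set X) ∩ F).Nonempty} ∧
      IsPreconnected {C : SubC X | ((C.1 : Set X) ∩ F).Nonempty} ∧
      B ∉ {C : SubC X | ((C.1 : Set X) ∩ F).Nonempty} := by
    intro F hF hFB
    refine ⟨(SubC.isClosed_meets hF).isCompact, SubC.isPreconnected_of_upper ?_, ?_⟩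
    · intro C hC D hCD
      exact hC.mono (inter_subset_inter_left _ hCD)
    · rintro ⟨x, hx, hx'⟩
      exact hFB.le_bot ⟨hx', hx⟩
  have hsep : ∀ a : X, a ∉ (B.1 : Set X) → ∃ U : Set X, IsOpen U ∧ a ∈ U ∧
      Disjoint (closure U) (B.1 : Set X) := by
    intro a ha
    obtain ⟨U, V, hU, hV, hU', hV', hUV⟩ : SeparatedNhds {a} (B.1 : Set X) :=
      SeparatedNhds.of_isCompact_isCompact isCompact_singleton B.1.isCompact
        (disjoint_singleton_left.2 ha)
    exact ⟨U, hU, hU' rfl, (hUV.closure_left hV).mono_right hV'⟩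
  by_cases hA : p ∈ (A.1 : Set X)
  · obtain ⟨U, hU, hpU, hUB⟩ := hsep p hB
    obtain ⟨h1, h2, h3⟩ := hmeet _ isClosed_closure hUB
    refine HS.aposyndeticAt_mk h1 h2 (SubC.isOpen_meets hU) ?_ ?_ ⟨p, hA, hpU⟩ (hNB _ h3)
    · intro C hC C' h
      rcases HS.mk_eq.1 h with rfl | h
      · exact hC
      · exact ⟨p, h.2, hpU⟩
    · intro C hC
      exact hC.mono (inter_subset_inter_right _ subset_closure)
  · by_cases hsub : (A.1 : Set X) ⊆ B.1
    · -- `A` is a proper subset of `B`
      have hBA : ¬ (B.1 : Set X) ⊆ A.1 := fun h => hAB (SubC.ext' (Subset.antisymm hsub h))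
      obtain ⟨b, hbB, hbA⟩ := not_subset.1 hBA
      obtain ⟨U, V, hU, hV, hAU, hbV, hUV⟩ : SeparatedNhds (A.1 : Set X) {b} :=
        SeparatedNhds.of_isCompact_isCompact A.1.isCompact isCompact_singleton
          (disjoint_singleton_right.2 hbA)
      let N : Set (SubC X) := {C | (C.1 : Set X) ⊆ Vᶜ} ∪ {C | (C.1 : Set X) ⊆ Uᶜ}
      have hNc : IsCompact N := ((SubC.isClosed_subset hV.isClosed_compl).union
        (SubC.isClosed_subset hU.isClosed_compl)).isCompact
      have hNp : IsPreconnected N := by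
        refine SubC.isPreconnected_of_lower ?_ ?_
        · rintro C (hC | hC) D hD
          · exact Or.inl (hD.trans hC)
          · exact Or.inr (hD.trans hC)
        · intro x
          by_cases hx : x ∈ V
          · right
            show ((SubC.single x).1 : Set X) ⊆ Uᶜ
            rw [SubC.coe_single, singleton_subset_iff]
            exact fun hxU => hUV.le_bot ⟨hxU, hx⟩
          · left
            show ((SubC.single x).1 : Set X) ⊆ Vᶜ
            rw [SubC.coe_single, singleton_subset_iff]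
            exact hx
      have hBN : B ∉ N := by
        rintro (h | h)
        · exact h hbB (hbV rfl)
        · obtain ⟨a, ha⟩ := A.1.nonempty
          exact h (hsub ha) (hAU ha)
      refine HS.aposyndeticAt_mk hNc hNp ((SubC.isOpen_subset hU).inter hcl.isOpen_compl) ?_ ?_
        ⟨hAU, hA⟩ (hNB _ hBN)
      · intro C hC C' h
        rcases HS.mk_eq.1 h with rfl | h
        · exact hC
        · exact absurd h.1 hC.2
      · rintro C ⟨hC, -⟩
        left
        intro x hx hxV
        exact hUV.le_bot ⟨hC hx, hxV⟩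
    · obtain ⟨a, haA, haB⟩ := not_subset.1 hsub
      obtain ⟨U, hU, haU, hUB⟩ := hsep a haB
      obtain ⟨h1, h2, h3⟩ := hmeet _ isClosed_closure hUB
      refine HS.aposyndeticAt_mk h1 h2 ((SubC.isOpen_meets hU).inter hcl.isOpen_compl) ?_ ?_
        ⟨⟨a, haA, haU⟩, hA⟩ (hNB _ h3)
      · intro C hC C' h
        rcases HS.mk_eq.1 h with rfl | h
        · exact hC
        · exact absurd h.1 hC.2
      · intro C hC
        exact hC.1.mono (inter_subset_inter_right _ subset_closure)

/-- `HS(p,X)` is always semi-aposyndetic. -/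
theorem HS.semiAposyndetic (p : X) : SemiAposyndetic (HS p) := by
  intro a b hab
  obtain ⟨A, rfl⟩ := HS.surj p a
  obtain ⟨B, rfl⟩ := HS.surj p b
  have hne : A ≠ B := fun h => hab (by rw [h])
  by_cases hB : p ∈ (B.1 : Set X)
  · have hA : p ∉ (A.1 : Set X) := fun hA => hab (HS.mk_eq.2 (Or.inr ⟨hA, hB⟩))
    exact Or.inr (HS.aposyndeticAt_of_notMem p B A hA hne.symm)
  · exact Or.inl (HS.aposyndeticAt_of_notMem p A B hB hne)

/-- Aposyndesis of `X` at the points of a compact connected set `A` gives one continuum. -/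
theorem exists_continuum_nhds {p : X} (h : ∀ x : X, x ≠ p → AposyndeticAt x p) (A : SubC X)
    (hA : p ∉ (A.1 : Set X)) :
    ∃ K : SubC X, (A.1 : Set X) ⊆ interior (K.1 : Set X) ∧ p ∉ (K.1 : Set X) := by
  classical
  have h' : ∀ x ∈ (A.1 : Set X), ∃ M : Set X, IsCompact M ∧ IsConnected M ∧ x ∈ interior M ∧
      p ∉ M := fun x hx => h x (fun hxp => hA (hxp ▸ hx))
  choose! M hMc hMconn hMi hMp using h'
  obtain ⟨t, htA, hcov⟩ := A.1.isCompact.elim_nhds_subcover (fun x => interior (M x))
    (fun x hx => isOpen_interior.mem_nhds (hMi x hx))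
  let K : Set X := (A.1 : Set X) ∪ ⋃ x ∈ t, M x
  have hKc : IsCompact K := A.1.isCompact.union (t.isCompact_biUnion fun x hx => hMc x (htA x hx))
  obtain ⟨a, ha⟩ := A.1.nonempty
  have hKconn : IsConnected K := by
    refine ⟨⟨a, Or.inl ha⟩, isPreconnected_of_forall a ?_⟩
    rintro y (hy | hy)
    · exact ⟨A.1, subset_union_left, ha, hy, A.2.2⟩
    · obtain ⟨x, hx, hyx⟩ := mem_iUnion₂.1 hy
      refine ⟨(A.1 : Set X) ∪ M x, union_subset_union_right _ (subset_biUnion_of_mem
        (u := fun x => M x) hx), Or.inl ha, Or.inr hyx, ?_⟩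
      exact IsPreconnected.union x (htA x hx) (interior_subset (hMi x (htA x hx))) A.2.2
        (hMconn x (htA x hx)).2
  refine ⟨SubC.mk' K hKc hKconn, ?_, ?_⟩
  · intro y hy
    obtain ⟨x, hx, hyx⟩ := mem_iUnion₂.1 (hcov hy)
    have hsub : M x ⊆ K := (subset_biUnion_of_mem (u := fun x => M x) hx).trans
      subset_union_right
    exact interior_mono hsub hyx
  · rintro (hp | hp)
    · exact hA hp
    · obtain ⟨x, hx, hpx⟩ := mem_iUnion₂.1 hp
      exact hMp x (htA x hx) hpx

/-- `HS(p,X)` is aposyndetic at `{x}` with respect to the collapsed point only if `X` is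
aposyndetic at `x` with respect to `p`. -/
theorem HS.aposyndeticAt_of_mk_single (p x : X)
    (h : AposyndeticAt (HS.mk p (SubC.single x)) (HS.mk p (SubC.single p))) :
    AposyndeticAt x p := by
  obtain ⟨M, hMc, hMconn, hMi, hMp⟩ := h
  set N : Set (SubC X) := HS.mk p ⁻¹' M with hN
  have hNcl : IsClosed N := hMc.isClosed.preimage (HS.continuous_mk p)
  have hNconn : IsConnected N := by
    refine (HS.isQuotientMap_mk p).isCoinducing.isConnected_preimage_of_isClosed ?_ hMc.isClosed
      hMconn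
    intro c
    obtain ⟨C, rfl⟩ := HS.surj p c
    by_cases hC : p ∈ (C.1 : Set X)
    · have : HS.mk p ⁻¹' {HS.mk p C} = {D : SubC X | p ∈ (D.1 : Set X)} := by
        ext D
        rw [mem_preimage, mem_singleton_iff, HS.mk_eq]
        constructor
        · rintro (rfl | h)
          · exact hC
          · exact h.1
        · intro h
          exact Or.inr ⟨h, hC⟩
      rw [this]
      exact ⟨⟨C, hC⟩, SubC.isPreconnected_of_upper fun D hD E hDE => hDE hD⟩
    · have : HS.mk p ⁻¹' {HS.mk p C} = {C} := by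
        ext D
        rw [mem_preimage, mem_singleton_iff, HS.mk_eq, mem_singleton_iff]
        constructor
        · rintro (rfl | h)
          · rfl
          · exact absurd h.2 hC
        · intro h
          exact Or.inl h
      rw [this]
      exact isConnected_singleton
  have hpN : ∀ C ∈ N, p ∉ (C.1 : Set X) := by
    intro C hC hp
    apply hMp
    have : HS.mk p C = HS.mk p (SubC.single p) := HS.mk_eq.2 (Or.inr ⟨hp, rfl⟩)
    rw [← this]
    exact hC
  refine ⟨⋃ C ∈ N, (C.1 : Set X), ?_, ?_, ?_, ?_⟩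
  · have h1 : IsCompact (Subtype.val '' N : Set (NonemptyCompacts X)) :=
      hNcl.isCompact.image continuous_subtype_val
    have h2 := NonemptyCompacts.isCompact_biUnion_coe_of_isCompact h1
    rwa [biUnion_image] at h2
  · refine ⟨?_, ?_⟩
    · refine ⟨x, mem_iUnion₂.2 ⟨SubC.single x, ?_, rfl⟩⟩
      show HS.mk p (SubC.single x) ∈ M
      exact interior_subset hMi
    · obtain ⟨C, hC⟩ := hNconn.nonempty
      let _ := TopologicalSpace.vietoris X
      exact vietoris.isPreconnected_biUnion (f := fun C : SubC X => (C.1 : Set X)) hNconn.2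
        ((NonemptyCompacts.continuous_coe.comp continuous_subtype_val).continuousOn)
        ⟨C, hC, C.2.2⟩
  · have hO : IsOpen ((HS.mk p ∘ SubC.single) ⁻¹' interior M) :=
      isOpen_interior.preimage ((HS.continuous_mk p).comp SubC.continuous_single)
    refine mem_interior.2 ⟨_, ?_, hO, hMi⟩
    intro y hy
    have hy' : HS.mk p (SubC.single y) ∈ M := interior_subset hy
    exact mem_iUnion₂.2 ⟨SubC.single y, hy', rfl⟩
  · intro hp
    obtain ⟨C, hC, hpC⟩ := mem_iUnion₂.1 hp
    exact hpN C hC hpC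

/-- `HS(p,X)` is aposyndetic if and only if `X` is aposyndetic at all points different from `p`
with respect to `p`. -/
theorem HS.aposyndetic_iff (p : X) :
    Aposyndetic (HS p) ↔ ∀ x : X, x ≠ p → AposyndeticAt x p := by
  constructor
  · intro h x hx
    refine HS.aposyndeticAt_of_mk_single p x (h _ _ ?_)
    intro heq
    rcases HS.mk_eq.1 heq with h | h
    · have : x ∈ ((SubC.single p).1 : Set X) := by rw [← h]; exact rfl
      exact hx this
    · exact hx (h.1 : p ∈ ({x} : Set X)).symm
  · intro h a b hab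
    obtain ⟨A, rfl⟩ := HS.surj p a
    obtain ⟨B, rfl⟩ := HS.surj p b
    have hne : A ≠ B := fun h => hab (by rw [h])
    by_cases hB : p ∈ (B.1 : Set X)
    · have hA : p ∉ (A.1 : Set X) := fun hA => hab (HS.mk_eq.2 (Or.inr ⟨hA, hB⟩))
      obtain ⟨K, hK, hpK⟩ := exists_continuum_nhds h A hA
      refine HS.aposyndeticAt_mk (SubC.isCompact_subsets K) (SubC.isPreconnected_subsets K)
        (SubC.isOpen_subset isOpen_interior) ?_ ?_ hK ?_
      · intro C hC C' h
        rcases HS.mk_eq.1 h with rfl | h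
        · exact hC
        · exact absurd (interior_subset (hC h.1)) hpK
      · intro C hC
        exact hC.trans interior_subset
      · intro C hC h
        rcases HS.mk_eq.1 h with rfl | h
        · exact hpK (hC hB)
        · exact hpK (hC h.1)
    · exact HS.aposyndeticAt_of_notMem p A B hB hne

end Quot

end Pool.Agent.H67
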