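import Mathlib
import Pool.Agent.H24.LSphereModel

set_option autoImplicit false

/-!
# Geodesic discs of the Liouville sphere and the doubling index

Orbit invariance of the geodesic discs and of the eigenfunctions, boundedness of the
eigenfunctions, and the bound of the doubling index by a growth factor.
-/

namespace Pool.Agent.H24.LSphere

open Pool.Agent.H24.Torus Set

variable {L1 L2 : ℝ}

/-! ### The equivalence relation -/

lemma SameOrbit.refl (L1 L2 : ℝ) (p : ℝ × ℝ) : SameOrbit L1 L2 p p :=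
  ⟨0, 0, Or.inl ⟨by simp, by simp⟩⟩

lemma SameOrbit.symm {p q : ℝ × ℝ} (h : SameOrbit L1 L2 p q) : SameOrbit L1 L2 q p := by
  obtain ⟨j, k, ⟨h1, h2⟩ | ⟨h1, h2⟩⟩ := h
  · refine ⟨-j, -k, Or.inl ⟨?_, ?_⟩⟩
    · push_cast; rw [h1]; ring
    · push_cast; rw [h2]; ring
  · refine ⟨j, k, Or.inr ⟨?_, ?_⟩⟩
    · rw [h1]; ring
    · rw [h2]; ring

lemma SameOrbit.trans {p q r : ℝ × ℝ} (h : SameOrbit L1 L2 p q) (h' : SameOrbit L1 L2 q r) :
    SameOrbit L1 L2 p r := by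
  obtain ⟨j, k, ⟨h1, h2⟩ | ⟨h1, h2⟩⟩ := h <;>
    obtain ⟨j', k', ⟨h3, h4⟩ | ⟨h3, h4⟩⟩ := h'
  · refine ⟨j + j', k + k', Or.inl ⟨?_, ?_⟩⟩
    · push_cast; rw [h3, h1]; ring
    · push_cast; rw [h4, h2]; ring
  · refine ⟨j' - j, k' - k, Or.inr ⟨?_, ?_⟩⟩
    · push_cast; rw [h3, h1]; ring
    · push_cast; rw [h4, h2]; ring
  · refine ⟨j + j', k + k', Or.inr ⟨?_, ?_⟩⟩
    · push_cast; rw [h3, h1]; ring
    · push_cast; rw [h4, h2]; ring
  · refine ⟨j' - j, k' - k, Or.inl ⟨?_, ?_⟩⟩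
    · push_cast; rw [h3, h1]; ring
    · push_cast; rw [h4, h2]; ring

/-- Points which represent the same point of the torus represent the same point of the sphere. -/
lemma SameOrbit.of_samePoint {p q : ℝ × ℝ} (h : SamePoint L1 L2 p q) : SameOrbit L1 L2 p q := by
  obtain ⟨j, k, h1, h2⟩ := h
  exact ⟨j, k, Or.inl ⟨h1, h2⟩⟩

lemma SameOrbit.neg (L1 L2 : ℝ) (p : ℝ × ℝ) : SameOrbit L1 L2 p (-p.1, -p.2) :=
  ⟨0, 0, Or.inr ⟨by simp, by simp⟩⟩

/-! ### Translation of the base point -/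

lemma pathLength_add {w : ℝ → ℝ → ℝ} (v : ℝ × ℝ) (hw : ∀ x y, w (x + v.1) (y + v.2) = w x y)
    (γ : ℝ → ℝ × ℝ) : pathLength w (fun t => γ t + v) = pathLength w γ := by
  unfold pathLength
  congr 1
  funext t
  have h1 : deriv (fun t => γ t + v) t = deriv γ t := deriv_add_const v
  rw [h1]
  have h2 : w (γ t + v).1 (γ t + v).2 = w (γ t).1 (γ t).2 := hw _ _
  rw [h2]

lemma sphereDist_add_le_aux {w : ℝ → ℝ → ℝ} (v : ℝ × ℝ)
    (hw : ∀ x y, w (x + v.1) (y + v.2) = w x y) (j k : ℤ) (hv1 : v.1 = j * L1)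
    (hv2 : v.2 = k * L2) (p q : ℝ × ℝ) :
    {ℓ | ∃ γ : ℝ → ℝ × ℝ, ContDiff ℝ 1 γ ∧ γ 0 = p ∧ SameOrbit L1 L2 q (γ 1) ∧
      ℓ = pathLength w γ} ⊆
    {ℓ | ∃ γ : ℝ → ℝ × ℝ, ContDiff ℝ 1 γ ∧ γ 0 = p + v ∧ SameOrbit L1 L2 q (γ 1) ∧
      ℓ = pathLength w γ} := by
  rintro ℓ ⟨γ, hγ, h0, h1, rfl⟩
  refine ⟨fun t => γ t + v, hγ.add contDiff_const, by simp only [h0], ?_,
    (pathLength_add v hw γ).symm⟩
  refine h1.trans ⟨j, k, Or.inl ⟨?_, ?_⟩⟩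
  · show (γ 1).1 + v.1 = _
    rw [hv1]
  · show (γ 1).2 + v.2 = _
    rw [hv2]

lemma int_periodic {w : ℝ → ℝ → ℝ} (hw1 : ∀ x y, w (x + L1) y = w x y)
    (hw2 : ∀ x y, w x (y + L2) = w x y) (j k : ℤ) (x y : ℝ) :
    w (x + j * L1) (y + k * L2) = w x y := by
  have e1 : ∀ y, Function.Periodic (fun x => w x y) L1 := fun y x => hw1 x y
  have e2 : ∀ x, Function.Periodic (fun y => w x y) L2 := fun x y => hw2 x y
  have e3 : w (x + j * L1) (y + k * L2) = w x (y + k * L2) := (e1 (y + k * L2)).int_mul j x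
  have e4 : w x (y + k * L2) = w x y := (e2 x).int_mul k y
  rw [e3, e4]

/-- The distance is invariant under the lattice translations of the base point. -/
lemma sphereDist_add {w : ℝ → ℝ → ℝ} (hw1 : ∀ x y, w (x + L1) y = w x y)
    (hw2 : ∀ x y, w x (y + L2) = w x y) (j k : ℤ) (p q : ℝ × ℝ) :
    sphereDist w L1 L2 (p.1 + j * L1, p.2 + k * L2) q = sphereDist w L1 L2 p q := by
  unfold sphereDist
  congr 1
  apply Subset.antisymm
  · have h := sphereDist_add_le_aux (L1 := L1) (L2 := L2) (w := w)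
      ((((-j : ℤ) : ℝ) * L1, ((-k : ℤ) : ℝ) * L2) : ℝ × ℝ)
      (fun x y => int_periodic hw1 hw2 (-j) (-k) x y) (-j) (-k) rfl rfl
      (p.1 + j * L1, p.2 + k * L2) q
    have e : ((p.1 + j * L1, p.2 + k * L2) : ℝ × ℝ) +
        ((((-j : ℤ) : ℝ) * L1, ((-k : ℤ) : ℝ) * L2) : ℝ × ℝ) = p := by
      ext
      · simp
      · simp
    rw [e] at h
    exact h
  · have h := sphereDist_add_le_aux (L1 := L1) (L2 := L2) (w := w)
      (((j : ℝ) * L1, (k : ℝ) * L2) : ℝ × ℝ)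
      (fun x y => int_periodic hw1 hw2 j k x y) j k rfl rfl p q
    exact h

/-- The geodesic discs are invariant under the lattice translations of the centre. -/
theorem geodDisc_add {w : ℝ → ℝ → ℝ} (hw1 : ∀ x y, w (x + L1) y = w x y)
    (hw2 : ∀ x y, w x (y + L2) = w x y) (j k : ℤ) (p : ℝ × ℝ) (r : ℝ) :
    geodDisc w L1 L2 (p.1 + j * L1, p.2 + k * L2) r = geodDisc w L1 L2 p r := by
  ext q
  show sphereDist w L1 L2 (p.1 + j * L1, p.2 + k * L2) q < r ↔ sphereDist w L1 L2 p q < r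
  rw [sphereDist_add hw1 hw2]

/-- The distance depends only on the class of the end point. -/
lemma sphereDist_congr {w : ℝ → ℝ → ℝ} {q q' : ℝ × ℝ} (h : SameOrbit L1 L2 q q') (p : ℝ × ℝ) :
    sphereDist w L1 L2 p q = sphereDist w L1 L2 p q' := by
  unfold sphereDist
  congr 1
  ext ℓ
  constructor
  · rintro ⟨γ, hγ, h0, h1, hl⟩
    exact ⟨γ, hγ, h0, h.symm.trans h1, hl⟩
  · rintro ⟨γ, hγ, h0, h1, hl⟩
    exact ⟨γ, hγ, h0, h.trans h1, hl⟩

theorem mem_congr {w : ℝ → ℝ → ℝ} {q q' : ℝ × ℝ} (h : SameOrbit L1 L2 q q') {p : ℝ × ℝ}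
    {r : ℝ} : q ∈ geodDisc w L1 L2 p r ↔ q' ∈ geodDisc w L1 L2 p r := by
  show sphereDist w L1 L2 p q < r ↔ sphereDist w L1 L2 p q' < r
  rw [sphereDist_congr h]

/-- Reflection of the base point: for even `w` the disc of centre `-p` is the disc of
centre `p`. -/
lemma pathLength_neg {w : ℝ → ℝ → ℝ} (hw : ∀ x y, w (-x) (-y) = w x y) (γ : ℝ → ℝ × ℝ) :
    pathLength w (fun t => -γ t) = pathLength w γ := by
  unfold pathLength
  congr 1
  funext t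
  have h1 : deriv (fun t => -γ t) t = -deriv γ t := deriv.fun_neg
  rw [h1]
  have h2 : w (-γ t).1 (-γ t).2 = w (γ t).1 (γ t).2 := hw _ _
  rw [h2]
  simp

lemma sphereDist_neg {w : ℝ → ℝ → ℝ} (hw : ∀ x y, w (-x) (-y) = w x y) (p q : ℝ × ℝ) :
    sphereDist w L1 L2 (-p) q = sphereDist w L1 L2 p q := by
  have key : ∀ p : ℝ × ℝ, {ℓ | ∃ γ : ℝ → ℝ × ℝ, ContDiff ℝ 1 γ ∧ γ 0 = p ∧
      SameOrbit L1 L2 q (γ 1) ∧ ℓ = pathLength w γ} ⊆
    {ℓ | ∃ γ : ℝ → ℝ × ℝ, ContDiff ℝ 1 γ ∧ γ 0 = -p ∧ SameOrbit L1 L2 q (γ 1) ∧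
      ℓ = pathLength w γ} := by
    rintro p ℓ ⟨γ, hγ, h0, h1, rfl⟩
    exact ⟨fun t => -γ t, hγ.neg, by simp only [h0], h1.trans (SameOrbit.neg L1 L2 (γ 1)),
      (pathLength_neg hw γ).symm⟩
  unfold sphereDist
  congr 1
  apply Subset.antisymm
  · have := key (-p)
    rwa [neg_neg] at this
  · exact key p

lemma geodDisc_neg {w : ℝ → ℝ → ℝ} (hw : ∀ x y, w (-x) (-y) = w x y) (p : ℝ × ℝ) (r : ℝ) :
    geodDisc w L1 L2 (-p) r = geodDisc w L1 L2 p r := by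
  ext q
  show sphereDist w L1 L2 (-p) q < r ↔ sphereDist w L1 L2 p q < r
  rw [sphereDist_neg hw]

/-! ### Eigenfunctions -/

theorem IsEigenfunction.congr {w : ℝ → ℝ → ℝ} {lam : ℝ} {u : ℝ → ℝ → ℝ}
    (hu : IsEigenfunction w L1 L2 lam u) {q q' : ℝ × ℝ} (h : SameOrbit L1 L2 q q') :
    u q.1 q.2 = u q'.1 q'.2 := by
  obtain ⟨j, k, ⟨h1, h2⟩ | ⟨h1, h2⟩⟩ := h
  · rw [h1, h2]
    exact (int_periodic (fun x y => (hu.periodic x y).1) (fun x y => (hu.periodic x y).2)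
      j k q.1 q.2).symm
  · rw [h1, h2, int_periodic (fun x y => (hu.periodic x y).1) (fun x y => (hu.periodic x y).2)
      j k (-q.1) (-q.2), hu.even]

/-- A continuous doubly periodic function is bounded. -/
lemma bounded_of_periodic {u : ℝ → ℝ → ℝ} (hL1 : 0 < L1) (hL2 : 0 < L2)
    (hc : Continuous (fun p : ℝ × ℝ => u p.1 p.2)) (hu : Periodic2 L1 L2 u) :
    ∃ B, ∀ x y, |u x y| ≤ B := by
  have hK : IsCompact (Icc (0 : ℝ) L1 ×ˢ Icc (0 : ℝ) L2) := isCompact_Icc.prod isCompact_Icc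
  obtain ⟨B, hB⟩ := hK.exists_bound_of_continuousOn hc.continuousOn
  refine ⟨B, fun x y => ?_⟩
  have h1 : ∃ j : ℤ, x + j * L1 ∈ Icc 0 L1 := by
    refine ⟨-⌊x / L1⌋, ?_⟩
    have h2 := Int.floor_le (x / L1)
    have h3 := Int.lt_floor_add_one (x / L1)
    rw [le_div_iff₀ hL1] at h2
    rw [div_lt_iff₀ hL1] at h3
    push_cast
    constructor
    · linarith
    · linarith
  have h1' : ∃ k : ℤ, y + k * L2 ∈ Icc 0 L2 := by
    refine ⟨-⌊y / L2⌋, ?_⟩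
    have h2 := Int.floor_le (y / L2)
    have h3 := Int.lt_floor_add_one (y / L2)
    rw [le_div_iff₀ hL2] at h2
    rw [div_lt_iff₀ hL2] at h3
    push_cast
    constructor
    · linarith
    · linarith
  obtain ⟨j, hj⟩ := h1
  obtain ⟨k, hk⟩ := h1'
  have h4 := hB (x + j * L1, y + k * L2) ⟨hj, hk⟩
  rw [Real.norm_eq_abs] at h4
  rw [← int_periodic (fun x y => (hu x y).1) (fun x y => (hu x y).2) j k x y]
  exact h4

theorem IsEigenfunction.bounded {w : ℝ → ℝ → ℝ} {lam : ℝ} {u : ℝ → ℝ → ℝ} (hL1 : 0 < L1)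
    (hL2 : 0 < L2) (hu : IsEigenfunction w L1 L2 lam u) : ∃ B, ∀ x y, |u x y| ≤ B :=
  bounded_of_periodic hL1 hL2 hu.smooth.continuous hu.periodic

/-! ### The doubling index -/

lemma sphereDist_self_le (w : ℝ → ℝ → ℝ) (L1 L2 : ℝ) (p : ℝ × ℝ) :
    sphereDist w L1 L2 p p ≤ 0 := by
  have h0 : pathLength w (fun _ => p) = 0 := by
    unfold pathLength
    simp
  refine csInf_le ⟨0, ?_⟩ ⟨fun _ => p, contDiff_const, rfl, SameOrbit.refl L1 L2 p, h0.symm⟩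
  rintro _ ⟨γ, _, _, _, rfl⟩
  exact pathLength_nonneg w γ

lemma self_mem_geodDisc (w : ℝ → ℝ → ℝ) (L1 L2 : ℝ) (p : ℝ × ℝ) {r : ℝ} (hr : 0 < r) :
    p ∈ geodDisc w L1 L2 p r := lt_of_le_of_lt (sphereDist_self_le w L1 L2 p) hr

theorem doublingIndex_le {w u : ℝ → ℝ → ℝ} {B : ℝ} (hB : ∀ x y, |u x y| ≤ B) {p : ℝ × ℝ}
    {R E : ℝ} (hR : 0 < R) (hE : 1 ≤ E)
    (h : ∀ M, (∀ v ∈ geodDisc w L1 L2 p R, |u v.1 v.2| ≤ M) →
      ∀ v ∈ geodDisc w L1 L2 p (2 * R), |u v.1 v.2| ≤ E * M) :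
    doublingIndex w L1 L2 u p R ≤ Real.logb 2 E := by
  set m : ℝ := supAbs u (geodDisc w L1 L2 p R) with hm
  have hbdd : ∀ S : Set (ℝ × ℝ), BddAbove ((fun q : ℝ × ℝ => |u q.1 q.2|) '' S) := by
    intro S
    refine ⟨B, ?_⟩
    rintro _ ⟨q, _, rfl⟩
    exact hB _ _
  have hmle : ∀ v ∈ geodDisc w L1 L2 p R, |u v.1 v.2| ≤ m := by
    intro v hv
    exact le_csSup (hbdd _) ⟨v, hv, rfl⟩
  have hpmem : p ∈ geodDisc w L1 L2 p (2 * R) := self_mem_geodDisc w L1 L2 p (by positivity)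
  have hm0 : 0 ≤ m := (abs_nonneg (u p.1 p.2)).trans (hmle _ (self_mem_geodDisc w L1 L2 p hR))
  have hsup : supAbs u (geodDisc w L1 L2 p (2 * R)) ≤ E * m := by
    apply csSup_le (Set.Nonempty.image _ ⟨p, hpmem⟩)
    rintro _ ⟨q, hq, rfl⟩
    exact h m hmle q hq
  unfold doublingIndex
  rw [← hm]
  rcases hm0.eq_or_lt with h0 | h0
  · rw [← h0, div_zero, Real.logb_zero]
    exact Real.logb_nonneg (by norm_num) hE
  · have hsup0 : 0 ≤ supAbs u (geodDisc w L1 L2 p (2 * R)) :=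
      (abs_nonneg (u p.1 p.2)).trans (le_csSup (hbdd _) ⟨p, hpmem, rfl⟩)
    have hratio : supAbs u (geodDisc w L1 L2 p (2 * R)) / m ≤ E := by
      rw [div_le_iff₀ h0]; exact hsup
    rcases (div_nonneg hsup0 h0.le).eq_or_lt with h1 | h1
    · rw [← h1, Real.logb_zero]
      exact Real.logb_nonneg (by norm_num) hE
    · exact Real.logb_le_logb_of_le (by norm_num) h1 hratio

end Pool.Agent.H24.LSphere
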