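import Mathlib

/-!
# Separated sets, unbounded functions on noncompact closed sets
-/

open Set Filter Topology TopologicalSpace

namespace Pool.Agent.H67

/-- On a closed noncompact set of a metric space some continuous function of the whole space is
unbounded; we extract a sequence of points of the set with increasing values. -/
theorem exists_unbounded {X : Type*} [MetricSpace X] {K : Set X} (hK : IsClosed K)
    (hKc : ¬ IsCompact K) :
    ∃ f : X → ℝ, Continuous f ∧ ∃ x : ℕ → X, (∀ n, x n ∈ K) ∧ ∀ n, f (x n) + 1 ≤ f (x (n + 1)) := by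
  rw [isCompact_iff_isSeqCompact, IsSeqCompact] at hKc
  push Not at hKc
  obtain ⟨u, huK, hu⟩ := hKc
  let g : X → ℝ := fun x => ⨅ n : ℕ, (dist x (u n) + 1 / ((n : ℝ) + 1))
  have hbdd : ∀ x, BddBelow (range fun n : ℕ => dist x (u n) + 1 / ((n : ℝ) + 1)) := by
    intro x
    refine ⟨0, ?_⟩
    rintro _ ⟨n, rfl⟩
    positivity
  have hgle : ∀ x n, g x ≤ dist x (u n) + 1 / ((n : ℝ) + 1) := fun x n => ciInf_le (hbdd x) n
  have hglip : LipschitzWith 1 g := by
    refine LipschitzWith.of_le_add fun x y => ?_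
    rw [← sub_le_iff_le_add]
    refine le_ciInf fun n => ?_
    have := hgle x n
    have h2 := dist_triangle x y (u n)
    linarith
  have hgpos : ∀ x, 0 < g x := by
    intro x
    by_contra hcon
    rw [not_lt] at hcon
    have hex : ∀ ε : ℝ, 0 < ε → ∃ n : ℕ, dist x (u n) + 1 / ((n : ℝ) + 1) < ε := by
      intro ε hε
      exact exists_lt_of_ciInf_lt (lt_of_le_of_lt hcon hε)
    have hfreq : ∀ n : ℕ, ∃ᶠ k : ℕ in atTop, dist x (u k) < 1 / ((n : ℝ) + 1) := by
      intro n
      rw [frequently_atTop]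
      intro N
      obtain ⟨k, hk⟩ := hex (1 / ((max n N : ℕ) + 1 : ℝ)) (by positivity)
      have h1 : (0 : ℝ) < (k : ℝ) + 1 := by positivity
      have h2 : (0 : ℝ) < ((max n N : ℕ) : ℝ) + 1 := by positivity
      have h3 : 1 / ((k : ℝ) + 1) < 1 / (((max n N : ℕ) : ℝ) + 1) := by
        have := dist_nonneg (x := x) (y := u k)
        linarith
      have h4 : ((max n N : ℕ) : ℝ) + 1 < (k : ℝ) + 1 := by
        rwa [one_div_lt_one_div h1 h2] at h3
      have h5 : max n N < k := by exact_mod_cast (by linarith : ((max n N : ℕ) : ℝ) < (k : ℝ))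
      refine ⟨k, (le_max_right n N).trans h5.le, ?_⟩
      have h6 : dist x (u k) < 1 / (((max n N : ℕ) : ℝ) + 1) := by
        have : (0 : ℝ) < 1 / ((k : ℝ) + 1) := by positivity
        linarith
      refine h6.trans_le ?_
      apply one_div_le_one_div_of_le (by positivity)
      have : (n : ℝ) ≤ ((max n N : ℕ) : ℝ) := by exact_mod_cast le_max_left n N
      linarith
    obtain ⟨φ, hφ, hφ'⟩ := extraction_forall_of_frequently hfreq
    have hlim : Tendsto (u ∘ φ) atTop (𝓝 x) := by
      rw [tendsto_iff_dist_tendsto_zero]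
      refine squeeze_zero (fun n => dist_nonneg) (fun n => ?_) tendsto_one_div_add_atTop_nhds_zero_nat
      rw [dist_comm]
      exact (hφ' n).le
    exact hu x (hK.mem_of_tendsto hlim (Eventually.of_forall fun n => huK _)) φ hφ hlim
  let f : X → ℝ := fun x => 1 / g x
  have hfc : Continuous f := by
    refine continuous_const.div hglip.continuous fun x => (hgpos x).ne'
  have hfu : ∀ n : ℕ, (n : ℝ) + 1 ≤ f (u n) := by
    intro n
    have h1 := hgle (u n) n
    rw [dist_self, zero_add] at h1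
    have h2 : (0 : ℝ) < (n : ℝ) + 1 := by positivity
    show (n : ℝ) + 1 ≤ 1 / g (u n)
    rw [le_div_iff₀ (hgpos _)]
    calc ((n : ℝ) + 1) * g (u n) ≤ ((n : ℝ) + 1) * (1 / ((n : ℝ) + 1)) := by gcongr
      _ = 1 := by field_simp
  have hpick : ∀ c : ℝ, ∃ n, c ≤ f (u n) := by
    intro c
    obtain ⟨n, hn⟩ := exists_nat_ge c
    exact ⟨n, hn.trans (by linarith [hfu n])⟩
  choose N hN using hpick
  let x : ℕ → X := fun n => Nat.rec (u 0) (fun _ y => u (N (f y + 1))) n
  have hx : ∀ n, x (n + 1) = u (N (f (x n) + 1)) := fun n => rfl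
  refine ⟨f, hfc, x, ?_, ?_⟩
  · intro n
    cases n with
    | zero => exact huK 0
    | succ n => rw [hx]; exact huK _
  · intro n
    rw [hx]
    exact hN _

/-- Among countably many sets choose one all of whose separated subsets embed as separated
subsets in all the others. -/
theorem exists_min_separated {X : Type} [MetricSpace X] (V : ℕ → Set X) :
    ∃ n₀, ∀ S : Set X, S ⊆ V n₀ → (∃ ε : ℝ, 0 < ε ∧ S.Pairwise fun a b => ε ≤ dist a b) →
      ∀ m, ∃ T : Set X, T ⊆ V m ∧ (∃ ε : ℝ, 0 < ε ∧ T.Pairwise fun a b => ε ≤ dist a b) ∧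
        Nonempty (S ≃ T) := by
  let C : ℕ → Set Cardinal.{0} := fun n => {c | ∃ S : Set X, S ⊆ V n ∧ Cardinal.mk S = c ∧
    ∃ ε : ℝ, 0 < ε ∧ S.Pairwise fun a b => ε ≤ dist a b}
  have hne : ∀ n, ((C n)ᶜ).Nonempty := by
    intro n
    refine ⟨Order.succ (Cardinal.mk X), ?_⟩
    rintro ⟨S, _, hS, _⟩
    have h1 : Cardinal.mk S ≤ Cardinal.mk X := Cardinal.mk_set_le S
    rw [hS] at h1
    exact absurd h1 (not_le.2 (Order.lt_succ _))
  let c : ℕ → Cardinal.{0} := fun n => sInf (C n)ᶜ
  obtain ⟨n₀, hn₀⟩ : ∃ n₀, ∀ m, c n₀ ≤ c m := by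
    obtain ⟨_, ⟨n, rfl⟩, hn⟩ := (wellFounded_lt (α := Cardinal.{0})).has_min (range c) ⟨_, ⟨0, rfl⟩⟩
    exact ⟨n, fun m => not_lt.1 (hn _ ⟨m, rfl⟩)⟩
  refine ⟨n₀, fun S hS hSε m => ?_⟩
  have h1 : Cardinal.mk S < c n₀ := by
    by_contra hcon
    rw [not_lt] at hcon
    have h2 : c n₀ ∈ (C n₀)ᶜ := csInf_mem (hne n₀)
    apply h2
    obtain ⟨S', hS', hS'c⟩ := Cardinal.le_mk_iff_exists_subset.1 hcon
    obtain ⟨ε, hε, hp⟩ := hSε
    exact ⟨S', hS'.trans hS, hS'c, ε, hε, hp.mono hS'⟩
  have h3 : Cardinal.mk S ∈ C m := by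
    by_contra hcon
    exact absurd (csInf_le' (show Cardinal.mk S ∈ (C m)ᶜ from hcon)) (not_le.2 (h1.trans_le (hn₀ m)))
  obtain ⟨T, hT, hTc, hTε⟩ := h3
  exact ⟨T, hT, hTε, Cardinal.eq.1 hTc.symm⟩

/-- Maximal separated sets. -/
theorem exists_maximal_separated {X : Type*} [MetricSpace X] (V : Set X) {δ : ℝ} (hδ : 0 < δ) :
    ∃ S : Set X, S ⊆ V ∧ (S.Pairwise fun a b => δ ≤ dist a b) ∧ ∀ z ∈ V, ∃ s ∈ S, dist z s < δ := by
  obtain ⟨S, hS⟩ := zorn_subset {S : Set X | S ⊆ V ∧ S.Pairwise fun a b => δ ≤ dist a b} (by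
    intro c hc hchain
    refine ⟨⋃₀ c, ⟨sUnion_subset fun s hs => (hc hs).1, ?_⟩, fun s hs => subset_sUnion_of_mem hs⟩
    exact (pairwise_sUnion hchain.directedOn).2 fun s hs => (hc hs).2)
  refine ⟨S, hS.prop.1, hS.prop.2, fun z hz => ?_⟩
  by_contra hcon
  push Not at hcon
  have hzS : z ∉ S := fun h => by
    have := hcon z h
    rw [dist_self] at this
    linarith
  have h1 : insert z S ∈ {S : Set X | S ⊆ V ∧ S.Pairwise fun a b => δ ≤ dist a b} := by
    refine ⟨insert_subset hz hS.prop.1, ?_⟩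
    rw [pairwise_insert]
    refine ⟨hS.prop.2, fun b hb _ => ⟨hcon b hb, ?_⟩⟩
    rw [dist_comm]
    exact hcon b hb
  exact hzS (hS.le_of_ge h1 (subset_insert z S) (mem_insert z S))

/-- Sequences growing by at least one at each step have terms at distance at least one. -/
theorem one_le_abs_sub_of_step {t : ℕ → ℝ} (ht : ∀ n, t n + 1 ≤ t (n + 1)) :
    ∀ n m, n ≠ m → 1 ≤ |t n - t m| := by
  have hmono : ∀ n k, t n + ((k : ℕ) : ℝ) ≤ t (n + k) := by
    intro n k
    induction k with
    | zero => simp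
    | succ k ih =>
      have h1 : t (n + k) + 1 ≤ t (n + (k + 1)) := ht (n + k)
      push_cast
      linarith
  have key : ∀ n m, n < m → 1 ≤ t m - t n := by
    intro n m hnm
    obtain ⟨k, rfl⟩ := Nat.exists_eq_add_of_lt hnm
    have h1 : t n + ((k + 1 : ℕ) : ℝ) ≤ t (n + k + 1) := hmono n (k + 1)
    have hk : (0 : ℝ) ≤ (k : ℝ) := by positivity
    push_cast at h1
    linarith
  intro n m hnm
  rcases lt_or_gt_of_ne hnm with h | h
  · have := key n m h
    rw [abs_sub_comm]
    exact this.trans (le_abs_self _)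
  · have := key m n h
    exact this.trans (le_abs_self _)

/-- A continuous function that is large near prescribed levels of `f`. -/
theorem exists_continuous_large {X : Type*} [MetricSpace X] {f : X → ℝ} (hf : Continuous f)
    {t : ℕ → ℝ} (ht : ∀ n, t n + 1 ≤ t (n + 1)) (c : ℕ → ℝ) :
    ∃ a : X → ℝ, Continuous a ∧ (∀ z, 0 ≤ a z) ∧ ∀ n z, |f z - t n| < 1 / 8 → c n ≤ a z := by
  have hsep := one_le_abs_sub_of_step ht
  obtain ⟨g, hg⟩ := exists_continuous_forall_mem_convex_of_local_const (X := X) (E := ℝ)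
    (t := fun z => {r | 0 ≤ r ∧ ∀ n, |f z - t n| < 1 / 8 → c n ≤ r})
    (by
      intro z
      have : {r : ℝ | 0 ≤ r ∧ ∀ n, |f z - t n| < 1 / 8 → c n ≤ r} =
          Ici 0 ∩ ⋂ n, {r : ℝ | |f z - t n| < 1 / 8 → c n ≤ r} := by
        ext r; simp
      rw [this]
      refine (convex_Ici 0).inter (convex_iInter fun n => ?_)
      by_cases h : |f z - t n| < 1 / 8
      · simp only [h, true_implies]
        exact convex_Ici (c n)
      · simp only [h, false_implies]
        exact convex_univ)
    (by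
      intro z
      have hnear : ∀ᶠ z' in 𝓝 z, |f z' - f z| < 1 / 8 := by
        have := hf.tendsto z
        rw [Metric.tendsto_nhds] at this
        simpa [Real.dist_eq] using this (1 / 8) (by norm_num)
      by_cases hex : ∃ n, |f z - t n| < 1 / 4
      · obtain ⟨n, hn⟩ := hex
        refine ⟨max 0 (c n), ?_⟩
        filter_upwards [hnear] with z' hz'
        refine ⟨le_max_left _ _, fun m hm => ?_⟩
        have : m = n := by
          by_contra hmn
          have h1 := hsep m n hmn
          have h2 : t m - t n = -(f z' - t m) + (f z' - f z) + (f z - t n) := by ring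
          have h3 : |t m - t n| ≤ |f z' - t m| + |f z' - f z| + |f z - t n| := by
            rw [h2]
            refine (abs_add_le _ _).trans ?_
            have := abs_add_le (-(f z' - t m)) (f z' - f z)
            rw [abs_neg] at this
            linarith
          linarith
        rw [this]
        exact le_max_right _ _
      · push Not at hex
        refine ⟨0, ?_⟩
        filter_upwards [hnear] with z' hz'
        refine ⟨le_rfl, fun m hm => ?_⟩
        exfalso
        have h1 := hex m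
        have h2 : f z - t m = -(f z' - f z) + (f z' - t m) := by ring
        have h3 : |f z - t m| ≤ |f z' - f z| + |f z' - t m| := by
          rw [h2]
          refine (abs_add_le _ _).trans ?_
          rw [abs_neg]
        linarith)
  exact ⟨g, g.continuous, fun z => (hg z).1, fun n z h => (hg z).2 n h⟩

end Pool.Agent.H67
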