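import Pool.Agent.H24.SphereModel
import Pool.Agent.H24.TorusEigenspace

set_option autoImplicit false

/-!
# Eigenfunctions of rotationally symmetric metrics on the sphere in the cylinder chart
-/

namespace Pool.Agent.H67.SphereChart

open Set Filter Topology Pool.Agent.H24 Pool.Agent.H24.Sphere

/-! ### The chart -/

/-- The standard basis vectors. -/
noncomputable def ev (i : Fin 3) : E3 := EuclideanSpace.single i 1

@[simp] lemma ev_apply (i j : Fin 3) : ev i j = if j = i then 1 else 0 := by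
  simp [ev]

/-- The rescaled chart. -/
noncomputable def Psi (x y : ℝ) : E3 :=
  Real.cos y • ev 0 + Real.sin y • ev 1 + Real.sinh x • ev 2

lemma cosh_ne (x : ℝ) : Real.cosh x ≠ 0 := (Real.cosh_pos x).ne'

lemma chart_zero (x y : ℝ) : chart x y 0 = Real.cos y / Real.cosh x := rfl
lemma chart_one (x y : ℝ) : chart x y 1 = Real.sin y / Real.cosh x := rfl
lemma chart_two (x y : ℝ) : chart x y 2 = Real.tanh x := rfl

lemma Psi_eq (x y : ℝ) : Psi x y = Real.cosh x • chart x y := by
  have hc := cosh_ne x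
  ext i
  fin_cases i
  · simp only [Psi, Fin.zero_eta, PiLp.add_apply, PiLp.smul_apply, ev_apply, smul_eq_mul,
      chart_zero]
    simp
    field_simp
  · simp only [Psi, Fin.mk_one, PiLp.add_apply, PiLp.smul_apply, ev_apply, smul_eq_mul,
      chart_one]
    simp
    field_simp
  · simp only [Psi, Fin.reduceFinMk, PiLp.add_apply, PiLp.smul_apply, ev_apply, smul_eq_mul,
      chart_two, Real.tanh_eq_sinh_div_cosh]
    simp
    field_simp

lemma norm_sq_three (v : E3) : ‖v‖ ^ 2 = v 0 ^ 2 + v 1 ^ 2 + v 2 ^ 2 := by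
  rw [EuclideanSpace.real_norm_sq_eq, Fin.sum_univ_three]

lemma norm_chart (x y : ℝ) : ‖chart x y‖ = 1 := by
  have hc := cosh_ne x
  have h1 : ‖chart x y‖ ^ 2 = 1 := by
    rw [norm_sq_three, chart_zero, chart_one, chart_two, Real.tanh_eq_sinh_div_cosh]
    field_simp
    have h2 := Real.cosh_sq x
    have h3 := Real.cos_sq_add_sin_sq y
    linear_combination h3 - h2
  have h2 : 0 ≤ ‖chart x y‖ := norm_nonneg _
  nlinarith

lemma chart_ne_zero (x y : ℝ) : chart x y ≠ 0 := by
  intro h
  have := norm_chart x y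
  rw [h, norm_zero] at this
  norm_num at this

lemma Psi_ne_zero (x y : ℝ) : Psi x y ≠ 0 := by
  rw [Psi_eq]
  exact smul_ne_zero (cosh_ne x) (chart_ne_zero x y)

lemma abs_tanh_le_one (x : ℝ) : |Real.tanh x| ≤ 1 := by
  rw [Real.tanh_eq_sinh_div_cosh, abs_div, abs_of_pos (Real.cosh_pos x),
    div_le_one (Real.cosh_pos x)]
  apply abs_le_of_sq_le_sq _ (Real.cosh_pos x).le
  rw [Real.cosh_sq x]
  linarith

lemma chart_periodic (x y : ℝ) : chart x (y + 2 * Real.pi) = chart x y := by
  unfold chart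
  rw [Real.cos_add_two_pi, Real.sin_add_two_pi]

/-- Every point of the unit sphere which is not a pole is in the image of the chart. -/
lemma exists_chart {v : E3} (hv : ‖v‖ = 1) (h2 : |v 2| < 1) :
    ∃ x : ℝ, ∃ y ∈ Ico (0 : ℝ) (2 * Real.pi), chart x y = v := by
  have hn := norm_sq_three v
  rw [hv, one_pow] at hn
  have hr : 0 < 1 - v 2 ^ 2 := by
    have := sq_lt_one_iff_abs_lt_one (v 2) |>.2 h2
    linarith
  have hI : v 2 ∈ Ioo (-1 : ℝ) 1 := ⟨(abs_lt.1 h2).1, (abs_lt.1 h2).2⟩
  set r : ℝ := Real.sqrt (1 - v 2 ^ 2) with hrdef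
  have hr0 : 0 < r := Real.sqrt_pos.2 hr
  have hrsq : r ^ 2 = 1 - v 2 ^ 2 := Real.sq_sqrt hr.le
  set w : ℂ := ⟨v 0 / r, v 1 / r⟩ with hw
  have hwn : ‖w‖ = 1 := by
    have h1 : ‖w‖ ^ 2 = 1 := by
      rw [← Complex.normSq_eq_norm_sq, Complex.normSq_mk]
      field_simp
      rw [hrsq]
      linear_combination -hn
    have h2 : 0 ≤ ‖w‖ := norm_nonneg _
    nlinarith
  have hw0 : w ≠ 0 := by
    intro h
    rw [h, norm_zero] at hwn
    norm_num at hwn
  have hpi : (0 : ℝ) < 2 * Real.pi := by positivity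
  set y : ℝ := toIcoMod hpi 0 w.arg with hy
  have hyI : y ∈ Ico (0 : ℝ) (2 * Real.pi) := by
    have := toIcoMod_mem_Ico hpi 0 w.arg
    rwa [zero_add] at this
  have hcos : Real.cos y = v 0 / r := by
    have h1 : Real.cos y = Real.cos w.arg := by
      have := Real.cos_periodic.sub_zsmul_eq (x := w.arg) (toIcoDiv hpi 0 w.arg)
      exact this
    rw [h1, Complex.cos_arg hw0, hwn, div_one]
  have hsin : Real.sin y = v 1 / r := by
    have h1 : Real.sin y = Real.sin w.arg := by
      have := Real.sin_periodic.sub_zsmul_eq (x := w.arg) (toIcoDiv hpi 0 w.arg)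
      exact this
    rw [h1, Complex.sin_arg, hwn, div_one]
  refine ⟨Real.artanh (v 2), y, hyI, ?_⟩
  have hc : Real.cosh (Real.artanh (v 2)) = 1 / r := Real.cosh_artanh hI
  ext i
  fin_cases i
  · simp only [Fin.zero_eta, chart_zero, hcos, hc]
    field_simp
  · simp only [Fin.mk_one, chart_one, hsin, hc]
    field_simp
  · simp only [Fin.reduceFinMk, chart_two]
    exact Real.tanh_artanh hI

lemma contDiff_chart : ContDiff ℝ (⊤ : ℕ∞) (fun p : ℝ × ℝ => chart p.1 p.2) := by
  rw [contDiff_euclidean]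
  have hc : ContDiff ℝ (⊤ : ℕ∞) (fun p : ℝ × ℝ => Real.cosh p.1) :=
    Real.contDiff_cosh.comp contDiff_fst
  have hs : ContDiff ℝ (⊤ : ℕ∞) (fun p : ℝ × ℝ => Real.sinh p.1) :=
    Real.contDiff_sinh.comp contDiff_fst
  intro i
  fin_cases i
  · exact (Real.contDiff_cos.comp contDiff_snd).div hc fun p => cosh_ne p.1
  · exact (Real.contDiff_sin.comp contDiff_snd).div hc fun p => cosh_ne p.1
  · have e : (fun p : ℝ × ℝ => chart p.1 p.2 2) =
        fun p : ℝ × ℝ => Real.sinh p.1 / Real.cosh p.1 := by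
      funext p
      rw [chart_two, Real.tanh_eq_sinh_div_cosh]
    show ContDiff ℝ (⊤ : ℕ∞) (fun p : ℝ × ℝ => chart p.1 p.2 2)
    rw [e]
    exact hs.div hc fun p => cosh_ne p.1

section
variable {f : ℝ → ℝ} {lam : ℝ} {u : E3 → ℝ}

lemma contDiffAt_u (hu : IsEigenfunction f lam u) {v : E3} (hv : v ≠ 0) :
    ContDiffAt ℝ (⊤ : ℕ∞) u v :=
  hu.smooth.contDiffAt (isOpen_compl_singleton.mem_nhds hv)

/-- The function in the chart is smooth. -/
lemma smooth2 (hu : IsEigenfunction f lam u) : Torus.Smooth2 (fun x y => u (chart x y)) := by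
  have h : ContDiffOn ℝ (⊤ : ℕ∞) (fun p : ℝ × ℝ => u (chart p.1 p.2)) univ :=
    hu.smooth.comp contDiff_chart.contDiffOn fun p _ => chart_ne_zero p.1 p.2
  exact contDiffOn_univ.1 h

lemma periodic (x y : ℝ) : u (chart x (y + 2 * Real.pi)) = u (chart x y) := by
  rw [chart_periodic]

/-- The eigenfunction is bounded on the unit sphere. -/
lemma exists_bound (hu : IsEigenfunction f lam u) : ∃ B, ∀ v : E3, ‖v‖ = 1 → |u v| ≤ B := by
  have hc : ContinuousOn u (Metric.sphere (0 : E3) 1) := by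
    intro v hv
    have hv0 : v ≠ 0 := by
      rintro rfl
      simp at hv
    exact (contDiffAt_u hu hv0).continuousAt.continuousWithinAt
  obtain ⟨B, hB⟩ := (isCompact_sphere (0 : E3) 1).exists_bound_of_continuousOn hc
  refine ⟨B, fun v hv => ?_⟩
  have := hB v (by simpa using hv)
  simpa using this

lemma exists_bound_chart (hu : IsEigenfunction f lam u) :
    ∃ B, ∀ x y, |u (chart x y)| ≤ B := by
  obtain ⟨B, hB⟩ := exists_bound hu
  exact ⟨B, fun x y => hB _ (norm_chart x y)⟩

lemma tendsto_tanh_atTop : Tendsto Real.tanh atTop (𝓝 1) := by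
  have h1 : Tendsto (fun x : ℝ => Real.exp (-(2 * x))) atTop (𝓝 0) := by
    have : Tendsto (fun x : ℝ => 2 * x) atTop atTop :=
      Tendsto.const_mul_atTop (by norm_num) tendsto_id
    exact Real.tendsto_exp_neg_atTop_nhds_zero.comp this
  have h2 : Tendsto (fun x : ℝ => (1 - Real.exp (-(2 * x))) / (1 + Real.exp (-(2 * x)))) atTop
      (𝓝 ((1 - 0) / (1 + 0))) :=
    (tendsto_const_nhds.sub h1).div (tendsto_const_nhds.add h1) (by norm_num)
  have h3 : (fun x : ℝ => (1 - Real.exp (-(2 * x))) / (1 + Real.exp (-(2 * x)))) =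
      Real.tanh := by
    funext x
    rw [Real.tanh_eq_sinh_div_cosh, Real.sinh_eq, Real.cosh_eq]
    have h4 : Real.exp (-x) = Real.exp x * Real.exp (-(2 * x)) := by
      rw [← Real.exp_add]
      congr 1
      ring
    rw [h4]
    have h5 := Real.exp_pos x
    have h6 := Real.exp_pos (-(2 * x))
    field_simp
  rw [h3] at h2
  simpa using h2

/-- The eigenfunction does not vanish identically in the chart. -/
lemma exists_ne_zero (hu : IsEigenfunction f lam u) : ∃ x y, u (chart x y) ≠ 0 := by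
  obtain ⟨v, hv, huv⟩ := hu.ne_zero
  have hn := norm_sq_three v
  rw [hv, one_pow] at hn
  by_cases h2 : |v 2| < 1
  · obtain ⟨x, y, _, hxy⟩ := exists_chart hv h2
    exact ⟨x, y, by rw [hxy]; exact huv⟩
  · push Not at h2
    have h3 : 1 ≤ v 2 ^ 2 := by
      have := one_le_sq_iff_one_le_abs (v 2) |>.2 h2
      exact this
    have h0 : v 0 = 0 := by
      have := sq_nonneg (v 0)
      have := sq_nonneg (v 1)
      exact pow_eq_zero_iff two_ne_zero |>.1 (by linarith)
    have h1 : v 1 = 0 := by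
      have := sq_nonneg (v 0)
      have := sq_nonneg (v 1)
      exact pow_eq_zero_iff two_ne_zero |>.1 (by linarith)
    have h4 : v 2 ^ 2 = 1 := by rw [h0, h1] at hn; linarith
    -- a point of the sphere tending to the pole
    have hv0 : v ≠ 0 := by
      intro h
      rw [h, norm_zero] at hv
      norm_num at hv
    have hpow : Tendsto (fun x : ℝ => 1 / Real.cosh x) atTop (𝓝 0) := by
      have h5 : ∀ x : ℝ, 1 / Real.cosh x = Real.sqrt (1 - Real.tanh x ^ 2) := by
        intro x
        have hc := Real.cosh_pos x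
        have h6 : 1 - Real.tanh x ^ 2 = (1 / Real.cosh x) ^ 2 := by
          rw [Real.tanh_eq_sinh_div_cosh]
          field_simp
          linear_combination Real.cosh_sq x
        rw [h6, Real.sqrt_sq (by positivity)]
      have h7 : Tendsto (fun x : ℝ => Real.sqrt (1 - Real.tanh x ^ 2)) atTop
          (𝓝 (Real.sqrt (1 - 1 ^ 2))) :=
        (Real.continuous_sqrt.tendsto _).comp
          (tendsto_const_nhds.sub (tendsto_tanh_atTop.pow 2))
      have h8 : (fun x : ℝ => 1 / Real.cosh x) = fun x => Real.sqrt (1 - Real.tanh x ^ 2) :=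
        funext h5
      rw [h8]
      simpa using h7
    have hten : Tendsto (fun x : ℝ => chart (v 2 * x) 0) atTop (𝓝 v) := by
      have hv2 : v 2 = 1 ∨ v 2 = -1 := by
        have h12 : (v 2 - 1) * (v 2 + 1) = 0 := by linear_combination h4
        rcases mul_eq_zero.1 h12 with h | h
        · left; linarith
        · right; linarith
      have e1 : ∀ x : ℝ, chart (v 2 * x) 0 =
          (1 / Real.cosh x) • ev 0 + (v 2 * Real.tanh x) • ev 2 := by
        intro x
        have h10 : Real.cosh (v 2 * x) = Real.cosh x := by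
          rcases hv2 with h | h <;> rw [h] <;> simp
        have h11 : Real.tanh (v 2 * x) = v 2 * Real.tanh x := by
          rcases hv2 with h | h <;> rw [h] <;> simp
        ext i
        fin_cases i
        · simp only [Fin.zero_eta, chart_zero, PiLp.add_apply, PiLp.smul_apply, ev_apply,
            smul_eq_mul, h10]
          simp
        · simp only [Fin.mk_one, chart_one, PiLp.add_apply, PiLp.smul_apply, ev_apply,
            smul_eq_mul]
          simp
        · simp only [Fin.reduceFinMk, chart_two, PiLp.add_apply, PiLp.smul_apply, ev_apply,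
            smul_eq_mul, h11]
          simp
      have e2 : v = (0 : ℝ) • ev 0 + (v 2 * 1) • ev 2 := by
        ext i
        fin_cases i
        · simp [h0]
        · simp [h1]
        · simp
      have e3 : (fun x : ℝ => chart (v 2 * x) 0) = fun x : ℝ =>
          (1 / Real.cosh x) • ev 0 + (v 2 * Real.tanh x) • ev 2 := funext e1
      rw [e3]
      nth_rewrite 2 [e2]
      exact (hpow.smul_const (ev 0)).add
        ((tendsto_tanh_atTop.const_mul (v 2)).smul_const (ev 2))
    have h9 := ((contDiffAt_u hu hv0).continuousAt.tendsto.comp hten).eventually_ne huv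
    obtain ⟨x, hx⟩ := h9.exists
    exact ⟨_, _, hx⟩

/-! ### The equation -/

lemma hasFDerivAt_u (hu : IsEigenfunction f lam u) {v : E3} (hv : v ≠ 0) :
    HasFDerivAt u (fderiv ℝ u v) v :=
  ((contDiffAt_u hu hv).differentiableAt (by simp)).hasFDerivAt

lemma contDiffAt_fderiv (hu : IsEigenfunction f lam u) {v : E3} (hv : v ≠ 0) :
    ContDiffAt ℝ (⊤ : ℕ∞) (fderiv ℝ u) v :=
  (contDiffAt_u hu hv).fderiv_right (by simp)

lemma hasFDerivAt_fderiv (hu : IsEigenfunction f lam u) {v : E3} (hv : v ≠ 0) :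
    HasFDerivAt (fderiv ℝ u) (fderiv ℝ (fderiv ℝ u) v) v :=
  ((contDiffAt_fderiv hu hv).differentiableAt (by simp)).hasFDerivAt

lemma symm_fderiv (hu : IsEigenfunction f lam u) {v : E3} (hv : v ≠ 0) (a b : E3) :
    fderiv ℝ (fderiv ℝ u) v a b = fderiv ℝ (fderiv ℝ u) v b a := by
  have hsymm : IsSymmSndFDerivAt ℝ u v := by
    apply ContDiffAt.isSymmSndFDerivAt (n := (⊤ : ℕ∞))
    · exact contDiffAt_u hu hv
    · rw [minSmoothness_of_isRCLikeNormedField]
      decide
  exact hsymm a b

/-- Euler's identity for the first derivative. -/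
lemma euler1 (hu : IsEigenfunction f lam u) {v : E3} (hv : v ≠ 0) : fderiv ℝ u v v = 0 := by
  have h1 : HasDerivAt (fun t : ℝ => t • v) v 1 := by
    simpa using (hasDerivAt_id (1 : ℝ)).smul_const v
  have h2 : HasFDerivAt u (fderiv ℝ u v) ((1 : ℝ) • v) := by
    rw [one_smul]
    exact hasFDerivAt_u hu hv
  have h3 : HasDerivAt (fun t : ℝ => u (t • v)) (fderiv ℝ u v v) 1 :=
    h2.comp_hasDerivAt (1 : ℝ) h1
  have h4 : (fun t : ℝ => u (t • v)) =ᶠ[𝓝 1] fun _ => u v := by
    filter_upwards [Ioi_mem_nhds (zero_lt_one' ℝ)] with t ht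
    exact hu.homogeneous t v ht
  exact (h3.congr_of_eventuallyEq h4.symm).unique (hasDerivAt_const 1 (u v))

/-- Euler's identity for the second derivative. -/
lemma euler2 (hu : IsEigenfunction f lam u) {v : E3} (hv : v ≠ 0) (w : E3) :
    fderiv ℝ (fderiv ℝ u) v w v + fderiv ℝ u v w = 0 := by
  have h1 := (hasFDerivAt_fderiv hu hv).clm_apply (hasFDerivAt_id v)
  have h2 : (fun v : E3 => (fderiv ℝ u v) (id v)) =ᶠ[𝓝 v] fun _ => (0 : ℝ) := by
    filter_upwards [isOpen_compl_singleton.mem_nhds hv] with z hz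
    exact euler1 hu hz
  have h3 := (h1.congr_of_eventuallyEq h2.symm).unique (hasFDerivAt_const (0 : ℝ) v)
  have h4 := congrArg (fun L : E3 →L[ℝ] ℝ => L w) h3
  simp at h4
  linarith

/-- Scaling of the second derivative. -/
lemma scale2 (hu : IsEigenfunction f lam u) {c : ℝ} (hc : 0 < c) (v a b : E3) :
    fderiv ℝ (fderiv ℝ u) v a b = c ^ 2 * fderiv ℝ (fderiv ℝ u) (c • v) a b := by
  have h0 : (fun v => u (c • v)) = u := funext fun v => hu.homogeneous c v hc
  have h1 : fderiv ℝ u = fun v => c • fderiv ℝ u (c • v) := by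
    funext v
    have := fderiv_comp_smul (𝕜 := ℝ) (f := u) (x := v) c
    rw [h0] at this
    exact this
  have h2 : fderiv ℝ (fderiv ℝ u) v = c • (c • fderiv ℝ (fderiv ℝ u) (c • v)) := by
    conv_lhs => rw [h1]
    have h3 := congrFun (fderiv_const_smul_field (𝕜 := ℝ)
      (f := fun v => fderiv ℝ u (c • v)) c) v
    have h4 := fderiv_comp_smul (𝕜 := ℝ) (f := fderiv ℝ u) (x := v) c
    rw [Pi.smul_apply, h4] at h3
    exact h3
  rw [h2]
  simp only [smul_apply, smul_eq_mul]
  ring

lemma laplacian_eq (v : E3) : Laplacian.laplacian u v =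
    fderiv ℝ (fderiv ℝ u) v (ev 0) (ev 0) + fderiv ℝ (fderiv ℝ u) v (ev 1) (ev 1) +
      fderiv ℝ (fderiv ℝ u) v (ev 2) (ev 2) := by
  rw [InnerProductSpace.laplacian_eq_iteratedFDeriv_orthonormalBasis u
    (EuclideanSpace.basisFun (Fin 3) ℝ)]
  simp only [Fin.sum_univ_three, iteratedFDeriv_two_apply, EuclideanSpace.basisFun_apply]
  rfl

/-- The equation in the chart. -/
theorem pde (hu : IsEigenfunction f lam u) (hf : ∀ z, |z| ≤ 1 → 0 < f z) (x y : ℝ) :
    Torus.dx (Torus.dx (fun x y => u (chart x y))) x y +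
      Torus.dy (Torus.dy (fun x y => u (chart x y))) x y +
        lam * (f (Real.tanh x) / Real.cosh x ^ 2) * u (chart x y) = 0 := by
  have hUeq : (fun x y => u (chart x y)) = fun x y => u (Psi x y) := by
    funext x y
    rw [Psi_eq, hu.homogeneous _ _ (Real.cosh_pos x)]
  -- derivatives of `Psi`
  have hPx : ∀ x y, HasDerivAt (fun x => Psi x y) (Real.cosh x • ev 2) x := by
    intro x y
    exact ((Real.hasDerivAt_sinh x).smul_const (ev 2)).const_add _
  have hPy : ∀ x y, HasDerivAt (fun y => Psi x y)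
      ((-Real.sin y) • ev 0 + Real.cos y • ev 1) y := by
    intro x y
    exact (((Real.hasDerivAt_cos y).smul_const (ev 0)).add
      ((Real.hasDerivAt_sin y).smul_const (ev 1))).add_const _
  -- first derivatives
  have hdx : Torus.dx (fun x y => u (Psi x y)) =
      fun x y => fderiv ℝ u (Psi x y) (Real.cosh x • ev 2) := by
    funext x y
    exact ((hasFDerivAt_u hu (Psi_ne_zero x y)).comp_hasDerivAt x (hPx x y)).deriv
  have hdy : Torus.dy (fun x y => u (Psi x y)) =
      fun x y => fderiv ℝ u (Psi x y) ((-Real.sin y) • ev 0 + Real.cos y • ev 1) := by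
    funext x y
    exact ((hasFDerivAt_u hu (Psi_ne_zero x y)).comp_hasDerivAt y (hPy x y)).deriv
  -- second derivatives
  have hdxx : Torus.dx (Torus.dx (fun x y => u (Psi x y))) x y =
      fderiv ℝ (fderiv ℝ u) (Psi x y) (Real.cosh x • ev 2) (Real.cosh x • ev 2) +
        fderiv ℝ u (Psi x y) (Real.sinh x • ev 2) := by
    rw [hdx]
    have h1 : HasDerivAt (fun x => fderiv ℝ u (Psi x y))
        (fderiv ℝ (fderiv ℝ u) (Psi x y) (Real.cosh x • ev 2)) x :=
      (hasFDerivAt_fderiv hu (Psi_ne_zero x y)).comp_hasDerivAt x (hPx x y)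
    exact (h1.clm_apply ((Real.hasDerivAt_cosh x).smul_const (ev 2))).deriv
  have hdyy : Torus.dy (Torus.dy (fun x y => u (Psi x y))) x y =
      fderiv ℝ (fderiv ℝ u) (Psi x y) ((-Real.sin y) • ev 0 + Real.cos y • ev 1)
        ((-Real.sin y) • ev 0 + Real.cos y • ev 1) +
        fderiv ℝ u (Psi x y) ((-Real.cos y) • ev 0 + (-Real.sin y) • ev 1) := by
    rw [hdy]
    have h1 : HasDerivAt (fun y => fderiv ℝ u (Psi x y))
        (fderiv ℝ (fderiv ℝ u) (Psi x y) ((-Real.sin y) • ev 0 + Real.cos y • ev 1)) y :=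
      (hasFDerivAt_fderiv hu (Psi_ne_zero x y)).comp_hasDerivAt y (hPy x y)
    exact (h1.clm_apply (((Real.hasDerivAt_sin y).neg.smul_const (ev 0)).add
      ((Real.hasDerivAt_cos y).smul_const (ev 1)))).deriv
  -- the equation at the point of the sphere
  have hc := Real.cosh_pos x
  have heq := hu.eq (chart x y) (norm_chart x y)
  rw [chart_two, laplacian_eq] at heq
  have hfpos := hf (Real.tanh x) (abs_tanh_le_one x)
  have hs := fun i => scale2 hu hc (chart x y) (ev i) (ev i)
  simp only [← Psi_eq] at hs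
  rw [hs 0, hs 1, hs 2] at heq
  have hne := Psi_ne_zero x y
  have E1 := euler1 hu hne
  have E20 := euler2 hu hne (ev 0)
  have E21 := euler2 hu hne (ev 1)
  have E22 := euler2 hu hne (ev 2)
  have S01 := symm_fderiv hu hne (ev 0) (ev 1)
  have S02 := symm_fderiv hu hne (ev 0) (ev 2)
  have S12 := symm_fderiv hu hne (ev 1) (ev 2)
  have hcs := Real.cos_sq_add_sin_sq y
  have hch := Real.cosh_sq x
  have hPsi : Psi x y = Real.cos y • ev 0 + Real.sin y • ev 1 + Real.sinh x • ev 2 := rfl
  rw [hUeq, hdxx, hdyy]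
  generalize hA : fderiv ℝ u (Psi x y) = A at *
  generalize hB : fderiv ℝ (fderiv ℝ u) (Psi x y) = B at *
  rw [hPsi] at E1 E20 E21 E22
  simp only [map_add, map_smul, add_apply, smul_apply,
    smul_eq_mul] at E1 E20 E21 E22 ⊢
  have h1 : lam * (f (Real.tanh x) / Real.cosh x ^ 2) * u (chart x y) =
      -(B (ev 0) (ev 0) + B (ev 1) (ev 1) + B (ev 2) (ev 2)) := by
    have h2 : f (Real.tanh x) * ((f (Real.tanh x))⁻¹ *
        (Real.cosh x ^ 2 * (B (ev 0)) (ev 0) + Real.cosh x ^ 2 * (B (ev 1)) (ev 1) +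
          Real.cosh x ^ 2 * (B (ev 2)) (ev 2)) + lam * u (chart x y)) = 0 := by
      rw [heq, mul_zero]
    have h3 : f (Real.tanh x) * ((f (Real.tanh x))⁻¹ *
        (Real.cosh x ^ 2 * (B (ev 0)) (ev 0) + Real.cosh x ^ 2 * (B (ev 1)) (ev 1) +
          Real.cosh x ^ 2 * (B (ev 2)) (ev 2)) + lam * u (chart x y)) =
        Real.cosh x ^ 2 * (B (ev 0) (ev 0) + B (ev 1) (ev 1) + B (ev 2) (ev 2)) +
          lam * f (Real.tanh x) * u (chart x y) := by
      field_simp
    rw [h3] at h2
    field_simp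
    linear_combination h2
  rw [h1]
  linear_combination (-Real.cos y) * E20 - Real.sin y * E21 + Real.sinh x * E22 +
    (B (ev 2) (ev 2)) * hch + (B (ev 0) (ev 0) + B (ev 1) (ev 1)) * hcs +
    Real.sinh x * Real.cos y * S02 + Real.sinh x * Real.sin y * S12

end

end Pool.Agent.H67.SphereChart
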