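import Pool.Agent.H24.SphereModel

set_option autoImplicit false

/-!
# The distance of a rotationally symmetric metric on the sphere and the chordal distance
-/

namespace Pool.Agent.H67.SphereDist

open Set Filter Topology Pool.Agent.H24.Sphere

open scoped RealInnerProductSpace

lemma coord_le_one {v : E3} (hv : ‖v‖ = 1) : |v 2| ≤ 1 := by
  have h1 : ‖v 2‖ ≤ ‖v‖ := PiLp.norm_apply_le v 2
  rw [hv, Real.norm_eq_abs] at h1
  exact h1

/-- A unit vector orthogonal to a unit vector. -/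
lemma exists_orth (p : E3) : ∃ w : E3, ‖w‖ = 1 ∧ ⟪p, w⟫ = 0 := by
  have h1 : 1 < Module.finrank ℝ E3 := by simp
  have h2 : ((ℝ ∙ p)ᗮ : Submodule ℝ E3) ≠ ⊥ := by
    intro h
    have h3 := Submodule.finrank_add_finrank_orthogonal (ℝ ∙ p)
    rw [h, finrank_bot, add_zero] at h3
    have h4 : Module.finrank ℝ (ℝ ∙ p) ≤ 1 := by
      have := finrank_span_le_card (R := ℝ) ({p} : Set E3)
      simpa using this
    omega
  obtain ⟨w, hw, hw0⟩ := Submodule.exists_mem_ne_zero_of_ne_bot h2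
  have hn : ‖w‖ ≠ 0 := norm_ne_zero_iff.2 hw0
  refine ⟨(‖w‖)⁻¹ • w, ?_, ?_⟩
  · rw [norm_smul, norm_inv, norm_norm, inv_mul_cancel₀ hn]
  · rw [inner_smul_right, Submodule.mem_orthogonal_singleton_iff_inner_right.1 hw, mul_zero]

lemma exists_angle {p q : E3} (hp : ‖p‖ = 1) (hq : ‖q‖ = 1) :
    ∃ θ ∈ Icc (0 : ℝ) Real.pi, ∃ w : E3, ‖w‖ = 1 ∧ ⟪p, w⟫ = 0 ∧
      q = Real.cos θ • p + Real.sin θ • w := by
  have h1 : |⟪p, q⟫| ≤ 1 := by
    have := abs_real_inner_le_norm p q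
    rwa [hp, hq, one_mul] at this
  obtain ⟨ha, hb⟩ := abs_le.1 h1
  set θ : ℝ := Real.arccos ⟪p, q⟫ with hθ
  have hcos : Real.cos θ = ⟪p, q⟫ := Real.cos_arccos ha hb
  have hI : θ ∈ Icc (0 : ℝ) Real.pi := ⟨Real.arccos_nonneg _, Real.arccos_le_pi _⟩
  refine ⟨θ, hI, ?_⟩
  set r : E3 := q - Real.cos θ • p with hr
  have hpr : ⟪p, r⟫ = 0 := by
    rw [hr, inner_sub_right, inner_smul_right, real_inner_self_eq_norm_sq, hp, hcos]
    ring
  have hrn : ‖r‖ ^ 2 = Real.sin θ ^ 2 := by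
    rw [hr, ← real_inner_self_eq_norm_sq, inner_sub_left, inner_sub_right, inner_sub_right,
      inner_smul_right, inner_smul_left, inner_smul_left, inner_smul_right,
      real_inner_self_eq_norm_sq, real_inner_self_eq_norm_sq, hp, hq, real_inner_comm p q, ← hcos]
    have := Real.sin_sq_add_cos_sq θ
    simp only [RCLike.conj_to_real]
    linear_combination -this
  have hsin0 : 0 ≤ Real.sin θ := Real.sin_nonneg_of_nonneg_of_le_pi hI.1 hI.2
  have hrn' : ‖r‖ = Real.sin θ := by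
    have := abs_eq_abs.2 (sq_eq_sq_iff_eq_or_eq_neg.1 hrn)
    rwa [abs_of_nonneg (norm_nonneg _), abs_of_nonneg hsin0] at this
  by_cases hs : Real.sin θ = 0
  · obtain ⟨w, hw1, hw2⟩ := exists_orth p
    refine ⟨w, hw1, hw2, ?_⟩
    have : r = 0 := by
      rw [← norm_eq_zero, hrn', hs]
    rw [hs, zero_smul, add_zero]
    rw [hr] at this
    exact sub_eq_zero.1 this
  · refine ⟨(Real.sin θ)⁻¹ • r, ?_, ?_, ?_⟩
    · rw [norm_smul, norm_inv, Real.norm_of_nonneg hsin0, hrn', inv_mul_cancel₀ hs]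
    · rw [inner_smul_right, hpr, mul_zero]
    · rw [smul_smul, mul_inv_cancel₀ hs, one_smul, hr]
      abel

/-- The great circle from `p` to `q`. -/
lemma exists_path {p q : E3} (hp : ‖p‖ = 1) (hq : ‖q‖ = 1) :
    ∃ (θ : ℝ) (γ : ℝ → E3), 0 ≤ θ ∧ θ ≤ 2 * ‖p - q‖ ∧ ContDiff ℝ 1 γ ∧ (∀ t, ‖γ t‖ = 1) ∧
      γ 0 = p ∧ γ 1 = q ∧ ∀ t, ‖deriv γ t‖ = θ := by
  obtain ⟨θ, hθ, w, hw, hpw, hq'⟩ := exists_angle hp hq
  have hwp : ⟪w, p⟫ = 0 := by rw [real_inner_comm]; exact hpw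
  have hnorm : ∀ a b : ℝ, ‖a • p + b • w‖ ^ 2 = a ^ 2 + b ^ 2 := by
    intro a b
    rw [← real_inner_self_eq_norm_sq, inner_add_left, inner_add_right, inner_add_right,
      inner_smul_left, inner_smul_left, inner_smul_left, inner_smul_left, inner_smul_right,
      inner_smul_right, inner_smul_right, inner_smul_right, hpw, hwp,
      real_inner_self_eq_norm_sq, real_inner_self_eq_norm_sq, hp, hw]
    simp only [RCLike.conj_to_real]
    ring
  have hd : ∀ t : ℝ, HasDerivAt (fun t : ℝ => Real.cos (θ * t) • p + Real.sin (θ * t) • w)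
      ((-(θ * Real.sin (θ * t))) • p + (θ * Real.cos (θ * t)) • w) t := by
    intro t
    have h1 : HasDerivAt (fun t : ℝ => θ * t) θ t := by
      simpa using (hasDerivAt_id t).const_mul θ
    have h2 : HasDerivAt (fun t : ℝ => Real.cos (θ * t)) (-(θ * Real.sin (θ * t))) t :=
      h1.cos.congr_deriv (by ring)
    have h3 : HasDerivAt (fun t : ℝ => Real.sin (θ * t)) (θ * Real.cos (θ * t)) t :=
      h1.sin.congr_deriv (by ring)
    exact (h2.smul_const p).add (h3.smul_const w)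
  refine ⟨θ, fun t => Real.cos (θ * t) • p + Real.sin (θ * t) • w, hθ.1, ?_, ?_, ?_, ?_, ?_, ?_⟩
  · -- the angle is at most twice the chord
    have h1 : p - q = (1 - Real.cos θ) • p + (-Real.sin θ) • w := by
      rw [hq', sub_smul, one_smul, neg_smul]
      abel
    have h2 : ‖p - q‖ ^ 2 = (2 * Real.sin (θ / 2)) ^ 2 := by
      rw [h1, hnorm]
      have h3 := Real.sin_sq_add_cos_sq θ
      have h4 : Real.cos θ = 1 - 2 * Real.sin (θ / 2) ^ 2 := by
        have h5 := Real.cos_two_mul (θ / 2)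
        have h6 := Real.sin_sq_add_cos_sq (θ / 2)
        rw [show 2 * (θ / 2) = θ by ring] at h5
        linear_combination h5 + 2 * h6
      linear_combination h3 - 2 * h4
    have h5 : 0 ≤ θ / 2 := by linarith [hθ.1]
    have h6 : θ / 2 ≤ Real.pi / 2 := by linarith [hθ.2]
    have h7 := Real.mul_le_sin h5 h6
    have h8 : 0 ≤ 2 * Real.sin (θ / 2) := by
      have : 0 ≤ 2 / Real.pi * (θ / 2) := by positivity
      linarith
    have h9 : ‖p - q‖ = 2 * Real.sin (θ / 2) := by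
      have := abs_eq_abs.2 (sq_eq_sq_iff_eq_or_eq_neg.1 h2)
      rwa [abs_of_nonneg (norm_nonneg _), abs_of_nonneg h8] at this
    rw [h9]
    have h10 : 2 / Real.pi * (θ / 2) = θ / Real.pi := by ring
    rw [h10, div_le_iff₀ Real.pi_pos] at h7
    have hpi := Real.pi_le_four
    have h11 : Real.sin (θ / 2) * Real.pi ≤ Real.sin (θ / 2) * 4 :=
      mul_le_mul_of_nonneg_left hpi (by linarith)
    linarith
  · apply ContDiff.add
    · exact (Real.contDiff_cos.comp (contDiff_const.mul contDiff_id)).smul contDiff_const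
    · exact (Real.contDiff_sin.comp (contDiff_const.mul contDiff_id)).smul contDiff_const
  · intro t
    have h1 := hnorm (Real.cos (θ * t)) (Real.sin (θ * t))
    rw [Real.cos_sq_add_sin_sq] at h1
    have h2 : 0 ≤ ‖Real.cos (θ * t) • p + Real.sin (θ * t) • w‖ := norm_nonneg _
    simp only
    nlinarith
  · simp
  · simp [hq']
  · intro t
    rw [(hd t).deriv]
    have h1 := hnorm (-(θ * Real.sin (θ * t))) (θ * Real.cos (θ * t))
    have h2 : (-(θ * Real.sin (θ * t))) ^ 2 + (θ * Real.cos (θ * t)) ^ 2 = θ ^ 2 := by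
      have := Real.sin_sq_add_cos_sq (θ * t)
      linear_combination θ ^ 2 * this
    rw [h2] at h1
    have := abs_eq_abs.2 (sq_eq_sq_iff_eq_or_eq_neg.1 h1)
    rwa [abs_of_nonneg (norm_nonneg _), abs_of_nonneg hθ.1] at this

section
variable {f : ℝ → ℝ} {f0 f1 : ℝ}

lemma continuous_integrand (hf : Continuous f) {γ : ℝ → E3} (hγ : ContDiff ℝ 1 γ) :
    Continuous (fun t => Real.sqrt (f (γ t 2)) * ‖deriv γ t‖) := by
  have h1 : Continuous (deriv γ) := hγ.continuous_deriv le_rfl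
  have h2 : Continuous γ := hγ.continuous
  have h3 : Continuous (fun t => γ t 2) := (continuous_apply 2).comp
    ((PiLp.continuous_ofLp 2 _).comp h2)
  exact (Real.continuous_sqrt.comp (hf.comp h3)).mul h1.norm

lemma pathLength_le (hf : Continuous f) (hf1 : ∀ z, |z| ≤ 1 → f z ≤ f1) {γ : ℝ → E3}
    (hγ : ContDiff ℝ 1 γ) (hγ1 : ∀ t, ‖γ t‖ = 1) {θ : ℝ} (hθ0 : 0 ≤ θ)
    (hθ : ∀ t, ‖deriv γ t‖ = θ) : pathLength f γ ≤ Real.sqrt f1 * θ := by
  have h1 : pathLength f γ ≤ ∫ _t in (0 : ℝ)..1, Real.sqrt f1 * θ := by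
    unfold pathLength
    apply intervalIntegral.integral_mono_on zero_le_one
    · exact (continuous_integrand hf hγ).intervalIntegrable _ _
    · exact continuous_const.intervalIntegrable _ _
    · intro t _
      rw [hθ t]
      apply mul_le_mul_of_nonneg_right _ hθ0
      apply Real.sqrt_le_sqrt
      exact hf1 _ (coord_le_one (hγ1 t))
  simpa using h1

lemma le_pathLength (hf : Continuous f) (hf0 : ∀ z, |z| ≤ 1 → f0 ≤ f z) {γ : ℝ → E3}
    (hγ : ContDiff ℝ 1 γ) (hγ1 : ∀ t, ‖γ t‖ = 1) :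
    Real.sqrt f0 * ‖γ 0 - γ 1‖ ≤ pathLength f γ := by
  have hdc : Continuous (deriv γ) := hγ.continuous_deriv le_rfl
  have h1 : ‖γ 0 - γ 1‖ ≤ ∫ t in (0 : ℝ)..1, ‖deriv γ t‖ := by
    have h2 : ∫ t in (0 : ℝ)..1, deriv γ t = γ 1 - γ 0 :=
      intervalIntegral.integral_eq_sub_of_hasDerivAt
        (fun t _ => (hγ.differentiable one_ne_zero t).hasDerivAt)
        (hdc.intervalIntegrable _ _)
    rw [norm_sub_rev, ← h2]
    exact intervalIntegral.norm_integral_le_integral_norm zero_le_one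
  have h2 : ∫ t in (0 : ℝ)..1, Real.sqrt f0 * ‖deriv γ t‖ ≤ pathLength f γ := by
    unfold pathLength
    apply intervalIntegral.integral_mono_on zero_le_one
    · exact (continuous_const.mul hdc.norm).intervalIntegrable _ _
    · exact (continuous_integrand hf hγ).intervalIntegrable _ _
    · intro t _
      apply mul_le_mul_of_nonneg_right _ (norm_nonneg _)
      apply Real.sqrt_le_sqrt
      exact hf0 _ (coord_le_one (hγ1 t))
  rw [intervalIntegral.integral_const_mul] at h2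
  exact (mul_le_mul_of_nonneg_left h1 (Real.sqrt_nonneg _)).trans h2

lemma pathLength_nonneg (γ : ℝ → E3) : 0 ≤ pathLength f γ := by
  unfold pathLength
  apply intervalIntegral.integral_nonneg zero_le_one
  intro t _
  positivity

/-- Upper bound for the distance. -/
theorem sphereDist_le (hf : Continuous f) (hf1 : ∀ z, |z| ≤ 1 → f z ≤ f1) {p q : E3}
    (hp : ‖p‖ = 1) (hq : ‖q‖ = 1) : sphereDist f p q ≤ 2 * Real.sqrt f1 * ‖p - q‖ := by
  obtain ⟨θ, γ, hθ0, hθ, hγ, hγ1, h0, h1, hd⟩ := exists_path hp hq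
  have h2 := pathLength_le hf hf1 hγ hγ1 hθ0 hd
  have h3 : sphereDist f p q ≤ pathLength f γ := by
    apply csInf_le
    · refine ⟨0, ?_⟩
      rintro ℓ ⟨γ', _, _, _, _, rfl⟩
      exact pathLength_nonneg γ'
    · exact ⟨γ, hγ, hγ1, h0, h1, rfl⟩
  have h4 : Real.sqrt f1 * θ ≤ Real.sqrt f1 * (2 * ‖p - q‖) :=
    mul_le_mul_of_nonneg_left hθ (Real.sqrt_nonneg _)
  linarith

/-- Lower bound for the distance. -/
theorem le_sphereDist (hf : Continuous f) (hf0 : ∀ z, |z| ≤ 1 → f0 ≤ f z) {p q : E3}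
    (hp : ‖p‖ = 1) (hq : ‖q‖ = 1) : Real.sqrt f0 * ‖p - q‖ ≤ sphereDist f p q := by
  obtain ⟨θ, γ, hθ0, hθ, hγ, hγ1, h0, h1, hd⟩ := exists_path hp hq
  apply le_csInf
  · exact ⟨_, γ, hγ, hγ1, h0, h1, rfl⟩
  · rintro ℓ ⟨γ', h1', h2', h3', h4', rfl⟩
    have := le_pathLength hf hf0 h1' h2'
    rwa [h3', h4'] at this

/-- (G1) -/
theorem mem_geodDisc (hf : Continuous f) (hf1 : ∀ z, |z| ≤ 1 → f z ≤ f1) {p q : E3} {R : ℝ}
    (hp : ‖p‖ = 1) (hq : ‖q‖ = 1) (h : 2 * Real.sqrt f1 * ‖p - q‖ < R) :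
    q ∈ geodDisc f p R :=
  ⟨hq, (sphereDist_le hf hf1 hp hq).trans_lt h⟩

/-- (G2) -/
theorem norm_lt_of_mem_geodDisc (hf : Continuous f) (hf0pos : 0 < f0)
    (hf0 : ∀ z, |z| ≤ 1 → f0 ≤ f z) {p q : E3} {R : ℝ}
    (hp : ‖p‖ = 1) (h : q ∈ geodDisc f p R) : ‖p - q‖ < R / Real.sqrt f0 := by
  have h1 := le_sphereDist hf hf0 hp h.1
  have h2 := h1.trans_lt h.2
  rw [lt_div_iff₀ (Real.sqrt_pos.2 hf0pos), mul_comm]
  exact h2

/-- (G3) -/
theorem doublingIndex_le (hf : Continuous f) (hf1 : ∀ z, |z| ≤ 1 → f z ≤ f1) {u : E3 → ℝ}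
    (hu : ContinuousOn u (Metric.sphere (0 : E3) 1)) {p : E3} (hp : ‖p‖ = 1) {R E : ℝ}
    (hR : 0 < R) (hE : 1 ≤ E)
    (h : ∀ M, (∀ v ∈ geodDisc f p R, |u v| ≤ M) → ∀ v ∈ geodDisc f p (2 * R), |u v| ≤ E * M) :
    doublingIndex f u p R ≤ Real.logb 2 E := by
  obtain ⟨B, hB⟩ := (isCompact_sphere (0 : E3) 1).exists_bound_of_continuousOn hu
  have hbdd : ∀ r, BddAbove ((fun q => |u q|) '' geodDisc f p r) := by
    intro r
    refine ⟨B, ?_⟩
    rintro _ ⟨v, hv, rfl⟩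
    have := hB v (by simpa using hv.1)
    simpa using this
  have hself : ∀ r, 0 < r → p ∈ geodDisc f p r := by
    intro r hr
    apply mem_geodDisc hf hf1 hp hp
    simpa using hr
  set M : ℝ := supAbs u (geodDisc f p R) with hM
  have hM1 : ∀ v ∈ geodDisc f p R, |u v| ≤ M := fun v hv =>
    le_csSup (hbdd R) ⟨v, hv, rfl⟩
  have hM0 : 0 ≤ M := (abs_nonneg _).trans (hM1 p (hself R hR))
  have h2 : supAbs u (geodDisc f p (2 * R)) ≤ E * M := by
    apply csSup_le ⟨_, mem_image_of_mem _ (hself (2 * R) (by linarith))⟩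
    rintro _ ⟨v, hv, rfl⟩
    exact h M hM1 v hv
  have h3 : M ≤ supAbs u (geodDisc f p (2 * R)) := by
    apply csSup_le_csSup (hbdd (2 * R)) ⟨_, mem_image_of_mem _ (hself R hR)⟩
    apply image_mono
    intro v hv
    exact ⟨hv.1, hv.2.trans (by linarith)⟩
  unfold doublingIndex
  rw [← hM]
  rcases hM0.eq_or_lt with h4 | h4
  · rw [← h4, div_zero, Real.logb_zero]
    exact Real.logb_nonneg (by norm_num) hE
  · apply Real.logb_le_logb_of_le (by norm_num)
    · apply div_pos _ h4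
      exact h4.trans_le h3
    · rw [div_le_iff₀ h4]
      exact h2

end

end Pool.Agent.H67.SphereDist
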