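import Mathlib
import Pool.Agent.H67.ChoquetGame
import Pool.Agent.H67.GdeltaTools

/-!
# Wijsman hyperspaces: from a winning strategy on the hyperspace to `G_δ` sets of points
-/

open Set Filter Topology TopologicalSpace

namespace Pool.Agent.H67

/-- The Wijsman topology of a metric `m` on the nonempty closed sets of `X`. -/
noncomputable def wijsman {X : Type} [TopologicalSpace X] (m : MetricSpace X) :
    TopologicalSpace {A : Set X // IsClosed A ∧ A.Nonempty} :=
  ⨅ x : X, TopologicalSpace.induced
    (fun A : {A : Set X // IsClosed A ∧ A.Nonempty} =>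
      @Metric.infEDist X m.toPseudoEMetricSpace x A.1)
    (inferInstance : TopologicalSpace ENNReal)

/-- The singleton map. -/
def sing {X : Type} [TopologicalSpace X] [T1Space X] (x : X) :
    {A : Set X // IsClosed A ∧ A.Nonempty} := ⟨{x}, isClosed_singleton, singleton_nonempty x⟩

theorem induced_sing {X : Type} [m : MetricSpace X] :
    (wijsman m).induced (sing : X → _) = m.toUniformSpace.toTopologicalSpace := by
  unfold wijsman
  rw [induced_iInf]
  simp only [induced_compose]
  have hcomp : ∀ x : X, ((fun A : {A : Set X // IsClosed A ∧ A.Nonempty} =>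
      Metric.infEDist x A.1) ∘ sing) = fun g => edist x g := by
    intro x
    funext g
    simp [sing, Metric.infEDist_singleton]
  simp only [hcomp]
  apply le_antisymm
  · intro V hV
    rw [@isOpen_iff_forall_mem_open]
    intro g hg
    obtain ⟨ε, hε, h⟩ := Metric.isOpen_iff.1 hV g hg
    refine ⟨{x | edist g x < ENNReal.ofReal ε}, ?_, ?_, ?_⟩
    · intro x hx
      apply h
      rw [Metric.mem_ball, dist_comm]
      rw [mem_ofPred_eq, edist_lt_ofReal] at hx
      exact hx
    · refine (iInf_le (fun x : X => TopologicalSpace.induced (fun g => edist x g)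
        (inferInstance : TopologicalSpace ENNReal)) g) _ ?_
      exact ⟨Iio (ENNReal.ofReal ε), isOpen_Iio, rfl⟩
    · simp [hε]
  · exact le_iInf fun x => continuous_iff_le_induced.1 (continuous_const.edist continuous_id)

theorem isGδ_image_of_metric {X : Type} [t : TopologicalSpace X] (m : MetricSpace X)
    (hm : m.toUniformSpace.toTopologicalSpace = t)
    {σ : List ({A : Set X // IsClosed A ∧ A.Nonempty} ×
      Set {A : Set X // IsClosed A ∧ A.Nonempty}) → Set {A : Set X // IsClosed A ∧ A.Nonempty}}
    (hσ : @Winning _ (wijsman m) σ)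
    {Z : Type} [MetricSpace Z] {j : X → Z} (hj : IsEmbedding j)
    {ι : Type} (G : Set X) (I : ℕ → Set ι) (y : ι → X) (B : ι → Set X)
    (hBG : ∀ i, B i ⊆ G)
    (hcov : ∀ k, ∀ g ∈ G, ∃ i ∈ I k, g ∈ B i)
    (hsep : ∀ a b, (∀ k, ∃ i ∈ I k, a ∈ B i ∧ b ∈ B i) → a = b)
    (hd : ∀ i x, 1 < @dist X m.toDist (y i) x ↔ x ∈ B i) :
    IsGδ (j '' G) := by
  subst hm
  let Y := {A : Set X // IsClosed A ∧ A.Nonempty}
  letI τ : TopologicalSpace Y := wijsman m
  let O : ℕ → Set Y := fun k => ⋃ i ∈ I k, {A : Y | 1 < Metric.infEDist (y i) A.1}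
  have hcont : ∀ x : X, Continuous fun A : Y => Metric.infEDist x A.1 := by
    intro x
    rw [continuous_iff_le_induced]
    exact iInf_le _ x
  have hO : ∀ k, IsOpen (O k) := by
    intro k
    refine isOpen_biUnion fun i _ => ?_
    exact isOpen_lt continuous_const (hcont (y i))
  have hind : IsInducing (sing : X → Y) := ⟨induced_sing.symm⟩
  have he' : IsInducing (fun g : G => (sing (g : X) : Y)) :=
    hind.comp IsInducing.subtypeVal
  have hj' : IsInducing (fun g : G => j (g : X)) :=
    hj.isInducing.comp IsInducing.subtypeVal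
  have hres := isGδ_range_of_winning (Y := Y) (σ := σ) (G := G) (Z := Z)
    (j := fun g : G => j (g : X)) (e := fun g : G => (sing (g : X) : Y)) hσ
    (by
      intro V hV
      have h1 : IsOpen ((fun g : G => j (g : X)) ⁻¹' V) := hV.preimage hj'.continuous
      obtain ⟨U, hU, hUV⟩ := he'.isOpen_iff.1 h1
      exact ⟨U, hU, hUV⟩)
    (by
      intro U hU
      have h1 : IsOpen ((fun g : G => (sing (g : X) : Y)) ⁻¹' U) := hU.preimage he'.continuous
      obtain ⟨V, hV, hUV⟩ := hj'.isOpen_iff.1 h1
      exact ⟨V, hV, hUV⟩)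
    O hO
    (by
      intro k g
      obtain ⟨i, hi, hgi⟩ := hcov k g g.2
      refine mem_biUnion hi ?_
      rw [mem_ofPred_eq]
      show 1 < Metric.infEDist (y i) {(g : X)}
      rw [Metric.infEDist_singleton, edist_dist]
      have := (hd i g).2 hgi
      rw [← ENNReal.ofReal_one]
      exact (ENNReal.ofReal_lt_ofReal_iff (by linarith)).2 this)
    (by
      intro A hA
      obtain ⟨a, ha⟩ := A.2.2
      have hAB : ∀ k, ∃ i ∈ I k, A.1 ⊆ B i := by
        intro k
        have := mem_iInter.1 hA k
        obtain ⟨i, hi, hAi⟩ := mem_iUnion₂.1 this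
        refine ⟨i, hi, fun b hb => ?_⟩
        rw [← hd]
        rw [mem_ofPred_eq] at hAi
        have h2 : (1 : ENNReal) < edist (y i) b := hAi.trans_le (Metric.infEDist_le_edist_of_mem hb)
        rw [edist_dist, ← ENNReal.ofReal_one] at h2
        exact (ENNReal.ofReal_lt_ofReal_iff'.1 h2).1
      have hAa : A.1 = {a} := by
        apply Subset.antisymm
        · intro b hb
          refine hsep b a fun k => ?_
          obtain ⟨i, hi, h⟩ := hAB k
          exact ⟨i, hi, h hb, h ha⟩
        · rintro _ rfl; exact ha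
      have haG : a ∈ G := by
        obtain ⟨i, _, h⟩ := hAB 0
        exact hBG i (h ha)
      exact ⟨⟨a, haG⟩, Subtype.ext hAa.symm⟩)
  have : j '' G = range (fun g : G => j (g : X)) := by
    rw [image_eq_range]
  rw [this]
  exact hres

end Pool.Agent.H67
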