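import Mathlib
import Pool.Agent.H67.WijsmanKey

/-!
# The metric whose co-balls form a base of an open set
-/

open Set Filter Topology TopologicalSpace

namespace Pool.Agent.H67

theorem isGδ_image_of_phi {X : Type} [ρ : MetricSpace X]
    (H : ∀ m : MetricSpace X, m.toUniformSpace.toTopologicalSpace =
      ρ.toUniformSpace.toTopologicalSpace →
      ∃ σ, @Winning _ (@wijsman X ρ.toUniformSpace.toTopologicalSpace m) σ)
    {Z : Type} [MetricSpace Z] {j : X → Z} (hj : IsEmbedding j)
    {ι : Type} (G : Set X) (I : ℕ → Set ι) (y : ι → X) (B : ι → Set X)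
    (hBo : ∀ i, IsOpen (B i)) (hBG : ∀ i, B i ⊆ G)
    (hcov : ∀ k, ∀ g ∈ G, ∃ i ∈ I k, g ∈ B i)
    (hsep : ∀ a b, (∀ k, ∃ i ∈ I k, a ∈ B i ∧ b ∈ B i) → a = b)
    (φ : ι → X → ℝ) (hφ0 : ∀ i x, 0 ≤ φ i x) (hφ1 : ∀ i x, φ i x ≤ 1)
    (hφy : ∀ i, φ i (y i) = 0) (hφy' : ∀ i i', i ≠ i' → φ i (y i') = 1)
    (hφG : ∀ i, ∀ g ∈ G, φ i g = 1)
    (hφe : ∀ x, ∀ ε : ℝ, 0 < ε → ∀ᶠ x' in 𝓝 x, ∀ i, |φ i x - φ i x'| ≤ ε) :
    IsGδ (j '' G) := by
  classical
  have hyG : ∀ i, y i ∉ G := by
    intro i hi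
    have := hφG i _ hi
    rw [hφy i] at this
    norm_num at this
  let h : ι → X → ℝ := fun i x => min 1 (Metric.infDist x (B i)ᶜ)
  have hcl : ∀ i, IsClosed (B i)ᶜ := fun i => (hBo i).isClosed_compl
  have hne : ∀ i, ((B i)ᶜ : Set X).Nonempty := fun i => ⟨y i, fun hy => hyG i (hBG i hy)⟩
  have h0 : ∀ i x, 0 ≤ h i x := fun i x => le_min zero_le_one Metric.infDist_nonneg
  have h1 : ∀ i x, h i x ≤ 1 := fun i x => min_le_left _ _
  have hpos : ∀ i x, x ∈ B i → 0 < h i x := by
    intro i x hx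
    refine lt_min zero_lt_one ?_
    exact ((hcl i).notMem_iff_infDist_pos (hne i)).1 (fun hx' => hx' hx)
  have hzero : ∀ i x, x ∉ B i → h i x = 0 := by
    intro i x hx
    have : Metric.infDist x (B i)ᶜ = 0 := Metric.infDist_zero_of_mem hx
    simp [h, this]
  have hlip : ∀ i x x', |h i x - h i x'| ≤ dist x x' := by
    intro i x x'
    have h2 : |Metric.infDist x (B i)ᶜ - Metric.infDist x' (B i)ᶜ| ≤ dist x x' := by
      have := (Metric.lipschitz_infDist_pt ((B i)ᶜ : Set X)).dist_le_mul x x'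
      simpa [Real.dist_eq] using this
    have h3 := abs_min_sub_min_le_max 1 (Metric.infDist x (B i)ᶜ) 1 (Metric.infDist x' (B i)ᶜ)
    refine h3.trans ?_
    rw [sub_self, abs_zero]
    exact max_le dist_nonneg h2
  have hlip2 : ∀ z x x' : X, |min 1 (dist x z) - min 1 (dist x' z)| ≤ dist x x' := by
    intro z x x'
    have h3 := abs_min_sub_min_le_max 1 (dist x z) 1 (dist x' z)
    refine h3.trans ?_
    rw [sub_self, abs_zero]
    exact max_le dist_nonneg (abs_dist_sub_le x x' z)
  let F : X ⊕ ι → X → ℝ := fun s x => Sum.elim (fun z => min 1 (dist x z))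
    (fun i => φ i x + h i x) s
  have hFl : ∀ z x, F (Sum.inl z) x = min 1 (dist x z) := fun _ _ => rfl
  have hFr : ∀ i x, F (Sum.inr i) x = φ i x + h i x := fun _ _ => rfl
  have hFy : ∀ i, F (Sum.inr i) (y i) = 0 := by
    intro i
    rw [hFr, hφy, hzero i (y i) (fun hy => hyG i (hBG i hy)), add_zero]
  have hA : ∀ i x, x ∉ B i → ∀ s, |F s (y i) - F s x| ≤ 1 := by
    intro i x hxB
    rintro (z | i')
    · rw [hFl, hFl, abs_le]
      have a1 : 0 ≤ min 1 (dist (y i) z) := le_min zero_le_one dist_nonneg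
      have a2 : min 1 (dist (y i) z) ≤ 1 := min_le_left _ _
      have a3 : 0 ≤ min 1 (dist x z) := le_min zero_le_one dist_nonneg
      have a4 : min 1 (dist x z) ≤ 1 := min_le_left _ _
      constructor <;> linarith
    · by_cases hii : i' = i
      · subst hii
        rw [hFy, zero_sub, abs_neg, hFr, hzero _ x hxB, add_zero, abs_of_nonneg (hφ0 _ _)]
        exact hφ1 _ _
      · have : F (Sum.inr i') (y i) = 1 := by
          rw [hFr, hφy' i' i hii, hzero i' (y i) (fun hy => hyG i (hBG i' hy)), add_zero]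
        rw [this, hFr, abs_le]
        constructor <;> linarith [hφ0 i' x, hφ1 i' x, h0 i' x, h1 i' x]
  have hB : ∀ i x, x ∈ B i → 1 < |F (Sum.inr i) (y i) - F (Sum.inr i) x| := by
    intro i x hx
    rw [hFy, zero_sub, abs_neg, hFr, hφG i x (hBG i hx), abs_of_nonneg (by linarith [h0 i x])]
    linarith [hpos i x hx]
  obtain ⟨m, hm, hmd⟩ := exists_metric_of_family F 2
    (by
      rintro (z | i) x
      · rw [hFl, abs_of_nonneg (le_min zero_le_one dist_nonneg)]
        exact (min_le_left _ _).trans (by norm_num)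
      · rw [hFr, abs_of_nonneg (add_nonneg (hφ0 i x) (h0 i x))]
        linarith [hφ1 i x, h1 i x])
    (by
      intro x ε hε
      filter_upwards [hφe x (ε / 2) (by positivity), Metric.ball_mem_nhds x
        (show (0 : ℝ) < ε / 2 by positivity)] with x' hx' hx''
      rw [Metric.mem_ball, dist_comm] at hx''
      rintro (z | i)
      · rw [hFl, hFl]
        exact (hlip2 z x x').trans (by linarith)
      · rw [hFr, hFr]
        have h2 : φ i x + h i x - (φ i x' + h i x') = (φ i x - φ i x') + (h i x - h i x') := by ring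
        rw [h2]
        refine (abs_add_le _ _).trans ?_
        linarith [hx' i, hlip i x x'])
    (by
      intro x U hU
      obtain ⟨ε, hε, hball⟩ := Metric.mem_nhds_iff.1 hU
      refine ⟨min ε 1 / 2, by positivity, fun x' hx' => hball ?_⟩
      have h2 := hx' (Sum.inl x)
      rw [hFl, hFl, dist_self, min_eq_right zero_le_one, zero_sub, abs_neg,
        abs_of_nonneg (le_min zero_le_one dist_nonneg)] at h2
      rw [Metric.mem_ball]
      have h3 : min ε 1 ≤ 1 := min_le_right _ _
      have h4 : min ε 1 ≤ ε := min_le_left _ _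
      rcases min_le_iff.1 h2 with h5 | h5
      · linarith
      · linarith)
  obtain ⟨σ, hσ⟩ := H m hm
  refine @isGδ_image_of_metric X ρ.toUniformSpace.toTopologicalSpace m hm σ hσ Z _ j hj ι G I y B
    hBG hcov hsep ?_
  intro i x
  constructor
  · intro hx
    by_contra hxB
    exact absurd ((hmd (y i) x 1 zero_le_one).2 (hA i x hxB)) (not_le.2 hx)
  · intro hx
    by_contra hcon
    exact absurd ((hmd (y i) x 1 zero_le_one).1 (not_lt.1 hcon) (Sum.inr i)) (not_le.2 (hB i x hx))

end Pool.Agent.H67
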