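import Mathlib
import Pool.Agent.H67.WijsmanMetric
import Pool.Agent.H67.SeparatedSets

/-!
# Strong Choquet Wijsman hyperspaces force complete metrizability
-/

open Set Filter Topology TopologicalSpace

namespace Pool.Agent.H67

/-- The set of points having no neighbourhood that is absolutely `G_δ` is compact. -/
theorem isCompact_bad {X : Type} [ρ : MetricSpace X]
    (H : ∀ m : MetricSpace X, m.toUniformSpace.toTopologicalSpace =
      ρ.toUniformSpace.toTopologicalSpace →
      ∃ σ, @Winning _ (@wijsman X ρ.toUniformSpace.toTopologicalSpace m) σ)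
    {Z : Type} [MetricSpace Z] {j : X → Z} (hj : IsEmbedding j) :
    IsCompact {x : X | ¬ ∃ G : Set X, IsOpen G ∧ x ∈ G ∧ IsGδ (j '' G)} := by
  set K : Set X := {x : X | ¬ ∃ G : Set X, IsOpen G ∧ x ∈ G ∧ IsGδ (j '' G)} with hKdef
  have hKcl : IsClosed K := by
    rw [← isOpen_compl_iff, isOpen_iff_forall_mem_open]
    intro x hx
    rw [hKdef, mem_compl_iff, mem_ofPred_eq, not_not] at hx
    obtain ⟨G, hG, hxG, hGδ⟩ := hx
    refine ⟨G, fun z hz hzK => ?_, hG, hxG⟩
    exact hzK ⟨G, hG, hz, hGδ⟩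
  by_contra hKc
  obtain ⟨f, hf, x, hxK, hx⟩ := exists_unbounded hKcl hKc
  let V : ℕ → Set X := fun n => {z | |f z - f (x n)| < 1 / 8}
  have hVo : ∀ n, IsOpen (V n) := fun n =>
    isOpen_lt ((hf.sub continuous_const).abs) continuous_const
  obtain ⟨n₀, hn₀⟩ := exists_min_separated V
  have hδ : ∀ k : ℕ, (0 : ℝ) < 1 / ((k : ℝ) + 1) := fun k => by positivity
  choose S hSV hSp hSm using fun k : ℕ => exists_maximal_separated (V n₀) (hδ k)
  choose T hTV hTp hTe using fun k : ℕ => hn₀ (S k) (hSV k) ⟨_, hδ k, hSp k⟩ (n₀ + 1 + k)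
  choose ε hε hTp' using hTp
  have θ : ∀ k, S k ≃ T k := fun k => (hTe k).some
  have ht' : ∀ k, (fun k => f (x (n₀ + 1 + k))) k + 1 ≤ (fun k => f (x (n₀ + 1 + k))) (k + 1) :=
    fun k => hx (n₀ + 1 + k)
  obtain ⟨a, ha, ha0, hac⟩ := exists_continuous_large hf ht' (fun k => 1 / min (ε k) 1)
  let ι := Σ k : ℕ, S k
  let y : ι → X := fun i => (θ i.1 i.2 : X)
  have hyT : ∀ i : ι, y i ∈ T i.1 := fun i => (θ i.1 i.2).2
  have hyV : ∀ i : ι, |f (y i) - f (x (n₀ + 1 + i.1))| < 1 / 8 := fun i => hTV i.1 (hyT i)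
  let B : ι → Set X := fun i => Metric.ball (i.2 : X) (1 / ((i.1 : ℝ) + 1)) ∩ V n₀
  let I : ℕ → Set ι := fun k => {i | i.1 = k}
  let φ : ι → X → ℝ := fun i z => min 1 (a z * min 1 (dist z (y i)) + 2 * |f z - f (y i)|)
  have hin : ∀ i z, 0 ≤ a z * min 1 (dist z (y i)) + 2 * |f z - f (y i)| := by
    intro i z
    have h1 : 0 ≤ min 1 (dist z (y i)) := le_min zero_le_one dist_nonneg
    have h2 := mul_nonneg (ha0 z) h1
    have h3 := abs_nonneg (f z - f (y i))
    linarith
  have hGδ : IsGδ (j '' V n₀) := by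
    refine isGδ_image_of_phi H hj (V n₀) I y B (fun i => Metric.isOpen_ball.inter (hVo n₀))
      (fun i => inter_subset_right) ?_ ?_ φ (fun i z => le_min zero_le_one (hin i z))
      (fun i z => min_le_left _ _) ?_ ?_ ?_ ?_
    · -- covering
      intro k g hg
      obtain ⟨s, hs, hgs⟩ := hSm k g hg
      exact ⟨⟨k, ⟨s, hs⟩⟩, rfl, hgs, hg⟩
    · -- separation of points
      intro p q hpq
      have hdist : ∀ k : ℕ, dist p q ≤ 2 * (1 / ((k : ℝ) + 1)) := by
        intro k
        obtain ⟨i, hi, hp, hq⟩ := hpq k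
        have hi' : i.1 = k := hi
        have h1 : dist p (i.2 : X) < 1 / ((i.1 : ℝ) + 1) := hp.1
        have h2 : dist q (i.2 : X) < 1 / ((i.1 : ℝ) + 1) := hq.1
        rw [← hi']
        have := dist_triangle_right p q (i.2 : X)
        linarith
      have hlim : Tendsto (fun k : ℕ => 2 * (1 / ((k : ℝ) + 1))) atTop (𝓝 (2 * 0)) :=
        (tendsto_one_div_add_atTop_nhds_zero_nat (𝕜 := ℝ)).const_mul 2
      rw [mul_zero] at hlim
      exact dist_le_zero.1 (ge_of_tendsto' hlim hdist)
    · intro i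
      simp [φ]
    · -- value one at the other centres
      intro i i' hii'
      refine min_eq_left ?_
      by_cases hk : i.1 = i'.1
      · obtain ⟨k, s⟩ := i
        obtain ⟨k', s'⟩ := i'
        have hk' : k = k' := hk
        subst hk'
        have hss' : s ≠ s' := fun h => hii' (by rw [h])
        have hne : y ⟨k, s'⟩ ≠ y ⟨k, s⟩ := by
          intro h
          exact hss' ((θ k).injective (Subtype.ext h)).symm
        have h1 : ε k ≤ dist (y ⟨k, s'⟩) (y ⟨k, s⟩) := hTp' k (hyT ⟨k, s'⟩) (hyT ⟨k, s⟩) hne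
        have h2 : min (ε k) 1 ≤ min 1 (dist (y ⟨k, s'⟩) (y ⟨k, s⟩)) :=
          le_min (min_le_right _ _) ((min_le_left _ _).trans h1)
        have h3 : 1 / min (ε k) 1 ≤ a (y ⟨k, s'⟩) := hac k _ (hyV ⟨k, s'⟩)
        have h4 : 0 < min (ε k) 1 := lt_min (hε k) one_pos
        have h5 : 1 ≤ a (y ⟨k, s'⟩) * min 1 (dist (y ⟨k, s'⟩) (y ⟨k, s⟩)) := by
          calc (1 : ℝ) = 1 / min (ε k) 1 * min (ε k) 1 := by field_simp
            _ ≤ _ := mul_le_mul h3 h2 h4.le (ha0 _)
        have h6 := abs_nonneg (f (y ⟨k, s'⟩) - f (y ⟨k, s⟩))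
        linarith
      · have h1 := one_le_abs_sub_of_step ht' _ _ hk
        have h1' : 1 ≤ |f (x (n₀ + 1 + i.1)) - f (x (n₀ + 1 + i'.1))| := h1
        have h2 := hyV i
        have h3 := hyV i'
        have h4 : f (x (n₀ + 1 + i.1)) - f (x (n₀ + 1 + i'.1)) =
          -(f (y i) - f (x (n₀ + 1 + i.1))) + -(f (y i') - f (y i)) +
            (f (y i') - f (x (n₀ + 1 + i'.1))) := by ring
        have h5 : |f (x (n₀ + 1 + i.1)) - f (x (n₀ + 1 + i'.1))| ≤
          |f (y i) - f (x (n₀ + 1 + i.1))| + |f (y i') - f (y i)| +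
            |f (y i') - f (x (n₀ + 1 + i'.1))| := by
          rw [h4]
          refine (abs_add_three _ _ _).trans ?_
          rw [abs_neg, abs_neg]
        have h6 : 0 ≤ a (y i') * min 1 (dist (y i') (y i)) :=
          mul_nonneg (ha0 _) (le_min zero_le_one dist_nonneg)
        linarith
    · -- value one on `V n₀`
      intro i g hg
      refine min_eq_left ?_
      have hg' : |f g - f (x n₀)| < 1 / 8 := hg
      have h1 := one_le_abs_sub_of_step hx n₀ (n₀ + 1 + i.1) (by omega)
      have h2 := hyV i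
      have h4 : f (x n₀) - f (x (n₀ + 1 + i.1)) =
          -(f g - f (x n₀)) + (f g - f (y i)) + (f (y i) - f (x (n₀ + 1 + i.1))) := by ring
      have h5 : |f (x n₀) - f (x (n₀ + 1 + i.1))| ≤
          |f g - f (x n₀)| + |f g - f (y i)| + |f (y i) - f (x (n₀ + 1 + i.1))| := by
        rw [h4]
        refine (abs_add_three _ _ _).trans ?_
        rw [abs_neg]
      have h6 : 0 ≤ a g * min 1 (dist g (y i)) :=
        mul_nonneg (ha0 _) (le_min zero_le_one dist_nonneg)
      linarith
    · -- equicontinuity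
      intro z e he
      have hlim : Tendsto (fun z' => |a z - a z'| + a z * dist z z' + 2 * |f z - f z'|) (𝓝 z)
          (𝓝 (|a z - a z| + a z * dist z z + 2 * |f z - f z|)) := by
        refine Continuous.tendsto ?_ z
        fun_prop
      rw [sub_self, sub_self, dist_self, abs_zero, mul_zero, mul_zero, add_zero, add_zero] at hlim
      filter_upwards [hlim.eventually (Iio_mem_nhds he)] with z' hz' i
      have hz'' : |a z - a z'| + a z * dist z z' + 2 * |f z - f z'| < e := hz'
      refine le_trans ?_ hz''.le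
      have h3 := abs_min_sub_min_le_max 1 (a z * min 1 (dist z (y i)) + 2 * |f z - f (y i)|) 1
        (a z' * min 1 (dist z' (y i)) + 2 * |f z' - f (y i)|)
      refine h3.trans ?_
      rw [sub_self, abs_zero]
      have hb0 : 0 ≤ min 1 (dist z' (y i)) := le_min zero_le_one dist_nonneg
      have hb1 : min 1 (dist z' (y i)) ≤ 1 := min_le_left _ _
      have hb2 : |min 1 (dist z (y i)) - min 1 (dist z' (y i))| ≤ dist z z' := by
        have h3 := abs_min_sub_min_le_max 1 (dist z (y i)) 1 (dist z' (y i))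
        refine h3.trans ?_
        rw [sub_self, abs_zero]
        exact max_le dist_nonneg (abs_dist_sub_le z z' (y i))
      have hb3 : |(|f z - f (y i)| - |f z' - f (y i)|)| ≤ |f z - f z'| := by
        have := abs_abs_sub_abs_le_abs_sub (f z - f (y i)) (f z' - f (y i))
        rwa [sub_sub_sub_cancel_right] at this
      refine max_le (by positivity [ha0 z]) ?_
      have hexp : a z * min 1 (dist z (y i)) + 2 * |f z - f (y i)| -
          (a z' * min 1 (dist z' (y i)) + 2 * |f z' - f (y i)|) =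
          (a z - a z') * min 1 (dist z' (y i)) +
          a z * (min 1 (dist z (y i)) - min 1 (dist z' (y i))) +
          2 * (|f z - f (y i)| - |f z' - f (y i)|) := by ring
      rw [hexp]
      refine (abs_add_three _ _ _).trans ?_
      rw [abs_mul, abs_mul, abs_mul, abs_of_nonneg hb0, abs_of_nonneg (ha0 z), abs_two]
      have e1 : |a z - a z'| * min 1 (dist z' (y i)) ≤ |a z - a z'| :=
        mul_le_of_le_one_right (abs_nonneg _) hb1
      have e2 : a z * |min 1 (dist z (y i)) - min 1 (dist z' (y i))| ≤ a z * dist z z' :=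
        mul_le_mul_of_nonneg_left hb2 (ha0 z)
      linarith
  refine hxK n₀ ⟨V n₀, hVo n₀, ?_, hGδ⟩
  show |f (x n₀) - f (x n₀)| < 1 / 8
  rw [sub_self, abs_zero]
  norm_num

theorem isCompletelyMetrizableSpace_of_wijsman {X : Type} [ρ : MetricSpace X]
    (H : ∀ m : MetricSpace X, m.toUniformSpace.toTopologicalSpace =
      ρ.toUniformSpace.toTopologicalSpace →
      ∃ σ, @Winning _ (@wijsman X ρ.toUniformSpace.toTopologicalSpace m) σ) :
    IsCompletelyMetrizableSpace X := by
  let j : X → UniformSpace.Completion X := fun x => (x : UniformSpace.Completion X)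
  have hj : IsEmbedding j := UniformSpace.Completion.coe_isometry.isEmbedding
  set K : Set X := {x : X | ¬ ∃ G : Set X, IsOpen G ∧ x ∈ G ∧ IsGδ (j '' G)} with hKdef
  have hKc : IsCompact K := isCompact_bad H hj
  have h1 : IsGδ (j '' K) := (hKc.image hj.continuous).isClosed.isGδ
  have h2 : IsGδ (j '' Kᶜ) := by
    let ι := {G : Set X // IsOpen G ∧ IsGδ (j '' G)}
    have hV : ∀ G : ι, ∃ V : Set (UniformSpace.Completion X), IsOpen V ∧ j ⁻¹' V = G.1 := fun G =>
      hj.isInducing.isOpen_iff.1 G.2.1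
    choose V hVo hVG using hV
    refine isGδ_of_locally V hVo ?_ ?_
    · rintro _ ⟨x, hx, rfl⟩
      rw [hKdef, mem_compl_iff, mem_ofPred_eq, not_not] at hx
      obtain ⟨G, hG, hxG, hGδ⟩ := hx
      refine mem_iUnion.2 ⟨⟨G, hG, hGδ⟩, ?_⟩
      have : x ∈ j ⁻¹' V ⟨G, hG, hGδ⟩ := by rw [hVG]; exact hxG
      exact this
    · intro G
      have : j '' Kᶜ ∩ V G = j '' G.1 := by
        apply Subset.antisymm
        · rintro _ ⟨⟨x, hx, rfl⟩, hxV⟩
          refine ⟨x, ?_, rfl⟩
          have : x ∈ j ⁻¹' V G := hxV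
          rwa [hVG] at this
        · rintro _ ⟨x, hx, rfl⟩
          refine ⟨⟨x, fun hxK => hxK ⟨G.1, G.2.1, hx, G.2.2⟩, rfl⟩, ?_⟩
          have : x ∈ j ⁻¹' V G := by rw [hVG]; exact hx
          exact this
      rw [this]
      exact G.2.2
  have h3 : range j = j '' Kᶜ ∪ j '' K := by
    rw [← image_union, compl_union_self, image_univ]
  exact isCompletelyMetrizableSpace_of_isGδ hj (h3 ▸ h2.union h1)

end Pool.Agent.H67
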